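import Pool.Agent.Lib.CSU.Defs

/-!
# CSU, module CovS: the measure of the covered scales

For a prime `p ∈ prI N ε 1` put `u = log p / log N` (`ε < u ≤ 1`). `p` is covered if
`1 - κ + c ≤ m u ≤ κ - c` for some `1 ≤ m ≤ m0`; `m0 = ⌈1/ε⌉₊ + 3` is large enough for all that
follows.
(i) every `ε < u ≤ 2κ - 1 - 2c` is covered (`m = ⌈(1-κ+c)/u⌉₊`: `m u < 1-κ+c+u`);
(ii) `(1-κ+c)/m ≤ u ≤ (κ-c)/m` is covered, `m = 1, 2, 3`.
The sums of `wt` over the primes of an interval of scales: `CSE.mer`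
(`(b - a) L - C ≤ ∑ p ∈ prI N a b, wt p`; for `b ≤ a` the left side is `≤ 0` and it is trivial);
disjoint intervals: `CSE.prI_disj`. All constants `C` may depend on everything except `N`.

`covA` (`κ ≤ 4/7`, `κ/2 ≤ x`): `prI ε (2κ-1-2c)`, `prI ((1-κ+c)/3) ((κ-c)/3)`,
`prI ((1-κ+c)/2) ((κ-c)/2)` are disjoint (`2κ-1 ≤ (1-κ)/3` as `κ ≤ 4/7`; `κ/3 ≤ (1-κ)/2`) and
covered: total `(2κ-1-2c-ε) + (2κ-1-2c)/3 + (2κ-1-2c)/2 = (11/6)(2κ-1) - ε - (11/3)c`. If this is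
negative the claim is trivial (`κ ≤ 1/2 + small`); intervals with `b ≤ a` are empty. (If
`2κ - 1 - 2c ≤ 0` then `n ≤ 0`: trivial.)
`covB` (`4/7 + 4c ≤ κ ≤ 3/5`, `κ/2 ≤ x`): `prI ε ((κ-c)/3)` is covered: by (i) up to `2κ-1-2c` and by
(ii), `m = 3`, from `(1-κ+c)/3 ≤ 2κ-1-2c` (`7κ ≥ 4 + 7c`); and `prI ((1-κ+c)/2) ((κ-c)/2)`. Total
`(κ-c)/3 - ε + (2κ-1-2c)/2`.
`covC` (`3/5 + 4c ≤ κ`, `κ ≤ 1`, `x ≤ (κ-c)/2`): all of `prI ε x` is covered: (i), `m = 3`, `m = 2`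
(`(1-κ+c)/2 ≤ (κ-c)/3` as `5κ ≥ 3 + 5c`).
`covF` (`2/3 + 4c ≤ κ ≤ 1`, `x ≤ κ - c`): all of `prI ε x` is covered, also `m = 1`
(`1-κ+c ≤ (κ-c)/2`); here also the inclusion `prI N ε x ⊆ covK N ε c κ m0`.
-/

set_option autoImplicit false

open Finset Filter

namespace Pool.CSU

open Pool.Agent.Lib.MP_4b09b1_nt (res pairs)
open Pool.CSE (G rep Bad prI wt dens sv Mv val pop)

theorem covS_key {N : ℕ} (hN : 2 ≤ N) {a b : ℝ} {p : ℕ} (h : p ∈ prI N a b) :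
    p.Prime ∧ p ≤ N ∧ a * Real.log N < Real.log p ∧ Real.log p ≤ b * Real.log N := by
  have hN1 : (1 : ℝ) < N := by exact_mod_cast hN
  have hN0 : (0 : ℝ) < N := by linarith
  rw [Pool.CSE.mem_prI] at h
  obtain ⟨h1, h2, h3, h4⟩ := h
  have hp0 : (0 : ℝ) < p := by exact_mod_cast h2.pos
  refine ⟨h2, h1, ?_, ?_⟩
  · rw [← Real.log_rpow hN0]
    exact Real.log_lt_log (Real.rpow_pos_of_pos hN0 _) h3
  · rw [← Real.log_rpow hN0]
    exact Real.log_le_log hp0 h4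

theorem covS_logpos {N : ℕ} (hN : 2 ≤ N) : 0 < Real.log N := by
  have hN1 : (1 : ℝ) < N := by exact_mod_cast hN
  exact Real.log_pos hN1

/-- (ii) -/
theorem covS_mem {N : ℕ} (hN : 2 ≤ N) {ε c κ : ℝ} {m0 : ℕ} {p : ℕ} {b : ℝ} (hb : b ≤ 1)
    (hp : p ∈ prI N ε b) (m : ℕ) (hm1 : 1 ≤ m) (hm : m ≤ m0)
    (h1 : (1 - κ + c) * Real.log N ≤ m * Real.log p)
    (h2 : m * Real.log p ≤ (κ - c) * Real.log N) : p ∈ covK N ε c κ m0 := by
  classical
  unfold covK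
  rw [mem_filter]
  exact ⟨Pool.CSE.prI_mono (by omega) le_rfl hb hp, m, hm1, hm, h1, h2⟩

/-- (i) -/
theorem covS_small {N : ℕ} (hN : 2 ≤ N) {ε c κ : ℝ} (hε : 0 < ε) (hc : 0 < c) (hκ : κ ≤ 1)
    {m0 : ℕ} (hm0 : ⌈1 / ε⌉₊ ≤ m0) {p : ℕ} {b : ℝ} (hb : b ≤ 1) (hp : p ∈ prI N ε b)
    (hu : Real.log p ≤ (2 * κ - 1 - 2 * c) * Real.log N) : p ∈ covK N ε c κ m0 := by
  have hL := covS_logpos hN
  obtain ⟨h1, h2, h3, h4⟩ := covS_key hN hp
  set u : ℝ := Real.log p / Real.log N with hudef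
  have hul : Real.log p = u * Real.log N := by
    rw [hudef, div_mul_cancel₀ _ hL.ne']
  have hu1 : ε < u := by
    rw [hul] at h3
    exact lt_of_mul_lt_mul_right h3 hL.le
  have hu2 : u ≤ 2 * κ - 1 - 2 * c := by
    rw [hul] at hu
    exact le_of_mul_le_mul_right hu hL
  have hu0 : 0 < u := hε.trans hu1
  have hx : 0 < (1 - κ + c) / u := div_pos (by linarith) hu0
  refine covS_mem hN hb hp ⌈(1 - κ + c) / u⌉₊ (Nat.ceil_pos.2 hx) (le_trans ?_ hm0) ?_ ?_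
  · apply Nat.ceil_mono
    exact div_le_div₀ (by norm_num) (by linarith) hε hu1.le
  · rw [hul, ← mul_assoc]
    apply mul_le_mul_of_nonneg_right _ hL.le
    have h5 := Nat.le_ceil ((1 - κ + c) / u)
    rw [div_le_iff₀ hu0] at h5
    exact h5
  · rw [hul, ← mul_assoc]
    apply mul_le_mul_of_nonneg_right _ hL.le
    have h5 := Nat.ceil_lt_add_one hx.le
    have h6 : (⌈(1 - κ + c) / u⌉₊ : ℝ) * u < ((1 - κ + c) / u + 1) * u :=
      mul_lt_mul_of_pos_right h5 hu0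
    rw [add_mul, div_mul_cancel₀ _ hu0.ne', one_mul] at h6
    linarith

/-- (ii), as an inclusion -/
theorem covS_int {N : ℕ} (hN : 2 ≤ N) {ε c κ a b : ℝ} {m0 : ℕ} (m : ℕ) (hm1 : 1 ≤ m) (hm : m ≤ m0)
    (ha : ε ≤ a) (ha' : (1 - κ + c) ≤ m * a) (hb : b ≤ 1) (hb' : m * b ≤ κ - c) :
    prI N a b ⊆ covK N ε c κ m0 := by
  intro p hp
  have hL := covS_logpos hN
  obtain ⟨h1, h2, h3, h4⟩ := covS_key hN hp
  refine covS_mem hN hb (Pool.CSE.prI_mono (by omega) ha le_rfl hp) m hm1 hm ?_ ?_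
  · calc (1 - κ + c) * Real.log N ≤ (m * a) * Real.log N := mul_le_mul_of_nonneg_right ha' hL.le
      _ = m * (a * Real.log N) := by ring
      _ ≤ m * Real.log p := mul_le_mul_of_nonneg_left h3.le (Nat.cast_nonneg m)
  · calc (m : ℝ) * Real.log p ≤ m * (b * Real.log N) :=
          mul_le_mul_of_nonneg_left h4 (Nat.cast_nonneg m)
      _ = (m * b) * Real.log N := by ring
      _ ≤ (κ - c) * Real.log N := mul_le_mul_of_nonneg_right hb' hL.le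

/-- the range up to `(κ-c)/3` -/
theorem covS_three {N : ℕ} (hN : 2 ≤ N) {ε c κ b : ℝ} (hε : 0 < ε) (hc : 0 < c) (hκ1 : κ ≤ 1)
    (hκ : 4 + 7 * c ≤ 7 * κ) {m0 : ℕ} (hm0 : ⌈1 / ε⌉₊ ≤ m0) (h3 : 3 ≤ m0) (hb : 3 * b ≤ κ - c) :
    prI N ε b ⊆ covK N ε c κ m0 := by
  intro p hp
  have hL := covS_logpos hN
  obtain ⟨h1, h2, h3', h4⟩ := covS_key hN hp
  have hb1 : b ≤ 1 := by linarith
  by_cases hu : Real.log p ≤ (2 * κ - 1 - 2 * c) * Real.log N
  · exact covS_small hN hε hc hκ1 hm0 hb1 hp hu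
  · rw [not_le] at hu
    refine covS_mem hN hb1 hp 3 (by norm_num) h3 ?_ ?_
    · push_cast
      nlinarith
    · push_cast
      nlinarith

theorem covS_two {N : ℕ} (hN : 2 ≤ N) {ε c κ b : ℝ} (hε : 0 < ε) (hc : 0 < c) (hκ1 : κ ≤ 1)
    (hκ : 3 + 5 * c ≤ 5 * κ) {m0 : ℕ} (hm0 : ⌈1 / ε⌉₊ ≤ m0) (h3 : 3 ≤ m0) (hb : 2 * b ≤ κ - c) :
    prI N ε b ⊆ covK N ε c κ m0 := by
  intro p hp
  have hL := covS_logpos hN
  obtain ⟨h1, h2, h3', h4⟩ := covS_key hN hp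
  have hb1 : b ≤ 1 := by linarith
  by_cases hu : 3 * Real.log p ≤ (κ - c) * Real.log N
  · apply covS_three hN hε hc hκ1 (by linarith) hm0 h3 (b := (κ - c) / 3) (by linarith)
    rw [Pool.CSE.mem_prI] at hp ⊢
    refine ⟨hp.1, hp.2.1, hp.2.2.1, ?_⟩
    have hN0 : (0 : ℝ) < N := by exact_mod_cast (by omega : 0 < N)
    have hp0 : (0 : ℝ) < p := by exact_mod_cast h1.pos
    rw [← Real.log_le_log_iff hp0 (Real.rpow_pos_of_pos hN0 _), Real.log_rpow hN0]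
    linarith
  · rw [not_le] at hu
    refine covS_mem hN hb1 hp 2 (by norm_num) (by omega) ?_ ?_
    · push_cast
      nlinarith
    · push_cast
      nlinarith

theorem covS_one {N : ℕ} (hN : 2 ≤ N) {ε c κ b : ℝ} (hε : 0 < ε) (hc : 0 < c) (hκ1 : κ ≤ 1)
    (hκ : 2 + 3 * c ≤ 3 * κ) {m0 : ℕ} (hm0 : ⌈1 / ε⌉₊ ≤ m0) (h3 : 3 ≤ m0) (hb : b ≤ κ - c) :
    prI N ε b ⊆ covK N ε c κ m0 := by
  intro p hp
  have hL := covS_logpos hN
  obtain ⟨h1, h2, h3', h4⟩ := covS_key hN hp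
  have hb1 : b ≤ 1 := by linarith
  by_cases hu : 2 * Real.log p ≤ (κ - c) * Real.log N
  · apply covS_two hN hε hc hκ1 (by linarith) hm0 h3 (b := (κ - c) / 2) (by linarith)
    rw [Pool.CSE.mem_prI] at hp ⊢
    refine ⟨hp.1, hp.2.1, hp.2.2.1, ?_⟩
    have hN0 : (0 : ℝ) < N := by exact_mod_cast (by omega : 0 < N)
    have hp0 : (0 : ℝ) < p := by exact_mod_cast h1.pos
    rw [← Real.log_le_log_iff hp0 (Real.rpow_pos_of_pos hN0 _), Real.log_rpow hN0]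
    linarith
  · rw [not_le] at hu
    refine covS_mem hN hb1 hp 1 (by norm_num) (by omega) ?_ ?_
    · push_cast
      nlinarith
    · push_cast
      nlinarith

/-- nothing is claimed -/
theorem covS_nonpos (ε c κ x n : ℝ) (hn : n ≤ 0) : CovN ε c κ x n := by
  refine ⟨1, le_rfl, 0, fun N hN => ?_⟩
  have hL := covS_logpos hN
  have h1 : 0 ≤ ∑ p ∈ prI N ε x ∩ covK N ε c κ 1, wt p :=
    sum_nonneg fun p _ => Pool.CSE.mer_wt_nonneg p
  have h2 : n * Real.log N ≤ 0 := mul_nonpos_of_nonpos_of_nonneg hn hL.le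
  linarith

theorem covA (ε c κ x n : ℝ) (hε : 0 < ε) (hε1 : ε ≤ 1 / 100) (hc : 0 < c) (hκ : κ ≤ 4 / 7) (hx : κ / 2 ≤ x)
    (hx0 : 0 ≤ x) (hx1 : x ≤ 1) (hn : n ≤ 11 / 6 * (2 * κ - 1) - ε - 4 * c) :
    CovN ε c κ x n := by
  by_cases h0 : 2 * κ - 1 - 2 * c ≤ 0
  · exact covS_nonpos ε c κ x n (by linarith)
  rw [not_le] at h0
  obtain ⟨C1, hC1, m1⟩ := Pool.CSE.mer ε (2 * κ - 1 - 2 * c) hε.le (by linarith)
  obtain ⟨C2, hC2, m2⟩ := Pool.CSE.mer ((1 - κ + c) / 3) ((κ - c) / 3) (by linarith) (by linarith)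
  obtain ⟨C3, hC3, m3⟩ := Pool.CSE.mer ((1 - κ + c) / 2) ((κ - c) / 2) (by linarith) (by linarith)
  refine ⟨⌈1 / ε⌉₊ + 3, by omega, C1 + C2 + C3, fun N hN => ?_⟩
  have hL := covS_logpos hN
  have hN1 : 1 ≤ N := by omega
  have hsub : (prI N ε (2 * κ - 1 - 2 * c) ∪ prI N ((1 - κ + c) / 3) ((κ - c) / 3)) ∪
      prI N ((1 - κ + c) / 2) ((κ - c) / 2) ⊆ prI N ε x ∩ covK N ε c κ (⌈1 / ε⌉₊ + 3) := by
    apply union_subset
    · apply union_subset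
      · apply subset_inter
        · exact Pool.CSE.prI_mono hN1 le_rfl (by linarith)
        · intro p hp
          obtain ⟨h1, h2, h3', h4⟩ := covS_key hN hp
          exact covS_small hN hε hc (by linarith) (by omega) (b := 2 * κ - 1 - 2 * c)
            (by linarith) hp h4
      · apply subset_inter
        · exact Pool.CSE.prI_mono hN1 (by linarith) (by linarith)
        · exact covS_int hN 3 (by norm_num) (by omega) (by linarith) (by push_cast; linarith)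
            (by linarith) (by push_cast; linarith)
    · apply subset_inter
      · exact Pool.CSE.prI_mono hN1 (by linarith) (by linarith)
      · exact covS_int hN 2 (by norm_num) (by omega) (by linarith) (by push_cast; linarith)
          (by linarith) (by push_cast; linarith)
  have hd1 : Disjoint (prI N ε (2 * κ - 1 - 2 * c)) (prI N ((1 - κ + c) / 3) ((κ - c) / 3)) :=
    Pool.CSE.prI_disj hN1 (by linarith)
  have hd2 : Disjoint (prI N ε (2 * κ - 1 - 2 * c) ∪ prI N ((1 - κ + c) / 3) ((κ - c) / 3))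
      (prI N ((1 - κ + c) / 2) ((κ - c) / 2)) := by
    rw [disjoint_union_left]
    exact ⟨Pool.CSE.prI_disj hN1 (by linarith), Pool.CSE.prI_disj hN1 (by linarith)⟩
  have hs := sum_le_sum_of_subset_of_nonneg (f := wt) hsub fun p _ _ => Pool.CSE.mer_wt_nonneg p
  rw [sum_union hd2, sum_union hd1] at hs
  have g1 := m1 N hN
  have g2 := m2 N hN
  have g3 := m3 N hN
  have g4 : n * Real.log N ≤ (2 * κ - 1 - 2 * c - ε + ((κ - c) / 3 - (1 - κ + c) / 3) +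
      ((κ - c) / 2 - (1 - κ + c) / 2)) * Real.log N :=
    mul_le_mul_of_nonneg_right (by linarith) hL.le
  rw [add_mul, add_mul] at g4
  linarith

theorem covB (ε c κ x n : ℝ) (hε : 0 < ε) (hε1 : ε ≤ 1 / 100) (hc : 0 < c) (hκ : 4 / 7 + 4 * c ≤ κ) (hκ1 : κ ≤ 3 / 5)
    (hx : κ / 2 ≤ x) (hx1 : x ≤ 1) (hn : n ≤ 4 / 3 * κ - 1 / 2 - ε - 4 * c) :
    CovN ε c κ x n := by
  obtain ⟨C1, hC1, m1⟩ := Pool.CSE.mer ε ((κ - c) / 3) hε.le (by linarith)
  obtain ⟨C3, hC3, m3⟩ := Pool.CSE.mer ((1 - κ + c) / 2) ((κ - c) / 2) (by linarith) (by linarith)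
  refine ⟨⌈1 / ε⌉₊ + 3, by omega, C1 + C3, fun N hN => ?_⟩
  have hL := covS_logpos hN
  have hN1 : 1 ≤ N := by omega
  have hsub : prI N ε ((κ - c) / 3) ∪
      prI N ((1 - κ + c) / 2) ((κ - c) / 2) ⊆ prI N ε x ∩ covK N ε c κ (⌈1 / ε⌉₊ + 3) := by
    apply union_subset
    · apply subset_inter
      · exact Pool.CSE.prI_mono hN1 le_rfl (by linarith)
      · exact covS_three hN hε hc (by linarith) (by linarith) (by omega) (by omega) (by linarith)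
    · apply subset_inter
      · exact Pool.CSE.prI_mono hN1 (by linarith) (by linarith)
      · exact covS_int hN 2 (by norm_num) (by omega) (by linarith) (by push_cast; linarith)
          (by linarith) (by push_cast; linarith)
  have hd1 : Disjoint (prI N ε ((κ - c) / 3)) (prI N ((1 - κ + c) / 2) ((κ - c) / 2)) :=
    Pool.CSE.prI_disj hN1 (by linarith)
  have hs := sum_le_sum_of_subset_of_nonneg (f := wt) hsub fun p _ _ => Pool.CSE.mer_wt_nonneg p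
  rw [sum_union hd1] at hs
  have g1 := m1 N hN
  have g3 := m3 N hN
  have g4 : n * Real.log N ≤ ((κ - c) / 3 - ε +
      ((κ - c) / 2 - (1 - κ + c) / 2)) * Real.log N :=
    mul_le_mul_of_nonneg_right (by linarith) hL.le
  rw [add_mul] at g4
  linarith

theorem covC (ε c κ x n : ℝ) (hε : 0 < ε) (hc : 0 < c) (hκ : 3 / 5 + 4 * c ≤ κ) (hκ1 : κ ≤ 1)
    (hx0 : 0 ≤ x) (hx : x ≤ (κ - c) / 2) (hn : n ≤ x - ε) :
    CovN ε c κ x n := by
  obtain ⟨C1, hC1, m1⟩ := Pool.CSE.mer ε x hε.le (by linarith)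
  refine ⟨⌈1 / ε⌉₊ + 3, by omega, C1, fun N hN => ?_⟩
  have hL := covS_logpos hN
  have hsub : prI N ε x ⊆ prI N ε x ∩ covK N ε c κ (⌈1 / ε⌉₊ + 3) :=
    subset_inter (Subset.refl _)
      (covS_two hN hε hc (by linarith) (by linarith) (by omega) (by omega) (by linarith))
  have hs := sum_le_sum_of_subset_of_nonneg (f := wt) hsub fun p _ _ => Pool.CSE.mer_wt_nonneg p
  have g1 := m1 N hN
  have g4 : n * Real.log N ≤ (x - ε) * Real.log N := mul_le_mul_of_nonneg_right hn hL.le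
  linarith

/-- the covered weight grows with `x` -/
theorem covMono (ε c κ x x' n : ℝ) (h : x ≤ x') (hn : CovN ε c κ x n) : CovN ε c κ x' n := by
  obtain ⟨m0, hm0, C, hC⟩ := hn
  refine ⟨m0, hm0, C, fun N hN => (hC N hN).trans ?_⟩
  apply sum_le_sum_of_subset_of_nonneg _ fun p _ _ => Pool.CSE.mer_wt_nonneg p
  exact inter_subset_inter (Pool.CSE.prI_mono (by omega) le_rfl h) (Subset.refl _)

theorem covF (ε c κ x : ℝ) (hε : 0 < ε) (hc : 0 < c) (hκ : 2 / 3 + 4 * c ≤ κ) (hκ1 : κ ≤ 1)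
    (hx : x ≤ κ - c) :
    ∃ m0 : ℕ, 1 ≤ m0 ∧ ∀ N : ℕ, 2 ≤ N → prI N ε x ⊆ covK N ε c κ m0 :=
  ⟨⌈1 / ε⌉₊ + 3, by omega, fun N hN =>
    covS_one hN hε hc hκ1 (by linarith) (by omega) (by omega) hx⟩

/-- nothing is claimed -/
theorem covZ (ε c κ x : ℝ) : CovN ε c κ x 0 := covS_nonpos ε c κ x 0 le_rfl

end Pool.CSU
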