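import Pool.Agent.Lib.CSU.Skel
import Pool.Agent.Lib.CSU.BadA
import Pool.Agent.Lib.CSU.CovS

/-!
# CSU, module ABx: `1/4 < ρ ≤ 28/100`, `|T| ≥ N^(12298/10000 - 2ρ) ≥ N^(6698/10000)`

`(X, Y) = (A, B)`. Let `d = ρ - 1/4 > 0`, `ε = c = η = d/100` (`≤ 1/1000`), `K = 1`, `κ = 66/100`
(`≤ τ = 12298/10000 - 2ρ`, `τ ≥ .6698`). `covC` with `x = ρ` (`ρ ≤ 28/100 ≤ (κ - c)/2`,
`n = ρ - ε`) and its `m0`. Let `D = prI N ε ρ ∩ covK N ε c κ m0`, `R` its bad primes
(`Bad η T p`): `∑_R wt ≤ 1` (`badT`, `H = |l|.natAbs + |m|.natAbs`). For `p ∈ D \ R`: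
`s ≤ dn A dn B + η ≤ 1/4 + η`, so `1/s ≥ 4 (1 - 4η)`. `S1`: `4(1-4η)((ρ-ε) L - C - 1) ≤ L + C`,
but `4 (1-4η)(ρ - ε) ≥ (1 - 4d/100)(1 + 4d - 4d/100) > 1 + d`: contradiction for `N` large.
-/

set_option autoImplicit false

open Finset Filter

namespace Pool.CSU

private theorem abx_log_large (c C : ℝ) (hc : 0 < c) :
    ∀ᶠ N : ℕ in atTop, C < c * Real.log N := by
  have h : Tendsto (fun N : ℕ => c * Real.log (N : ℝ)) atTop atTop :=
    Tendsto.const_mul_atTop hc (Real.tendsto_log_atTop.comp tendsto_natCast_atTop_atTop)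
  exact h.eventually_gt_atTop C

private theorem abx_inv (a b s e : ℝ) (ha : 0 < a) (hb : 0 < b) (hab : a + b ≤ 1) (hs : 0 < s)
    (he : 0 < e) (he1 : e ≤ 1 / 8) (hse : s ≤ a * b + e) : 4 * (1 - 4 * e) ≤ 1 / s := by
  have h1 : a * b ≤ 1 / 4 := by nlinarith [sq_nonneg (a - b)]
  have h2 : s ≤ 1 / 4 + e := by linarith
  rw [le_div_iff₀ hs]
  nlinarith

private theorem abx_mono (N : ℕ) (hN : 1 ≤ N) (a b b' : ℝ) (h : b ≤ b') :
    Pool.CSE.prI N a b ⊆ Pool.CSE.prI N a b' := by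
  classical
  intro p hp
  simp only [Pool.CSE.prI, Finset.mem_filter] at hp ⊢
  refine ⟨hp.1, hp.2.1, hp.2.2.1, hp.2.2.2.trans ?_⟩
  exact Real.rpow_le_rpow_of_exponent_le (by exact_mod_cast hN) h

theorem abx (p₀ : ℕ) (l m : ℤ) (hl : l ≠ 0) (hm : m ≠ 0) (ρ : ℝ) (hρ : 1 / 4 < ρ)
    (hρ1 : ρ ≤ 28 / 100) :
    ∀ᶠ N : ℕ in atTop, ∀ A B T : Finset ℤ,
      ¬ Conf p₀ N l m ρ (12298 / 10000 - 2 * ρ) A B A B T := by
  classical
  obtain ⟨e, he⟩ : ∃ e : ℝ, e = (ρ - 1 / 4) / 100 := ⟨_, rfl⟩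
  have hρe : ρ = 1 / 4 + 100 * e := by rw [he]; ring
  have he0 : 0 < e := by rw [he]; linarith
  have he1 : e ≤ 3 / 10000 := by rw [he]; linarith
  obtain ⟨C₁, h₁⟩ := skel p₀ l m hl hm ρ (12298 / 10000 - 2 * ρ) e e 1 hρ.le (by linarith)
    (by linarith) (by linarith) he0 (by linarith) he0 (by linarith) le_rfl
  obtain ⟨m0, hm0, C₂, h₂⟩ := covC e e (66 / 100) ρ (ρ - e) he0 he0 (by linarith) (by norm_num)
    (by linarith) (by linarith) le_rfl
  have h₃ := badT (l.natAbs + m.natAbs) m0 e (66 / 100) e e he0 (by linarith) (by norm_num) he0 he0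
    hm0
  filter_upwards [h₁, h₃, abx_log_large (100 * e) (C₁ + 4 * (|C₂| + 1)) (by positivity),
    eventually_ge_atTop 2] with N hN1 hN3 hL hN2 A B T hconf
  have hNr : (1 : ℝ) ≤ N := by exact_mod_cast (by omega : 1 ≤ N)
  have S := hN1 A B A B T hconf
  have hcov := h₂ N hN2
  obtain ⟨D, hD⟩ : ∃ D : Finset ℕ,
      D = Pool.CSE.prI N e ρ ∩ covK N e e (66 / 100) m0 := ⟨_, rfl⟩
  rw [← hD] at hcov
  obtain ⟨R, hR⟩ : ∃ R : Finset ℕ, R = D.filter (fun p => Pool.CSE.Bad e T p) := ⟨_, rfl⟩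
  have hDsub : D ⊆ Pool.CSE.prI N e ρ := by rw [hD]; exact Finset.inter_subset_left
  have hRsub : R ⊆ covK N e e (66 / 100) m0 := by
    intro p hp
    rw [hR, Finset.mem_filter, hD, Finset.mem_inter] at hp
    exact hp.1.2
  have hbad := hN3 T (by
      intro t ht
      have := hconf.hT t ht
      have hc : (((l.natAbs + m.natAbs : ℕ) : ℤ)) = |l| + |m| := by
        push_cast
        rfl
      rw [hc]; exact this)
    (le_trans (Real.rpow_le_rpow_of_exponent_le hNr (by linarith)) hconf.cT) R hRsub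
    (by
      intro p hp
      rw [hR, Finset.mem_filter] at hp
      exact hp.2)
  have hwt : ∀ p : ℕ, 0 ≤ Pool.CSE.wt p := by
    intro p
    unfold Pool.CSE.wt
    exact div_nonneg (Real.log_natCast_nonneg p) (Nat.cast_nonneg p)
  have hsplit : ∑ p ∈ D.filter (fun p => ¬ Pool.CSE.Bad e T p), Pool.CSE.wt p =
      ∑ p ∈ D, Pool.CSE.wt p - ∑ p ∈ R, Pool.CSE.wt p := by
    rw [hR]
    have := Finset.sum_filter_add_sum_filter_not D (fun p => Pool.CSE.Bad e T p) Pool.CSE.wt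
    linarith
  have hsub : Pool.CSE.prI N e ρ ⊆ Pool.CSE.prI N e (4899 / 10000) :=
    abx_mono N (by omega) _ _ _ (by linarith)
  have hlow : 4 * (1 - 4 * e) * ∑ p ∈ D.filter (fun p => ¬ Pool.CSE.Bad e T p), Pool.CSE.wt p ≤
      ∑ p ∈ Pool.CSE.prI N e ρ, Pool.CSE.wt p / sn l m A B T p := by
    rw [Finset.mul_sum]
    calc ∑ p ∈ D.filter (fun p => ¬ Pool.CSE.Bad e T p), 4 * (1 - 4 * e) * Pool.CSE.wt p
        ≤ ∑ p ∈ D.filter (fun p => ¬ Pool.CSE.Bad e T p),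
            Pool.CSE.wt p / sn l m A B T p := by
          apply Finset.sum_le_sum
          intro p hp
          rw [Finset.mem_filter] at hp
          have hp1 := hDsub hp.1
          obtain ⟨a1, a2, a3⟩ := S.dA p (hsub hp1)
          obtain ⟨b1, b2, b3, b4⟩ := S.s0 p hp1
          have h := abx_inv _ _ _ e a1 a2 a3 b1 he0 (by linarith) (S.sC p hp1 hp.2)
          calc 4 * (1 - 4 * e) * Pool.CSE.wt p ≤ 1 / sn l m A B T p * Pool.CSE.wt p :=
                mul_le_mul_of_nonneg_right h (hwt p)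
            _ = Pool.CSE.wt p / sn l m A B T p := by ring
      _ ≤ ∑ p ∈ Pool.CSE.prI N e ρ, Pool.CSE.wt p / sn l m A B T p := by
          apply Finset.sum_le_sum_of_subset_of_nonneg
          · exact (Finset.filter_subset _ _).trans hDsub
          · intro p hp _
            exact div_nonneg (hwt p) (S.s0 p hp).1.le
  have hS1 := S.S1
  have hlog : 0 ≤ Real.log N := Real.log_natCast_nonneg N
  rw [hsplit] at hlow
  have h5 : (ρ - e) * Real.log N - (|C₂| + 1) ≤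
      ∑ p ∈ D, Pool.CSE.wt p - ∑ p ∈ R, Pool.CSE.wt p := by
    have := le_abs_self C₂
    linarith
  have h6 : 0 ≤ 4 * (1 - 4 * e) := by linarith
  have h7 := mul_le_mul_of_nonneg_left h5 h6
  have h8 : 4 * (1 - 4 * e) * (|C₂| + 1) ≤ 4 * (|C₂| + 1) := by
    have : 0 ≤ |C₂| + 1 := by positivity
    nlinarith
  have h9 : (1 + 100 * e) * Real.log N ≤ 4 * (1 - 4 * e) * ((ρ - e) * Real.log N) := by
    have : 1 + 100 * e ≤ 4 * (1 - 4 * e) * (ρ - e) := by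
      rw [hρe]; nlinarith
    calc (1 + 100 * e) * Real.log N ≤ (4 * (1 - 4 * e) * (ρ - e)) * Real.log N :=
          mul_le_mul_of_nonneg_right this hlog
      _ = 4 * (1 - 4 * e) * ((ρ - e) * Real.log N) := by ring
  have h10 : 4 * (1 - 4 * e) * ((ρ - e) * Real.log N - (|C₂| + 1)) =
      4 * (1 - 4 * e) * ((ρ - e) * Real.log N) - 4 * (1 - 4 * e) * (|C₂| + 1) := by ring
  linarith

end Pool.CSU
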