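import Pool.Agent.Lib.CSE.Mer
import Pool.Agent.Lib.CSE.Pig
import Pool.Agent.Lib.CSE.Lar
import Pool.Agent.Lib.CSE.FouB

/-!
# CSU (energies and Fourier coefficients of pairs with complementary residues): definitions

Paper: /team-store/MP_4b09b1_nt_uniform_paper46.md (helper46). `L = log N`, `θ = 4899/10000`.
`Pair p₀ N A B`: `A, B ⊆ [1, N]`, `|A|, |B| ≥ N^θ`, `|A_p| + |B_p| ≤ p + 1` for the primes
`p₀ ≤ p ≤ N^θ`. (Composite-free sumsets: `|A_p| + |B_p| ≤ p`. Sets with `|A_p| ≤ (p+1)/2`: the pair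
`(A, A)`.) Because of the `+ 1` the densities are normalised by `p + 1`: `dn`, `sn`.
`res`, `pairs` are in `MP_4b09b1_nt/Defs.lean`; `G`, `rep`, `Bad`, `prI`, `wt`, `dens`, `sv`, `Mv`
in `CSE/Defs.lean`; `val`, `pop` in `CSE/Pig.lean`.
-/

set_option autoImplicit false

open Finset

namespace Pool.CSU

open Pool.Agent.Lib.MP_4b09b1_nt (res pairs)
open Pool.CSE (G rep Bad prI wt dens sv Mv val pop)

/-- two large sets with (almost) complementary residue sets -/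
structure Pair (p₀ N : ℕ) (A B : Finset ℤ) : Prop where
  hA : ∀ a ∈ A, 1 ≤ a ∧ a ≤ (N : ℤ)
  hB : ∀ b ∈ B, 1 ≤ b ∧ b ≤ (N : ℤ)
  loc : ∀ p : ℕ, p.Prime → p₀ ≤ p → (p : ℝ) ≤ (N : ℝ) ^ (4899 / 10000 : ℝ) →
    (res A p).card + (res B p).card ≤ p + 1
  cA : (N : ℝ) ^ (4899 / 10000 : ℝ) ≤ A.card
  cB : (N : ℝ) ^ (4899 / 10000 : ℝ) ≤ B.card

/-- the energy: the number of solutions of `l x + m y = l x' + m y'` -/
def eng (l m : ℤ) (X Y : Finset ℤ) : ℕ :=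
  (((X ×ˢ Y) ×ˢ (X ×ˢ Y)).filter (fun z : (ℤ × ℤ) × (ℤ × ℤ) =>
    l * z.1.1 + m * z.1.2 = l * z.2.1 + m * z.2.2)).card

/-- the normalised density of the residue classes occupied by `X` -/
noncomputable def dn (X : Finset ℤ) (p : ℕ) : ℝ := (res X p).card / ((p : ℝ) + 1)

/-- the normalised average of `G / p` over `T` -/
noncomputable def sn (l m : ℤ) (X Y T : Finset ℤ) (p : ℕ) : ℝ :=
  sv l m X Y T p * ((p : ℝ) / (p + 1)) ^ 2

/-- the distance (squared, in `ℓ²`, times `p`) of the distribution of `X` modulo `p` from the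
uniform distribution on the occupied classes -/
noncomputable def yv (X : Finset ℤ) (p : ℕ) : ℝ := Mv X p - 1 / dens X p

/-- the covered primes for the exponent `κ` -/
noncomputable def covK (N : ℕ) (ε c κ : ℝ) (m0 : ℕ) : Finset ℕ :=
  open Classical in
  (prI N ε 1).filter (fun p : ℕ => ∃ m : ℕ, 1 ≤ m ∧ m ≤ m0 ∧
    (1 - κ + c) * Real.log N ≤ m * Real.log p ∧ m * Real.log p ≤ (κ - c) * Real.log N)

/-- the covered primes up to `N^x` have weight at least `n L - C` -/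
def CovN (ε c κ x n : ℝ) : Prop :=
  ∃ m0 : ℕ, 1 ≤ m0 ∧ ∃ C : ℝ, ∀ N : ℕ, 2 ≤ N →
    n * Real.log N - C ≤ ∑ p ∈ prI N ε x ∩ covK N ε c κ m0, wt p

/-- a configuration: a set `T` of at least `N^τ` values `t` with at least `N^ρ` representations
`t = l x + m y` -/
structure Conf (p₀ N : ℕ) (l m : ℤ) (ρ τ : ℝ) (A B X Y T : Finset ℤ) : Prop where
  pair : Pair p₀ N A B
  hX : X = A ∨ X = B
  hY : Y = A ∨ Y = B
  hT : ∀ t ∈ T, |t| ≤ (|l| + |m|) * (N : ℤ)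
  cT : (N : ℝ) ^ τ ≤ T.card
  rT : ∀ t ∈ T, (N : ℝ) ^ ρ ≤ rep l m X Y t

/-- the local data which a configuration provides -/
structure Sk (N : ℕ) (l m : ℤ) (ρ τ ε η K C : ℝ) (A B X Y T : Finset ℤ) : Prop where
  dA : ∀ p ∈ prI N ε (4899 / 10000), 0 < dn A p ∧ 0 < dn B p ∧ dn A p + dn B p ≤ 1
  yA : ∀ p ∈ prI N ε (4899 / 10000), 0 ≤ yv A p ∧ Mv A p ≤ 1 / dn A p + yv A p ∧
    0 ≤ yv B p ∧ Mv B p ≤ 1 / dn B p + yv B p
  s0 : ∀ p ∈ prI N ε ρ, 0 < sn l m X Y T p ∧ sn l m X Y T p ≤ dn X p ∧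
    sn l m X Y T p ≤ dn Y p ∧ 1 ≤ Mv T p
  sC : ∀ p ∈ prI N ε ρ, ¬ Bad η T p → sn l m X Y T p ≤ dn X p * dn Y p + η
  sU : ∀ p ∈ prI N ε ρ, sn l m X Y T p ≤
    dn X p * dn Y p + √(507 / 5000 * (dn Y p * (1 - dn Y p)) * (Mv T p - 1))
  sA : ∀ p ∈ prI N ε ρ, ¬ Bad η X p → ¬ Bad η Y p → Mv T p ≤ K → Mv X p ≤ K → Mv Y p ≤ K →
    sn l m X Y T p ≤ dn X p * dn Y p * (1 + √(yv X p * yv Y p)) + 3 * η * K
  S1 : ∑ p ∈ prI N ε ρ, wt p / sn l m X Y T p ≤ Real.log N + C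
  SA : ∑ p ∈ prI N ε (4899 / 10000), wt p * (1 / dn A p + yv A p) ≤ Real.log N + C
  SB : ∑ p ∈ prI N ε (4899 / 10000), wt p * (1 / dn B p + yv B p) ≤ Real.log N + C
  SM : ∑ p ∈ prI N ε (min ρ τ), wt p * (Mv T p - 1) ≤ (1 - τ) * Real.log N + C

theorem Pair.symm {p₀ N : ℕ} {A B : Finset ℤ} (h : Pair p₀ N A B) : Pair p₀ N B A :=
  ⟨h.hB, h.hA, fun p hp h1 h2 => by rw [add_comm]; exact h.loc p hp h1 h2, h.cB, h.cA⟩

end Pool.CSU
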