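import Pool.Agent.Lib.CSE.FouB
import Pool.Agent.Lib.CSU.Defs

/-!
# CSU, module FouE: the bound (AC) when `X` and `Y` are unbiased modulo `p`

Let `X` be a nonempty finite set of integers, `R = res X p`, `α = |R|/p = dens X p`,
`a(k) = hatT p X k / |X|` and `u(k) = hat R k / |R|` (the Fourier coefficients of the distribution of
`X` modulo `p` and of the uniform distribution on `R`).
(1) `∑_k ‖u(k) - a(k)‖^2 = Mv X p - 1/α = yv X p`. Indeed by orthogonality
`∑_k ‖a(k)‖^2 = p pairs/|X|^2 = Mv X p` (`hatT_sq`), `∑_k ‖u(k)‖^2 = p/|R| = 1/α` (`parseval`), and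
`∑_k u(k) conj(a(k)) = p ∑_h (1/|R|) 1_R(h) #{x ∈ X, x ≡ h}/|X| = p/|R| = 1/α`. Alternatively apply
`fouA_mean`-like orthogonality to the function `h ↦ 1_R(h)/|R| - #{x ≡ h}/|X|` on `ZMod p`. So
`yv X p ≥ 0` (`yv_nonneg`).
(2) `sv = αβ (1 + E)`, `E = ∑_{k≠0} u_X(k l) u_Y(k m) conj-or-minus a_T(-k)` (`CSE.sum_G` divided by
`|T| |R_X| |R_Y| / p`; `k = 0` gives `1`).
(3) If `X`, `Y` are not bad: `‖a_X(k)‖, ‖a_Y(k)‖ ≤ η` for `k ≠ 0` (`fouB_nonbad`). Write
`u_X = a_X + e_X`, `u_Y = a_Y + e_Y`; `‖a_T‖ ≤ 1`; then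
`|E| ≤ ∑ ‖a_T‖ (‖a_X‖‖a_Y‖ + ‖a_X‖‖e_Y‖ + ‖e_X‖‖a_Y‖ + ‖e_X‖‖e_Y‖)
 ≤ η √M_T √M_Y + η √M_T √y_Y + η √M_T √y_X + √(y_X y_Y)`
(Cauchy-Schwarz, the first two factors: `‖a_X‖ ≤ η`; the third: `‖a_Y‖ ≤ η`; the sums over
`k ↦ k l`, `k ↦ k m` are permuted: `fouB_shift_ne`), and `M_T, M_X, M_Y, y_X, y_Y ≤ K`
(`y ≤ M`): `|E| ≤ √(y_X y_Y) + 3 η K`.
-/

set_option autoImplicit false

open Finset

namespace Pool.CSU

open Pool.Agent.Lib.MP_4b09b1_nt (res pairs)
open Pool.CSE (G rep Bad prI wt dens sv Mv val pop hat hatT)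

private noncomputable def fouE_a (p : ℕ) [NeZero p] (X : Finset ℤ) (k : ZMod p) : ℂ :=
  hatT p X k / X.card

private noncomputable def fouE_u (p : ℕ) [NeZero p] (X : Finset ℤ) (k : ZMod p) : ℂ :=
  hat (res X p) k / (res X p).card

private theorem fouE_mem_res (p : ℕ) (X : Finset ℤ) (x : ℤ) (hx : x ∈ X) :
    (x : ZMod p) ∈ res X p := by
  classical
  unfold res
  simp only [Finset.bind_def, Finset.pure_def, Finset.image_id', Finset.mem_sup,
    Finset.mem_singleton]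
  exact ⟨x, hx, rfl⟩

private theorem fouE_res_card (p : ℕ) (X : Finset ℤ) (hX : X.Nonempty) :
    0 < (res X p).card := by
  obtain ⟨x, hx⟩ := hX
  exact Finset.card_pos.2 ⟨_, fouE_mem_res p X x hx⟩

private theorem fouE_cross (p : ℕ) [Fact p.Prime] (X : Finset ℤ) :
    ∑ k : ZMod p, hat (res X p) k * (starRingEnd ℂ) (hatT p X k) = (p : ℂ) * X.card := by
  classical
  have h1 : ∀ k : ZMod p, hat (res X p) k * (starRingEnd ℂ) (hatT p X k) =
      ∑ x ∈ X, ∑ h ∈ res X p, (ZMod.stdAddChar (k * (h - (x : ZMod p))) : ℂ) := by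
    intro k
    unfold hat hatT
    rw [map_sum, Finset.sum_mul_sum, Finset.sum_comm]
    refine Finset.sum_congr rfl fun x _ => Finset.sum_congr rfl fun h _ => ?_
    rw [← AddChar.map_neg_eq_conj, ← AddChar.map_add_eq_mul]
    congr 1
    ring
  rw [Finset.sum_congr rfl fun k _ => h1 k, Finset.sum_comm]
  have h2 : ∀ x ∈ X, ∑ k : ZMod p, ∑ h ∈ res X p,
      (ZMod.stdAddChar (k * (h - (x : ZMod p))) : ℂ) = p := by
    intro x hx
    rw [Finset.sum_comm]
    rw [Finset.sum_congr rfl fun h _ => Pool.CSE.fouA_orth p (h - (x : ZMod p))]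
    have hmem : (x : ZMod p) ∈ res X p := fouE_mem_res p X x hx
    rw [Finset.sum_eq_single_of_mem (x : ZMod p) hmem]
    · simp
    · intro b _ hb
      rw [if_neg (sub_ne_zero.2 hb)]
  rw [Finset.sum_congr rfl h2]
  simp [mul_comm]

private theorem fouE_u_sq (p : ℕ) [Fact p.Prime] (X : Finset ℤ) (hX : X.Nonempty) :
    ∑ k : ZMod p, ‖fouE_u p X k‖ ^ 2 = 1 / dens X p := by
  have hr : (0 : ℝ) < (res X p).card := by exact_mod_cast fouE_res_card p X hX
  unfold fouE_u Pool.CSE.dens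
  simp only [norm_div, Complex.norm_natCast, div_pow]
  rw [← Finset.sum_div, Pool.CSE.parseval]
  field_simp

private theorem fouE_a_sq (p : ℕ) [Fact p.Prime] (X : Finset ℤ) :
    ∑ k : ZMod p, ‖fouE_a p X k‖ ^ 2 = Mv X p := by
  unfold fouE_a Mv
  simp only [norm_div, Complex.norm_natCast, div_pow]
  rw [← Finset.sum_div, Pool.CSE.hatT_sq]

private theorem fouE_e_sq (p : ℕ) [Fact p.Prime] (X : Finset ℤ) (hX : X.Nonempty) :
    ∑ k : ZMod p, ‖fouE_u p X k - fouE_a p X k‖ ^ 2 = yv X p := by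
  have hr : (0 : ℝ) < (res X p).card := by exact_mod_cast fouE_res_card p X hX
  have hn : (0 : ℝ) < X.card := by exact_mod_cast Finset.card_pos.2 hX
  have hp : (0 : ℝ) < p := by exact_mod_cast (Fact.out : p.Prime).pos
  have hc : ∑ k : ZMod p, (fouE_u p X k * (starRingEnd ℂ) (fouE_a p X k)).re =
      1 / dens X p := by
    have h1 : ∑ k : ZMod p, fouE_u p X k * (starRingEnd ℂ) (fouE_a p X k) =
        (((1 / dens X p : ℝ)) : ℂ) := by
      unfold fouE_u fouE_a
      have h2 : ∀ k : ZMod p, hat (res X p) k / ((res X p).card : ℂ) *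
          (starRingEnd ℂ) (hatT p X k / (X.card : ℂ)) =
          (hat (res X p) k * (starRingEnd ℂ) (hatT p X k)) / (((res X p).card : ℂ) * X.card) := by
        intro k
        rw [map_div₀, Complex.conj_natCast]
        exact div_mul_div_comm _ _ _ _
      rw [Finset.sum_congr rfl fun k _ => h2 k, ← Finset.sum_div, fouE_cross]
      have hr' : ((res X p).card : ℂ) ≠ 0 := by exact_mod_cast hr.ne'
      have hn' : (X.card : ℂ) ≠ 0 := by exact_mod_cast hn.ne'
      have hp' : (p : ℂ) ≠ 0 := by exact_mod_cast hp.ne'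
      unfold Pool.CSE.dens
      push_cast
      field_simp
    rw [← Complex.re_sum, h1, Complex.ofReal_re]
  have h3 : ∀ k : ZMod p, ‖fouE_u p X k - fouE_a p X k‖ ^ 2 =
      ‖fouE_u p X k‖ ^ 2 + ‖fouE_a p X k‖ ^ 2 -
        2 * (fouE_u p X k * (starRingEnd ℂ) (fouE_a p X k)).re := by
    intro k
    rw [← Complex.normSq_eq_norm_sq, ← Complex.normSq_eq_norm_sq, ← Complex.normSq_eq_norm_sq,
      Complex.normSq_sub]
  rw [Finset.sum_congr rfl fun k _ => h3 k, Finset.sum_sub_distrib, Finset.sum_add_distrib,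
    ← Finset.mul_sum, hc, fouE_u_sq p X hX, fouE_a_sq]
  unfold yv
  ring

theorem yv_nonneg (p : ℕ) [Fact p.Prime] (X : Finset ℤ) (hX : X.Nonempty) : 0 ≤ yv X p := by
  rw [← fouE_e_sq p X hX]
  exact Finset.sum_nonneg fun _ _ => sq_nonneg _

private theorem fouE_a_le (p : ℕ) [Fact p.Prime] (X : Finset ℤ) (hX : X.Nonempty) (η : ℝ)
    (hb : ¬ Bad η X p) (k : ZMod p) (hk : k ≠ 0) : ‖fouE_a p X k‖ ≤ η := by
  have hn : (0 : ℝ) < X.card := by exact_mod_cast Finset.card_pos.2 hX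
  have h := Pool.CSE.fouB_nonbad p X η hb (-k) (neg_ne_zero.2 hk)
  rw [neg_neg] at h
  unfold fouE_a
  rw [norm_div, Complex.norm_natCast, div_le_iff₀ hn]
  exact h

private theorem fouE_a_le_one (p : ℕ) [Fact p.Prime] (X : Finset ℤ) (hX : X.Nonempty)
    (k : ZMod p) : ‖fouE_a p X k‖ ≤ 1 := by
  have hn : (0 : ℝ) < X.card := by exact_mod_cast Finset.card_pos.2 hX
  unfold fouE_a
  rw [norm_div, Complex.norm_natCast, div_le_iff₀ hn, one_mul]
  unfold hatT
  refine (norm_sum_le _ _).trans ?_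
  have h1 : ∀ t ∈ X, ‖(ZMod.stdAddChar (k * (t : ZMod p)) : ℂ)‖ ≤ 1 := by
    intro t _
    exact (AddChar.norm_apply _ _).le
  refine (Finset.sum_le_sum h1).trans ?_
  simp

private theorem fouE_cs (p : ℕ) [Fact p.Prime] (f g : ZMod p → ℝ) (F H : ℝ)
    (hf : ∑ k : ZMod p, f k ^ 2 ≤ F) (hg : ∑ k : ZMod p, g k ^ 2 ≤ H) :
    ∑ k : ZMod p, f k * g k ≤ √(F * H) := by
  refine (Pool.CSE.fouB_cs univ f g).trans ?_
  rw [← Real.sqrt_mul (Finset.sum_nonneg fun _ _ => sq_nonneg _)]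
  apply Real.sqrt_le_sqrt
  exact mul_le_mul hf hg (Finset.sum_nonneg fun _ _ => sq_nonneg _)
    ((Finset.sum_nonneg fun _ _ => sq_nonneg _).trans hf)

private theorem fouE_csK (p : ℕ) [Fact p.Prime] (f g : ZMod p → ℝ) (K : ℝ)
    (hf : ∑ k : ZMod p, f k ^ 2 ≤ K) (hg : ∑ k : ZMod p, g k ^ 2 ≤ K) :
    ∑ k : ZMod p, f k * g k ≤ K := by
  have hK : 0 ≤ K := (Finset.sum_nonneg fun _ _ => sq_nonneg _).trans hf
  refine (fouE_cs p f g K K hf hg).trans (le_of_eq ?_)
  exact Real.sqrt_mul_self hK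

private theorem fouE_sv (p : ℕ) [Fact p.Prime] (l m : ℤ) (X Y T : Finset ℤ) (hX : X.Nonempty)
    (hY : Y.Nonempty) (hT : T.Nonempty) :
    ((sv l m X Y T p : ℝ) : ℂ) = ((dens X p * dens Y p : ℝ) : ℂ) *
      ∑ k : ZMod p, fouE_u p X (k * l) * fouE_u p Y (k * m) * fouE_a p T (-k) := by
  have hrX : ((res X p).card : ℂ) ≠ 0 := by exact_mod_cast (fouE_res_card p X hX).ne'
  have hrY : ((res Y p).card : ℂ) ≠ 0 := by exact_mod_cast (fouE_res_card p Y hY).ne'
  have hT0 : (T.card : ℂ) ≠ 0 := by exact_mod_cast (Finset.card_pos.2 hT).ne'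
  have hp : (p : ℂ) ≠ 0 := by exact_mod_cast (Fact.out : p.Prime).ne_zero
  have h := Pool.CSE.sum_G p l m (res X p) (res Y p) T
  have h1 : ∑ k : ZMod p, fouE_u p X (k * l) * fouE_u p Y (k * m) * fouE_a p T (-k) =
      (∑ k : ZMod p, hat (res X p) (k * l) * hat (res Y p) (k * m) * hatT p T (-k)) /
        (((res X p).card : ℂ) * (res Y p).card * T.card) := by
    rw [Finset.sum_div]
    refine Finset.sum_congr rfl fun k _ => ?_
    unfold fouE_u fouE_a
    field_simp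
  have h2 : ((sv l m X Y T p : ℝ) : ℂ) =
      ((∑ t ∈ T, (G p l m (res X p) (res Y p) (t : ZMod p) : ℝ) : ℝ) : ℂ) /
        ((p : ℂ) * T.card) := by
    unfold sv
    push_cast
    rfl
  rw [h2, h, h1]
  unfold Pool.CSE.dens
  push_cast
  generalize (∑ k : ZMod p, hat (res X p) (k * l) * hat (res Y p) (k * m) * hatT p T (-k)) = S
  field_simp

theorem G_unb (p : ℕ) [Fact p.Prime] (l m : ℤ) (hl : (l : ZMod p) ≠ 0) (hm : (m : ZMod p) ≠ 0)
    (X Y T : Finset ℤ) (hX : X.Nonempty) (hY : Y.Nonempty) (hT : T.Nonempty) (η K : ℝ)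
    (hη : 0 ≤ η) (hbX : ¬ Bad η X p) (hbY : ¬ Bad η Y p) (hMT : Mv T p ≤ K) (hMX : Mv X p ≤ K)
    (hMY : Mv Y p ≤ K) :
    sv l m X Y T p ≤ dens X p * dens Y p * (1 + √(yv X p * yv Y p) + 3 * η * K) := by
  have hdX : 0 < dens X p := by
    unfold Pool.CSE.dens
    have := fouE_res_card p X hX
    have hp : (0 : ℝ) < p := by exact_mod_cast (Fact.out : p.Prime).pos
    positivity
  have hdY : 0 < dens Y p := by
    unfold Pool.CSE.dens
    have := fouE_res_card p Y hY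
    have hp : (0 : ℝ) < p := by exact_mod_cast (Fact.out : p.Prime).pos
    positivity
  have hyX : yv X p ≤ K := by
    refine le_trans ?_ hMX
    unfold yv
    have : 0 < 1 / dens X p := by positivity
    linarith
  have hyY : yv Y p ≤ K := by
    refine le_trans ?_ hMY
    unfold yv
    have : 0 < 1 / dens Y p := by positivity
    linarith
  have hsv := fouE_sv p l m X Y T hX hY hT
  -- the norm of the sum
  have hD : 0 ≤ dens X p * dens Y p := by positivity
  have h0 : sv l m X Y T p ≤ dens X p * dens Y p *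
      ‖∑ k : ZMod p, fouE_u p X (k * l) * fouE_u p Y (k * m) * fouE_a p T (-k)‖ := by
    have h1 : ‖((sv l m X Y T p : ℝ) : ℂ)‖ = dens X p * dens Y p *
        ‖∑ k : ZMod p, fouE_u p X (k * l) * fouE_u p Y (k * m) * fouE_a p T (-k)‖ := by
      rw [hsv, norm_mul, Complex.norm_real, Real.norm_of_nonneg hD]
    rw [← h1, Complex.norm_real]
    exact le_abs_self _
  refine h0.trans (mul_le_mul_of_nonneg_left ?_ hD)
  -- the pieces
  set aX : ZMod p → ℝ := fun k => ‖fouE_a p X k‖ with haX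
  set aY : ZMod p → ℝ := fun k => ‖fouE_a p Y k‖ with haY
  set aT : ZMod p → ℝ := fun k => ‖fouE_a p T k‖ with haT
  set eX : ZMod p → ℝ := fun k => ‖fouE_u p X k - fouE_a p X k‖ with heX
  set eY : ZMod p → ℝ := fun k => ‖fouE_u p Y k - fouE_a p Y k‖ with heY
  have hsT : ∑ k : ZMod p, aT (-k) ^ 2 ≤ K := by
    have h2 : ∑ k : ZMod p, aT (-k) ^ 2 = ∑ k : ZMod p, aT k ^ 2 :=
      Fintype.sum_equiv (Equiv.neg (ZMod p)) _ _ (fun _ => rfl)
    rw [h2]
    exact (fouE_a_sq p T).le.trans hMT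
  have hsY : ∑ k : ZMod p, aY (k * m) ^ 2 ≤ K := by
    rw [Pool.CSE.fouB_shift p m hm (fun k => aY k ^ 2)]
    exact (fouE_a_sq p Y).le.trans hMY
  have hseY : ∑ k : ZMod p, eY (k * m) ^ 2 = yv Y p := by
    rw [Pool.CSE.fouB_shift p m hm (fun k => eY k ^ 2)]
    exact fouE_e_sq p Y hY
  have hseX : ∑ k : ZMod p, eX (k * l) ^ 2 = yv X p := by
    rw [Pool.CSE.fouB_shift p l hl (fun k => eX k ^ 2)]
    exact fouE_e_sq p X hX
  have c1 : ∑ k : ZMod p, aT (-k) * aY (k * m) ≤ K :=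
    fouE_csK p (fun k => aT (-k)) (fun k => aY (k * m)) K hsT hsY
  have c2 : ∑ k : ZMod p, aT (-k) * eY (k * m) ≤ K :=
    fouE_csK p (fun k => aT (-k)) (fun k => eY (k * m)) K hsT (hseY.le.trans hyY)
  have c3 : ∑ k : ZMod p, aT (-k) * eX (k * l) ≤ K :=
    fouE_csK p (fun k => aT (-k)) (fun k => eX (k * l)) K hsT (hseX.le.trans hyX)
  have c4 : ∑ k : ZMod p, eX (k * l) * eY (k * m) ≤ √(yv X p * yv Y p) :=
    fouE_cs p (fun k => eX (k * l)) (fun k => eY (k * m)) _ _ hseX.le hseY.le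
  -- the term `k = 0`
  have hz := Finset.add_sum_erase univ
    (fun k : ZMod p => fouE_u p X (k * l) * fouE_u p Y (k * m) * fouE_a p T (-k))
    (Finset.mem_univ 0)
  rw [← hz]
  refine (norm_add_le _ _).trans ?_
  have hz1 : ‖fouE_u p X (0 * (l : ZMod p)) * fouE_u p Y (0 * (m : ZMod p)) *
      fouE_a p T (-0)‖ = 1 := by
    have hrX : ((res X p).card : ℂ) ≠ 0 := by exact_mod_cast (fouE_res_card p X hX).ne'
    have hrY : ((res Y p).card : ℂ) ≠ 0 := by exact_mod_cast (fouE_res_card p Y hY).ne'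
    have hT0 : (T.card : ℂ) ≠ 0 := by exact_mod_cast (Finset.card_pos.2 hT).ne'
    unfold fouE_u fouE_a
    rw [zero_mul, zero_mul, neg_zero, Pool.CSE.fouA_hat_zero, Pool.CSE.fouA_hat_zero,
      Pool.CSE.fouB_hatT_zero, div_self hrX, div_self hrY, div_self hT0]
    simp
  rw [hz1]
  have hrest : ‖∑ k ∈ univ.erase (0 : ZMod p),
      fouE_u p X (k * l) * fouE_u p Y (k * m) * fouE_a p T (-k)‖ ≤
      ∑ k : ZMod p, (η * (aT (-k) * aY (k * m)) + η * (aT (-k) * eY (k * m)) +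
        η * (aT (-k) * eX (k * l)) + eX (k * l) * eY (k * m)) := by
    refine (norm_sum_le _ _).trans ?_
    have hpos : ∀ k : ZMod p, 0 ≤ η * (aT (-k) * aY (k * m)) + η * (aT (-k) * eY (k * m)) +
        η * (aT (-k) * eX (k * l)) + eX (k * l) * eY (k * m) := by
      intro k
      simp only [haT, haY, heY, heX]
      positivity
    refine (Finset.sum_le_sum (g := fun k : ZMod p => η * (aT (-k) * aY (k * m)) +
      η * (aT (-k) * eY (k * m)) + η * (aT (-k) * eX (k * l)) + eX (k * l) * eY (k * m))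
      fun k hk => ?_).trans
      (Finset.sum_le_sum_of_subset_of_nonneg (Finset.subset_univ _) fun k _ _ => hpos k)
    have hk0 : k ≠ 0 := Finset.ne_of_mem_erase hk
    have hkl : k * (l : ZMod p) ≠ 0 := mul_ne_zero hk0 hl
    have hkm : k * (m : ZMod p) ≠ 0 := mul_ne_zero hk0 hm
    have hX1 : aX (k * l) ≤ η := fouE_a_le p X hX η hbX _ hkl
    have hY1 : aY (k * m) ≤ η := fouE_a_le p Y hY η hbY _ hkm
    have hT1 : aT (-k) ≤ 1 := fouE_a_le_one p T hT _
    have hT0 : 0 ≤ aT (-k) := norm_nonneg _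
    have hX0 : 0 ≤ aX (k * l) := norm_nonneg _
    have hY0 : 0 ≤ aY (k * m) := norm_nonneg _
    have heX0 : 0 ≤ eX (k * l) := norm_nonneg _
    have heY0 : 0 ≤ eY (k * m) := norm_nonneg _
    have huX : ‖fouE_u p X (k * l)‖ ≤ aX (k * l) + eX (k * l) := by
      have h5 : fouE_u p X (k * l) = fouE_a p X (k * l) +
          (fouE_u p X (k * l) - fouE_a p X (k * l)) := by ring
      conv_lhs => rw [h5]
      exact norm_add_le _ _
    have huY : ‖fouE_u p Y (k * m)‖ ≤ aY (k * m) + eY (k * m) := by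
      have h5 : fouE_u p Y (k * m) = fouE_a p Y (k * m) +
          (fouE_u p Y (k * m) - fouE_a p Y (k * m)) := by ring
      conv_lhs => rw [h5]
      exact norm_add_le _ _
    rw [norm_mul, norm_mul]
    have h6 : ‖fouE_u p X (k * l)‖ * ‖fouE_u p Y (k * m)‖ * ‖fouE_a p T (-k)‖ ≤
        (aX (k * l) + eX (k * l)) * (aY (k * m) + eY (k * m)) * aT (-k) := by
      refine mul_le_mul_of_nonneg_right ?_ hT0
      exact mul_le_mul huX huY (norm_nonneg _) (by positivity)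
    refine h6.trans ?_
    have e1 : aX (k * l) * (aT (-k) * aY (k * m)) ≤ η * (aT (-k) * aY (k * m)) :=
      mul_le_mul_of_nonneg_right hX1 (by positivity)
    have e2 : aX (k * l) * (aT (-k) * eY (k * m)) ≤ η * (aT (-k) * eY (k * m)) :=
      mul_le_mul_of_nonneg_right hX1 (by positivity)
    have e3 : aY (k * m) * (aT (-k) * eX (k * l)) ≤ η * (aT (-k) * eX (k * l)) :=
      mul_le_mul_of_nonneg_right hY1 (by positivity)
    have e4 : (eX (k * l) * eY (k * m)) * aT (-k) ≤ (eX (k * l) * eY (k * m)) * 1 :=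
      mul_le_mul_of_nonneg_left hT1 (by positivity)
    nlinarith [e1, e2, e3, e4]
  have hsum : ∑ k : ZMod p, (η * (aT (-k) * aY (k * m)) + η * (aT (-k) * eY (k * m)) +
        η * (aT (-k) * eX (k * l)) + eX (k * l) * eY (k * m)) ≤
      √(yv X p * yv Y p) + 3 * η * K := by
    rw [Finset.sum_add_distrib, Finset.sum_add_distrib, Finset.sum_add_distrib,
      ← Finset.mul_sum, ← Finset.mul_sum, ← Finset.mul_sum]
    have d1 := mul_le_mul_of_nonneg_left c1 hη
    have d2 := mul_le_mul_of_nonneg_left c2 hη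
    have d3 := mul_le_mul_of_nonneg_left c3 hη
    linarith
  linarith [hrest.trans hsum]

end Pool.CSU
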