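import Pool.Agent.Lib.CSU.FouD
import Pool.Agent.Lib.CSU.FouE

/-!
# CSU, module Skel: the local data of a configuration

Adapt `CSE/Skel.lean`. Everything for `N` so large that `N^ε > max |l| |m| 2 p₀ p₁` (`p₁` from
`G_max`), so every `p ∈ prI N ε b` is odd, does not divide `l m`, is `≥ p₀, p₁`. Put
`λ = p/(p+1) < 1`: `dn X p = λ dens X p`, `sn = λ² sv`.
`dA`: `loc` divided by `p + 1`. `yA`: `yv_nonneg`; `Mv = 1/dens + yv ≤ 1/dn + yv`.
`s0`: `sv > 0` (`G_pos`); `sv ≤ dens X` (`G_le_X`), so `sn ≤ λ² dens X ≤ dn X`; same for `Y`;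
`one_le_Mv`. `sC`: `G_nonbad`: `sv ≤ dens X dens Y + η`, times `λ² ≤ 1`.
`sU`: `G_max` divided by `p |T|`: `sv ≤ dens X dens Y + √(c β(1-β)(M-1))`, `β = dens Y`; times `λ²`:
`λ² √(c β(1-β)(M-1)) = √(c λ⁴ β(1-β)(M-1))` and `λ⁴ β (1-β) ≤ λβ (1 - λβ)`
(`λ³ (1-β) ≤ 1-β ≤ 1-λβ`). (`0 ≤ β ≤ 1`.)
`sA`: `G_unb` times `λ²`: `dn X dn Y (1 + √(yy) + 3ηK) ≤ dn X dn Y (1 + √(yy)) + 3ηK`.
`S1`: `rep_sieve` with `P = prI N ε ρ`, `D = N`, `R = N^ρ` gives `∑ wt/sv ≤ L + 2`; `1/sn =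
(1+1/p)² / sv ≤ (1 + 3/p)/sv ≤ (1 + 3 N^(-ε))/sv`, and `3 N^(-ε)(L + 2) ≤ 1` for large `N`.
`SA`: `col_sieve` with `T = A`, `P = prI N ε θ`, `D = N`: `∑ wt Mv A ≤ L + 2`
(`(∑ log p)/|A| ≤ 2`, `cheb_prI`); `1/dn + yv = Mv + (1/dn - 1/dens)`, and
`1/dn - 1/dens = 1/|A_p|`, `∑ wt/|A_p| ≤ N^(-ε) ∑ log p/|A_p| ≤ N^(-ε)(L + 2) ≤ 1` (`res_sieve`).
`SM`: `col_sieve` for `T` with `P = prI N 0 τ`, `D = 2(|l|+|m|)N`: `∑_P wt Mv ≤ L + C`
(`(∑ log p)/|T| ≤ 2`); subtract `mer 0 τ`: `∑_P wt (Mv - 1) ≤ (1 - τ) L + C`; all terms `≥ 0`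
(`one_le_Mv`) and `prI N ε (min ρ τ) ⊆ prI N 0 τ`.
-/

set_option autoImplicit false

open Finset Filter

namespace Pool.CSU

open Pool.Agent.Lib.MP_4b09b1_nt (res pairs)
open Pool.CSE (G rep Bad prI wt dens sv Mv val pop)

/-- a prime larger than `|l|` does not divide `l ≠ 0` -/
private lemma skel_ne (l : ℤ) (hl : l ≠ 0) (p : ℕ) (h : |(l : ℝ)| < p) : (l : ZMod p) ≠ 0 := by
  intro h0
  rw [ZMod.intCast_zmod_eq_zero_iff_dvd] at h0
  have h1 := Int.le_of_dvd (abs_pos.mpr hl) ((dvd_abs _ _).mpr h0)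
  have h2 : (p : ℝ) ≤ |(l : ℝ)| := by exact_mod_cast h1
  linarith

private lemma skel_res_nonempty {X : Finset ℤ} (hX : X.Nonempty) (p : ℕ) :
    0 < ((res X p).card : ℝ) := by
  classical
  obtain ⟨x, hx⟩ := hX
  have h1 : ∀ c : ZMod p, c ∈ res X p ↔ ∃ x ∈ X, (x : ZMod p) = c := by
    intro c
    unfold res
    simp [Finset.bind_def]
  have h : (x : ZMod p) ∈ res X p := (h1 _).2 ⟨x, hx, rfl⟩
  exact_mod_cast Finset.card_pos.2 ⟨_, h⟩

private lemma skel_card_le (p : ℕ) [Fact p.Prime] (X : Finset (ZMod p)) : (X.card : ℝ) ≤ p := by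
  have h := X.card_le_univ
  rw [ZMod.card] at h
  exact_mod_cast h

private lemma skel_diff {N : ℕ} {X : Finset ℤ} (h : ∀ x ∈ X, 1 ≤ x ∧ x ≤ (N : ℤ)) :
    ∀ x ∈ X, ∀ x' ∈ X, |(x : ℝ) - x'| ≤ N := by
  intro x hx x' hx'
  have h1 := h x hx
  have h2 := h x' hx'
  have h3 : |x - x'| ≤ (N : ℤ) := by
    rw [abs_le]
    constructor <;> omega
  exact_mod_cast h3

/-- the factor `p / (p + 1)` -/
private lemma skel_lam {p : ℕ} (hp : (0 : ℝ) < p) :
    0 < (p : ℝ) / (p + 1) ∧ (p : ℝ) / (p + 1) ≤ 1 := by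
  refine ⟨by positivity, ?_⟩
  rw [div_le_one (by positivity)]
  linarith

private lemma skel_dn (X : Finset ℤ) {p : ℕ} (hp : (0 : ℝ) < p) :
    dn X p = (p : ℝ) / (p + 1) * dens X p := by
  unfold dn Pool.CSE.dens
  field_simp

/-- the inequality of the Fourier bound after the normalisation -/
private lemma skel_sU (lam b M : ℝ) (h0 : 0 ≤ lam) (h1 : lam ≤ 1) (hb0 : 0 ≤ b) (hb1 : b ≤ 1)
    (hM : 0 ≤ M) :
    √(507 / 5000 * (b * (1 - b)) * M) * lam ^ 2 ≤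
      √(507 / 5000 * ((lam * b) * (1 - lam * b)) * M) := by
  have h2 : (0 : ℝ) ≤ lam ^ 2 := sq_nonneg _
  have h3 : √(507 / 5000 * (b * (1 - b)) * M) * lam ^ 2 =
      √(507 / 5000 * (b * (1 - b)) * M * (lam ^ 2) ^ 2) := by
    have h30 : 0 ≤ 507 / 5000 * (b * (1 - b)) * M := by
      have : 0 ≤ b * (1 - b) := mul_nonneg hb0 (by linarith)
      positivity
    rw [Real.sqrt_mul (x := 507 / 5000 * (b * (1 - b)) * M) h30, Real.sqrt_sq h2]
  rw [h3]
  apply Real.sqrt_le_sqrt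
  have h4 : lam ^ 3 * (1 - b) ≤ 1 - lam * b := by
    have h5 : lam ^ 3 ≤ 1 := pow_le_one₀ h0 h1
    have h6 : lam ^ 3 * (1 - b) ≤ 1 * (1 - b) := mul_le_mul_of_nonneg_right h5 (by linarith)
    have h7 : lam * b ≤ 1 * b := mul_le_mul_of_nonneg_right h1 hb0
    linarith
  have h8 : (lam * b) * (lam ^ 3 * (1 - b)) ≤ (lam * b) * (1 - lam * b) :=
    mul_le_mul_of_nonneg_left h4 (mul_nonneg h0 hb0)
  have h9 : 507 / 5000 * (b * (1 - b)) * M * (lam ^ 2) ^ 2 =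
      (507 / 5000 * M) * ((lam * b) * (lam ^ 3 * (1 - b))) := by ring
  have h10 : 507 / 5000 * ((lam * b) * (1 - lam * b)) * M =
      (507 / 5000 * M) * ((lam * b) * (1 - lam * b)) := by ring
  rw [h9, h10]
  exact mul_le_mul_of_nonneg_left h8 (by positivity)

/-- the sieve sum of one set -/
private lemma skel_SA {N : ℕ} (hN : 2 ≤ N) (ε θ : ℝ) (hNε : 0 < (N : ℝ) ^ ε)
    (hlog : Real.log N + 2 ≤ (N : ℝ) ^ ε) (A : Finset ℤ)
    (hA : ∀ a ∈ A, 1 ≤ a ∧ a ≤ (N : ℤ)) (cA : (N : ℝ) ^ θ ≤ A.card) :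
    ∑ p ∈ prI N ε θ, wt p * (1 / dn A p + yv A p) ≤ Real.log N + 3 := by
  have hN0 : (0 : ℝ) < N := by exact_mod_cast (by omega : 0 < N)
  have hN1 : (1 : ℝ) ≤ N := by exact_mod_cast (by omega : 1 ≤ N)
  have hx : (0 : ℝ) < (N : ℝ) ^ θ := Real.rpow_pos_of_pos hN0 _
  have hc : (0 : ℝ) < A.card := lt_of_lt_of_le hx cA
  have hne : A.Nonempty := by
    rw [← Finset.card_pos]
    exact_mod_cast hc
  have hpr : ∀ p ∈ prI N ε θ, p.Prime := fun p hp => (Pool.CSE.mem_prI.1 hp).2.1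
  have h1 : (∑ p ∈ prI N ε θ, Real.log p) / A.card ≤ 2 := by
    rw [div_le_iff₀ hc]
    have h2 := Pool.CSE.cheb_prI N hN ε θ
    linarith
  have h := Pool.CSE.col_sieve A hne (prI N ε θ) hpr N hN1 (skel_diff hA)
  have h' := Pool.CSE.res_sieve A hne (prI N ε θ) hpr N hN1 (skel_diff hA)
  have h3 : ∀ p ∈ prI N ε θ, wt p * (1 / dn A p + yv A p) ≤
      wt p * Mv A p + (1 / (N : ℝ) ^ ε) * (Real.log p / (res A p).card) := by
    intro p hp
    have hp0 : (0 : ℝ) < p := by exact_mod_cast (hpr p hp).pos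
    have hr := skel_res_nonempty hne p
    have h4 : 1 / dn A p + yv A p = Mv A p + 1 / (res A p).card := by
      unfold yv dn Pool.CSE.dens
      field_simp
      ring
    rw [h4, mul_add]
    have h5 : wt p * (1 / ((res A p).card : ℝ)) = (1 / p) * (Real.log p / (res A p).card) := by
      unfold wt
      field_simp
    rw [h5]
    have h6 : (1 : ℝ) / p ≤ 1 / (N : ℝ) ^ ε :=
      one_div_le_one_div_of_le hNε (Pool.CSE.mem_prI.1 hp).2.2.1.le
    have h7 : 0 ≤ Real.log p / ((res A p).card : ℝ) :=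
      div_nonneg (Real.log_natCast_nonneg p) hr.le
    have h8 := mul_le_mul_of_nonneg_right h6 h7
    linarith
  refine (Finset.sum_le_sum h3).trans ?_
  rw [Finset.sum_add_distrib, ← Finset.mul_sum]
  have h9 : (1 / (N : ℝ) ^ ε) * ∑ p ∈ prI N ε θ, Real.log p / ((res A p).card : ℝ) ≤ 1 := by
    rw [one_div_mul_eq_div, div_le_one hNε]
    linarith
  linarith

theorem skel (p₀ : ℕ) (l m : ℤ) (hl : l ≠ 0) (hm : m ≠ 0) (ρ τ ε η K : ℝ) (hρ : 1 / 4 ≤ ρ)
    (hρ1 : ρ ≤ 4899 / 10000) (hτ : 0 ≤ τ) (hτ1 : τ ≤ 1) (hε : 0 < ε) (hε1 : ε ≤ 1 / 100)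
    (hη : 0 < η) (hη1 : η ≤ 1) (hK : 1 ≤ K) :
    ∃ C : ℝ, ∀ᶠ N : ℕ in atTop, ∀ A B X Y T : Finset ℤ, Conf p₀ N l m ρ τ A B X Y T →
      Sk N l m ρ τ ε η K C A B X Y T := by
  obtain ⟨p₁, hGm⟩ := G_max
  obtain ⟨Cm, hCm, hmer⟩ := Pool.CSE.mer 0 τ le_rfl hτ1
  have hl1 : (1 : ℝ) ≤ |(l : ℝ)| := by exact_mod_cast Int.one_le_abs hl
  have hm1 : (1 : ℝ) ≤ |(m : ℝ)| := by exact_mod_cast Int.one_le_abs hm
  have hK2 : 0 ≤ Real.log (2 * (|(l : ℝ)| + |(m : ℝ)|)) := Real.log_nonneg (by linarith)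
  refine ⟨3 + Real.log (2 * (|(l : ℝ)| + |(m : ℝ)|)) + Cm, ?_⟩
  have hev : ∀ᶠ N : ℕ in atTop, |(l : ℝ)| + |(m : ℝ)| + 2 + p₀ + p₁ ≤ (N : ℝ) ^ ε :=
    ((tendsto_rpow_atTop hε).comp tendsto_natCast_atTop_atTop).eventually_ge_atTop _
  have hev2 : ∀ᶠ N : ℕ in atTop, 3 * (Real.log N + 2) ≤ (N : ℝ) ^ ε := by
    have h1 := ((isLittleO_log_rpow_atTop hε).comp_tendsto
      tendsto_natCast_atTop_atTop).bound (show (0 : ℝ) < 1 / 6 by norm_num)
    have h2 : ∀ᶠ N : ℕ in atTop, (12 : ℝ) ≤ (N : ℝ) ^ ε :=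
      ((tendsto_rpow_atTop hε).comp tendsto_natCast_atTop_atTop).eventually_ge_atTop _
    filter_upwards [h1, h2, eventually_ge_atTop 1] with N h3 h4 h5
    have h6 : (1 : ℝ) ≤ N := by exact_mod_cast h5
    simp only [Function.comp_apply] at h3
    rw [Real.norm_of_nonneg (Real.log_nonneg h6),
      Real.norm_of_nonneg (Real.rpow_nonneg (by linarith) ε)] at h3
    linarith
  filter_upwards [eventually_ge_atTop 2, hev, hev2] with N hN hNε hNl A B X Y T hF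
  have hN0 : (0 : ℝ) < N := by exact_mod_cast (by omega : 0 < N)
  have hN1 : (1 : ℝ) ≤ N := by exact_mod_cast (by omega : 1 ≤ N)
  have hlN : 0 ≤ Real.log N := Real.log_nonneg hN1
  have hNε0 : (0 : ℝ) < (N : ℝ) ^ ε := Real.rpow_pos_of_pos hN0 _
  have hx : (0 : ℝ) < (N : ℝ) ^ (4899 / 10000 : ℝ) := Real.rpow_pos_of_pos hN0 _
  have hρN : (0 : ℝ) < (N : ℝ) ^ ρ := Real.rpow_pos_of_pos hN0 _
  have hAc : (0 : ℝ) < A.card := lt_of_lt_of_le hx hF.pair.cA
  have hBc : (0 : ℝ) < B.card := lt_of_lt_of_le hx hF.pair.cB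
  have hTc : (0 : ℝ) < T.card := lt_of_lt_of_le (Real.rpow_pos_of_pos hN0 _) hF.cT
  have hAne : A.Nonempty := by
    rw [← Finset.card_pos]; exact_mod_cast hAc
  have hBne : B.Nonempty := by
    rw [← Finset.card_pos]; exact_mod_cast hBc
  have hTne : T.Nonempty := by
    rw [← Finset.card_pos]; exact_mod_cast hTc
  have hXN : ∀ x ∈ X, 1 ≤ x ∧ x ≤ (N : ℤ) := by
    rcases hF.hX with h | h <;> rw [h]
    · exact hF.pair.hA
    · exact hF.pair.hB
  have hXne : X.Nonempty := by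
    rcases hF.hX with h | h <;> rw [h]
    · exact hAne
    · exact hBne
  have hYne : Y.Nonempty := by
    rcases hF.hY with h | h <;> rw [h]
    · exact hAne
    · exact hBne
  -- the primes
  have hpr : ∀ b : ℝ, ∀ p ∈ prI N ε b, p.Prime ∧ p₀ ≤ p ∧ p₁ ≤ p ∧ (0 : ℝ) < p ∧
      (l : ZMod p) ≠ 0 ∧ (m : ZMod p) ≠ 0 := by
    intro b p hp
    have h := Pool.CSE.mem_prI.1 hp
    have h3 : |(l : ℝ)| + |(m : ℝ)| + 2 + p₀ + p₁ < p := lt_of_le_of_lt hNε h.2.2.1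
    have h4 : (0 : ℝ) ≤ p₀ := Nat.cast_nonneg _
    have h5 : (0 : ℝ) ≤ p₁ := Nat.cast_nonneg _
    have h6 : (p₀ : ℝ) ≤ p := by linarith
    have h7 : (p₁ : ℝ) ≤ p := by linarith
    exact ⟨h.2.1, by exact_mod_cast h6, by exact_mod_cast h7, by exact_mod_cast h.2.1.pos,
      skel_ne l hl p (by linarith), skel_ne m hm p (by linarith)⟩
  -- positivity of the sum of `G`
  have hG0 : ∀ p : ℕ, 0 < ∑ t ∈ T, (G p l m (res X p) (res Y p) (t : ZMod p) : ℝ) := by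
    intro p
    apply Finset.sum_pos _ hTne
    intro t ht
    have h1 : (0 : ℝ) < rep l m X Y t := lt_of_lt_of_le hρN (hF.rT t ht)
    have h2 : 0 < rep l m X Y t := by exact_mod_cast h1
    exact_mod_cast Pool.CSE.G_pos p l m X Y t h2
  have hMv : ∀ p : ℕ, p.Prime → 1 ≤ Mv T p := by
    intro p hp
    have : Fact p.Prime := ⟨hp⟩
    exact Pool.CSE.one_le_Mv p T hTne
  have hdens : ∀ Z : Finset ℤ, ∀ p : ℕ, p.Prime → 0 ≤ dens Z p ∧ dens Z p ≤ 1 := by
    intro Z p hp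
    have : Fact p.Prime := ⟨hp⟩
    have hp0 : (0 : ℝ) < p := by exact_mod_cast hp.pos
    unfold Pool.CSE.dens
    exact ⟨by positivity, (div_le_one hp0).2 (skel_card_le p (res Z p))⟩
  have hsv0 : ∀ p : ℕ, p.Prime → 0 < sv l m X Y T p := by
    intro p hp
    have hp0 : (0 : ℝ) < p := by exact_mod_cast hp.pos
    exact div_pos (hG0 p) (mul_pos hp0 hTc)
  have hmul2 : ∀ p : ℕ, (0 : ℝ) < p → dn X p * dn Y p =
      dens X p * dens Y p * ((p : ℝ) / (p + 1)) ^ 2 := by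
    intro p hp
    rw [skel_dn X hp, skel_dn Y hp]
    ring
  refine ⟨?_, ?_, ?_, ?_, ?_, ?_, ?_, ?_, ?_, ?_⟩
  · -- dA
    intro p hp
    obtain ⟨hpp, hp0', _, hp0, _, _⟩ := hpr _ p hp
    have h1 := hF.pair.loc p hpp hp0' (Pool.CSE.mem_prI.1 hp).2.2.2
    have hp1 : (0 : ℝ) < (p : ℝ) + 1 := by linarith
    refine ⟨div_pos (skel_res_nonempty hAne p) hp1, div_pos (skel_res_nonempty hBne p) hp1, ?_⟩
    unfold dn
    rw [← add_div, div_le_one hp1]
    exact_mod_cast h1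
  · -- yA
    intro p hp
    obtain ⟨hpp, _, _, hp0, _, _⟩ := hpr _ p hp
    have : Fact p.Prime := ⟨hpp⟩
    have key : ∀ Z : Finset ℤ, Z.Nonempty → 0 ≤ yv Z p ∧ Mv Z p ≤ 1 / dn Z p + yv Z p := by
      intro Z hZ
      refine ⟨yv_nonneg p Z hZ, ?_⟩
      have hr := skel_res_nonempty hZ p
      have h1 : 1 / dens Z p ≤ 1 / dn Z p := by
        apply one_div_le_one_div_of_le
        · unfold dn
          positivity
        · rw [skel_dn Z hp0]
          have h2 := mul_le_mul_of_nonneg_right (skel_lam hp0).2 (hdens Z p hpp).1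
          linarith
      unfold yv
      linarith
    exact ⟨(key A hAne).1, (key A hAne).2, (key B hBne).1, (key B hBne).2⟩
  · -- s0
    intro p hp
    obtain ⟨hpp, _, _, hp0, hlp, hmp⟩ := hpr _ p hp
    have : Fact p.Prime := ⟨hpp⟩
    obtain ⟨hlam0, hlam1⟩ := skel_lam hp0
    have hden : (0 : ℝ) < p * T.card := mul_pos hp0 hTc
    have hsv := hsv0 p hpp
    have hle : ∀ Z : Finset ℤ, sv l m X Y T p ≤ dens Z p → sn l m X Y T p ≤ dn Z p := by
      intro Z hZ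
      rw [skel_dn Z hp0]
      unfold sn
      have h0 := (hdens Z p hpp).1
      have h1 : sv l m X Y T p * ((p : ℝ) / (p + 1)) ^ 2 ≤ dens Z p * ((p : ℝ) / (p + 1)) ^ 2 :=
        mul_le_mul_of_nonneg_right hZ (sq_nonneg _)
      have h2 : ((p : ℝ) / (p + 1)) ^ 2 ≤ (p : ℝ) / (p + 1) := by
        rw [sq]
        have := mul_le_mul_of_nonneg_left hlam1 hlam0.le
        linarith
      have h3 := mul_le_mul_of_nonneg_left h2 h0
      linarith
    refine ⟨mul_pos hsv (by positivity), hle X ?_, hle Y ?_, hMv p hpp⟩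
    · unfold sv Pool.CSE.dens
      rw [div_le_div_iff₀ hden hp0]
      have h1 : ∑ t ∈ T, (G p l m (res X p) (res Y p) (t : ZMod p) : ℝ) ≤
          T.card * (res X p).card := by
        have h2 : ∑ t ∈ T, (G p l m (res X p) (res Y p) (t : ZMod p) : ℝ) ≤
            ∑ _t ∈ T, ((res X p).card : ℝ) := by
          apply Finset.sum_le_sum
          intro t _
          exact_mod_cast Pool.CSE.G_le_X p l m hmp (res X p) (res Y p) (t : ZMod p)
        rwa [Finset.sum_const, nsmul_eq_mul] at h2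
      nlinarith
    · unfold sv Pool.CSE.dens
      rw [div_le_div_iff₀ hden hp0]
      have h1 : ∑ t ∈ T, (G p l m (res X p) (res Y p) (t : ZMod p) : ℝ) ≤
          T.card * (res Y p).card := by
        have h2 : ∑ t ∈ T, (G p l m (res X p) (res Y p) (t : ZMod p) : ℝ) ≤
            ∑ _t ∈ T, ((res Y p).card : ℝ) := by
          apply Finset.sum_le_sum
          intro t _
          exact_mod_cast Pool.CSE.G_le_Y p l m hlp (res X p) (res Y p) (t : ZMod p)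
        rwa [Finset.sum_const, nsmul_eq_mul] at h2
      nlinarith
  · -- sC
    intro p hp hbad
    obtain ⟨hpp, _, _, hp0, hlp, hmp⟩ := hpr _ p hp
    have : Fact p.Prime := ⟨hpp⟩
    obtain ⟨hlam0, hlam1⟩ := skel_lam hp0
    have hden : (0 : ℝ) < p * T.card := mul_pos hp0 hTc
    have h1 := Pool.CSE.G_nonbad p l m hlp hmp (res X p) (res Y p) T η hη.le hbad
    have h2 : √((res X p).card * (res Y p).card : ℝ) ≤ p := by
      rw [Real.sqrt_le_left hp0.le]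
      have hx1 := skel_card_le p (res X p)
      have hy1 := skel_card_le p (res Y p)
      have hx0 : (0 : ℝ) ≤ (res X p).card := Nat.cast_nonneg _
      have hy0 : (0 : ℝ) ≤ (res Y p).card := Nat.cast_nonneg _
      nlinarith
    have h3 : dens X p * dens Y p + η =
        (T.card * ((res X p).card * (res Y p).card / p + η * p)) / (p * T.card) := by
      unfold Pool.CSE.dens
      field_simp
    have h4 : sv l m X Y T p ≤ dens X p * dens Y p + η := by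
      rw [h3]
      unfold sv
      rw [div_le_div_iff_of_pos_right hden]
      refine h1.trans ?_
      gcongr
    rw [hmul2 p hp0]
    unfold sn
    have h5 := mul_le_mul_of_nonneg_right h4 (sq_nonneg ((p : ℝ) / (p + 1)))
    have h6 : ((p : ℝ) / (p + 1)) ^ 2 ≤ 1 := pow_le_one₀ hlam0.le hlam1
    have h7 := mul_le_mul_of_nonneg_left h6 hη.le
    linarith
  · -- sU
    intro p hp
    obtain ⟨hpp, _, hp1, hp0, hlp, hmp⟩ := hpr _ p hp
    have : Fact p.Prime := ⟨hpp⟩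
    obtain ⟨hlam0, hlam1⟩ := skel_lam hp0
    have hden : (0 : ℝ) < p * T.card := mul_pos hp0 hTc
    have h1 := hGm p hp1 l m hlp hmp (res X p) (res Y p) T hTne
    have h3 : dens X p * dens Y p + √(507 / 5000 * (dens Y p * (1 - dens Y p)) * (Mv T p - 1)) =
        (T.card * ((res X p).card * (res Y p).card / p +
          p * √(507 / 5000 * (((res Y p).card : ℝ) / p * (1 - ((res Y p).card : ℝ) / p)) *
            (Mv T p - 1)))) / (p * T.card) := by
      unfold Pool.CSE.dens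
      field_simp
    have h4 : sv l m X Y T p ≤ dens X p * dens Y p +
        √(507 / 5000 * (dens Y p * (1 - dens Y p)) * (Mv T p - 1)) := by
      rw [h3]
      unfold sv
      rw [div_le_div_iff_of_pos_right hden]
      exact h1
    have h5 := mul_le_mul_of_nonneg_right h4 (sq_nonneg ((p : ℝ) / (p + 1)))
    have h6 := skel_sU ((p : ℝ) / (p + 1)) (dens Y p) (Mv T p - 1) hlam0.le hlam1
      (hdens Y p hpp).1 (hdens Y p hpp).2 (by linarith [hMv p hpp])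
    rw [hmul2 p hp0, skel_dn Y hp0]
    unfold sn
    linarith
  · -- sA
    intro p hp hbX hbY hMT hMX hMY
    obtain ⟨hpp, _, _, hp0, hlp, hmp⟩ := hpr _ p hp
    have : Fact p.Prime := ⟨hpp⟩
    obtain ⟨hlam0, hlam1⟩ := skel_lam hp0
    have h1 := G_unb p l m hlp hmp X Y T hXne hYne hTne η K hη.le hbX hbY hMT hMX hMY
    have h2 := mul_le_mul_of_nonneg_right h1 (sq_nonneg ((p : ℝ) / (p + 1)))
    have h3 := hmul2 p hp0
    have h4 : dn X p * dn Y p ≤ 1 := by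
      rw [h3]
      have h5 : ((p : ℝ) / (p + 1)) ^ 2 ≤ 1 := pow_le_one₀ hlam0.le hlam1
      have h6 : dens X p * dens Y p ≤ 1 :=
        mul_le_one₀ (hdens X p hpp).2 (hdens Y p hpp).1 (hdens Y p hpp).2
      have h7 : 0 ≤ dens X p * dens Y p := mul_nonneg (hdens X p hpp).1 (hdens Y p hpp).1
      exact mul_le_one₀ h6 (sq_nonneg _) h5
    have h8 : 0 ≤ 3 * η * K := by positivity
    have h9 := mul_le_mul_of_nonneg_right h4 h8
    have h10 : dens X p * dens Y p * (1 + √(yv X p * yv Y p) + 3 * η * K) *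
        ((p : ℝ) / (p + 1)) ^ 2 =
        dn X p * dn Y p * (1 + √(yv X p * yv Y p)) + dn X p * dn Y p * (3 * η * K) := by
      rw [h3]
      ring
    unfold sn
    linarith
  · -- S1
    have h := Pool.CSE.rep_sieve l m hm X Y T hTne ((N : ℝ) ^ ρ) hρN hF.rT (prI N ε ρ)
      (fun p hp => (Pool.CSE.mem_prI.1 hp).2.1) N hN1 (skel_diff hXN)
    have h1 : (∑ p ∈ prI N ε ρ, Real.log p) / (N : ℝ) ^ ρ ≤ 2 := by
      rw [div_le_iff₀ hρN]
      exact Pool.CSE.cheb_prI N hN ε ρ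
    have h2 : ∑ p ∈ prI N ε ρ, wt p / sv l m X Y T p = ∑ p ∈ prI N ε ρ, Real.log p *
        (T.card / ∑ t ∈ T, (G p l m (res X p) (res Y p) (t : ZMod p) : ℝ)) := by
      refine Finset.sum_congr rfl fun p hp => ?_
      obtain ⟨hpp, _, _, hp0, _, _⟩ := hpr _ p hp
      have hg := hG0 p
      unfold wt sv
      field_simp
    have h3 : ∀ p ∈ prI N ε ρ, wt p / sn l m X Y T p ≤
        (1 + 3 / (N : ℝ) ^ ε) * (wt p / sv l m X Y T p) := by
      intro p hp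
      obtain ⟨hpp, _, _, hp0, _, _⟩ := hpr _ p hp
      have hsv := hsv0 p hpp
      have hp1 : (1 : ℝ) ≤ p := by exact_mod_cast hpp.one_lt.le
      have h4 : wt p / sn l m X Y T p =
          (((p : ℝ) + 1) / p) ^ 2 * (wt p / sv l m X Y T p) := by
        unfold sn
        field_simp
      rw [h4]
      apply mul_le_mul_of_nonneg_right _ (div_nonneg (Pool.CSE.mer_wt_nonneg p) hsv.le)
      have h5 : (((p : ℝ) + 1) / p) ^ 2 ≤ 1 + 3 / p := by
        rw [div_pow, div_le_iff₀ (by positivity)]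
        field_simp
        nlinarith
      have h6 : 3 / (p : ℝ) ≤ 3 / (N : ℝ) ^ ε :=
        div_le_div_of_nonneg_left (by norm_num) hNε0 (Pool.CSE.mem_prI.1 hp).2.2.1.le
      linarith
    refine (Finset.sum_le_sum h3).trans ?_
    rw [← Finset.mul_sum, h2]
    set S := ∑ p ∈ prI N ε ρ, Real.log p *
        (T.card / ∑ t ∈ T, (G p l m (res X p) (res Y p) (t : ZMod p) : ℝ)) with hS
    have h7 : S ≤ Real.log N + 2 := by linarith
    have h8 : (1 + 3 / (N : ℝ) ^ ε) * S ≤ (1 + 3 / (N : ℝ) ^ ε) * (Real.log N + 2) :=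
      mul_le_mul_of_nonneg_left h7 (by positivity)
    have h9 : 3 / (N : ℝ) ^ ε * (Real.log N + 2) ≤ 1 := by
      rw [div_mul_eq_mul_div, div_le_one hNε0]
      exact hNl
    linarith
  · -- SA
    have h := skel_SA hN ε (4899 / 10000) hNε0 (by linarith) A hF.pair.hA hF.pair.cA
    linarith
  · -- SB
    have h := skel_SA hN ε (4899 / 10000) hNε0 (by linarith) B hF.pair.hB hF.pair.cB
    linarith
  · -- SM
    have hD1 : (1 : ℝ) ≤ 2 * (|(l : ℝ)| + |(m : ℝ)|) * N := by nlinarith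
    have hT' : ∀ x ∈ T, ∀ x' ∈ T, |(x : ℝ) - x'| ≤ 2 * (|(l : ℝ)| + |(m : ℝ)|) * N := by
      intro x hx x' hx'
      have h1 : |(x : ℝ)| ≤ (|(l : ℝ)| + |(m : ℝ)|) * N := by exact_mod_cast hF.hT x hx
      have h2 : |(x' : ℝ)| ≤ (|(l : ℝ)| + |(m : ℝ)|) * N := by exact_mod_cast hF.hT x' hx'
      have h3 := abs_sub (x : ℝ) (x' : ℝ)
      linarith
    have h := Pool.CSE.col_sieve T hTne (prI N 0 τ)
      (fun p hp => (Pool.CSE.mem_prI.1 hp).2.1)
      (2 * (|(l : ℝ)| + |(m : ℝ)|) * N) hD1 hT'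
    have h1 : (∑ p ∈ prI N 0 τ, Real.log p) / T.card ≤ 2 := by
      rw [div_le_iff₀ hTc]
      have h2 := Pool.CSE.cheb_prI N hN 0 τ
      have h3 := hF.cT
      linarith
    have h2 : Real.log (2 * (|(l : ℝ)| + |(m : ℝ)|) * N) =
        Real.log (2 * (|(l : ℝ)| + |(m : ℝ)|)) + Real.log N :=
      Real.log_mul (by positivity) hN0.ne'
    have h3 := hmer N hN
    have h4 : ∑ p ∈ prI N 0 τ, wt p * (Mv T p - 1) =
        ∑ p ∈ prI N 0 τ, wt p * Mv T p - ∑ p ∈ prI N 0 τ, wt p := by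
      rw [← Finset.sum_sub_distrib]
      refine Finset.sum_congr rfl fun p _ => ?_
      ring
    have h5 : ∑ p ∈ prI N ε (min ρ τ), wt p * (Mv T p - 1) ≤
        ∑ p ∈ prI N 0 τ, wt p * (Mv T p - 1) := by
      apply Finset.sum_le_sum_of_subset_of_nonneg
      · exact Pool.CSE.prI_mono (by omega) hε.le (min_le_right _ _)
      · intro p hp _
        have := hMv p (Pool.CSE.mem_prI.1 hp).2.1
        exact mul_nonneg (Pool.CSE.mer_wt_nonneg p) (by linarith)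
    rw [h4] at h5
    rw [h2] at h
    have h6 : (τ - 0) * Real.log N = τ * Real.log N := by ring
    rw [h6] at h3
    linarith

end Pool.CSU
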