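import Pool.Agent.Lib.CSU.L1
import Pool.Agent.Lib.CSU.Skel
import Pool.Agent.Lib.CSU.BadA
import Pool.Agent.Lib.CSU.CovS

/-!
# CSU, module ABy: `28/100 ≤ ρ ≤ 4899/10000`, `|T| ≥ N^(12298/10000 - 2ρ)`, `(X, Y) = (A, B)`

`ε = c = 1/100000`, `η = 1/10^15`, `K = 100000`, `θ = 4899/10000`, `τ = 12298/10000 - 2ρ ≥ 1/4`,
`lim = min ρ τ`, `κ = 667/1000`. `covF` (`x = θ`) gives `m0` with `prI N ε θ ⊆ covK N ε c κ m0`. By
`l1'` for `(A, B)` and `(B, A)` (`Pair.symm`) and `badA`: the primes of `prI N ε θ` with `Bad η A p`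
have weight `≤ 1`, same for `B`. Exceptional: also `RK = {p ∈ prI N ε lim : M_T > K or M_A > K or
M_B > K}`: `∑ wt ≤ (L+C)/(K-1) + 2 (L+C)/K` (`SM`, `SA`, `SB`, `yA`). For the other
`p ∈ prI N ε lim`: `sA`: `s ≤ ab (1 + z) + 3ηK`, `z = √(y_A y_B) ≤ (y_A + y_B)/2`, `ab ≤ 1/4`, so
`s ≤ (1/4)(1 + z + 12ηK)` and `1/s ≥ 4/(1 + z + 12 η K) ≥ 4 (1 - z - 12ηK) ≥
4 - 2 (y_A + y_B) - 48 η K`. For `p ∈ prI N lim ρ`: `s ≤ min(a, b) ≤ 1/2`: `1/s ≥ 2`. Hence
`L + C ≥ ∑_{prI ε ρ} wt/s ≥ (4 - 48ηK)((lim - ε) L - C - 2 - ∑_{RK} wt) -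
2 ∑_{prI ε θ} wt (y_A + y_B) + 2 (ρ - lim) L - C`. By `SA + SB` and `1/a + 1/b ≥ 4`:
`∑_{prI ε θ} wt (y_A + y_B) ≤ 2L + 2C - 4 (θ - ε) L + C = (404/10000 + 4ε) L + C'`.
So `1 ≥ 4 lim + 2 (ρ - lim) - 808/10000 - 1/100` (all losses `< 1/100`) for `N` large; but
`ρ ≤ τ` (`ρ ≤ .40993`): `4ρ - .0808 ≥ 1.0392`; `ρ ≥ τ`: `2τ + 2ρ - .0808 = 2.3788 - 2ρ ≥ 1.399`.
-/

set_option autoImplicit false

open Finset Filter

namespace Pool.CSU

open Pool.CSE (Bad prI wt Mv mer mer_wt_nonneg prI_mono prI_disj prI_split)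

private theorem ABy_log_large (c C : ℝ) (hc : 0 < c) :
    ∀ᶠ N : ℕ in atTop, C < c * Real.log N := by
  have h : Tendsto (fun N : ℕ => c * Real.log (N : ℝ)) atTop atTop :=
    Tendsto.const_mul_atTop hc (Real.tendsto_log_atTop.comp tendsto_natCast_atTop_atTop)
  exact h.eventually_gt_atTop C

/-- the generic prime -/
private theorem ABy_gen (s a b y z e : ℝ) (hs : 0 < s) (ha : 0 < a) (hb : 0 < b) (hab : a + b ≤ 1)
    (hy : 0 ≤ y) (hz : 0 ≤ z) (h : s ≤ a * b * (1 + √(y * z)) + e) :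
    4 - 16 * e - 2 * (y + z) ≤ 1 / s := by
  have h1 : √(y * z) ≤ (y + z) / 2 := by
    rw [show (y + z) / 2 = √(((y + z) / 2) ^ 2) from (Real.sqrt_sq (by positivity)).symm]
    exact Real.sqrt_le_sqrt (by nlinarith [sq_nonneg (y - z)])
  have h2 : a * b ≤ 1 / 4 := by nlinarith [sq_nonneg (a - b)]
  have h3 : s ≤ 1 / 4 * (1 + ((y + z) / 2 + 4 * e)) := by
    have : a * b * (1 + √(y * z)) ≤ 1 / 4 * (1 + (y + z) / 2) :=
      mul_le_mul h2 (by linarith) (by positivity) (by norm_num)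
    linarith
  rw [le_div_iff₀ hs]
  rcases le_total (4 - 16 * e - 2 * (y + z)) 0 with h4 | h4
  · have := mul_nonneg (neg_nonneg.mpr h4) hs.le
    linarith
  · have := mul_le_mul_of_nonneg_left h3 h4
    nlinarith [sq_nonneg ((y + z) / 2 + 4 * e)]

/-- the sum of the reciprocals of two densities -/
private theorem ABy_rec (a b : ℝ) (ha : 0 < a) (hb : 0 < b) (hab : a + b ≤ 1) :
    4 ≤ 1 / a + 1 / b := by
  rw [div_add_div _ _ ha.ne' hb.ne', le_div_iff₀ (mul_pos ha hb)]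
  nlinarith [sq_nonneg (a - b), mul_pos ha hb]

theorem aby (p₀ : ℕ) (l m : ℤ) (hl : l ≠ 0) (hm : m ≠ 0) (ρ : ℝ) (hρ : 28 / 100 ≤ ρ)
    (hρ1 : ρ ≤ 4899 / 10000) :
    ∀ᶠ N : ℕ in atTop, ∀ A B T : Finset ℤ,
      ¬ Conf p₀ N l m ρ (12298 / 10000 - 2 * ρ) A B A B T := by
  classical
  obtain ⟨τ, hτ⟩ : ∃ τ : ℝ, τ = 12298 / 10000 - 2 * ρ := ⟨_, rfl⟩
  rw [← hτ]
  have hτ0 : 1 / 4 ≤ τ := by rw [hτ]; linarith
  have hτ1 : τ ≤ 1 := by rw [hτ]; linarith
  obtain ⟨lim, hlim⟩ : ∃ x : ℝ, x = min ρ τ := ⟨_, rfl⟩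
  have hlimρ : lim ≤ ρ := by rw [hlim]; exact min_le_left _ _
  have hlim0 : 1 / 4 ≤ lim := by rw [hlim]; exact le_min (by linarith) hτ0
  obtain ⟨C, hC⟩ := skel p₀ l m hl hm ρ τ (1 / 100000) (1 / 10 ^ 15) 100000 (by linarith) hρ1
    (by linarith) hτ1 (by norm_num) (by norm_num) (by norm_num) (by norm_num) (by norm_num)
  obtain ⟨m0, hm0, hcov⟩ := covF (1 / 100000) (1 / 100000) (667 / 1000) (4899 / 10000)
    (by norm_num) (by norm_num) (by norm_num) (by norm_num) (by norm_num)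
  obtain ⟨C1, hC1, h1⟩ := mer (1 / 100000) lim (by norm_num) (by linarith)
  obtain ⟨C2, hC2, h2⟩ := mer lim ρ (by linarith) (by linarith)
  obtain ⟨C3, hC3, h3⟩ := mer (1 / 100000) (4899 / 10000) (by norm_num) (by norm_num)
  filter_upwards [hC, l1' p₀,
    badA m0 (1 / 10 ^ 15) (667 / 1000) (1 / 100000) (1 / 100000) (by norm_num) (by norm_num)
      (by norm_num) (by norm_num) (by norm_num) hm0,
    ABy_log_large (1 / 100) (C + 4 * C1 + 4 * |C| + 8 * C3 + 8 + |C| + 2 * C2) (by norm_num),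
    eventually_ge_atTop 2] with N hN hE hB hL hN2 A B T hconf
  have hN1 : 1 ≤ N := by omega
  have hN1' : (1 : ℝ) ≤ N := by exact_mod_cast hN1
  have S := hN A B A B T hconf
  have hL0 : 0 ≤ Real.log N := Real.log_natCast_nonneg N
  have hne : ∀ X : Finset ℤ, (N : ℝ) ^ (4899 / 10000 : ℝ) ≤ X.card → X.Nonempty := by
    intro X hX
    have : (0 : ℝ) < X.card := lt_of_lt_of_le (Real.rpow_pos_of_pos (by linarith) _) hX
    exact Finset.card_pos.mp (by exact_mod_cast this)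
  set P1 := prI N (1 / 100000) lim with hP1
  set P2 := prI N lim ρ with hP2
  set Q := prI N (1 / 100000) (4899 / 10000) with hQ
  have hP1Q : P1 ⊆ Q := prI_mono hN1 le_rfl (by linarith)
  have hP : prI N (1 / 100000) ρ = P1 ∪ P2 := prI_split hN1 (by linarith) hlimρ
  have hdisj : Disjoint P1 P2 := prI_disj hN1 le_rfl
  have hP1P : P1 ⊆ prI N (1 / 100000) ρ := by rw [hP]; exact Finset.subset_union_left
  have hP2P : P2 ⊆ prI N (1 / 100000) ρ := by rw [hP]; exact Finset.subset_union_right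
  have hPQ : prI N (1 / 100000) ρ ⊆ Q := prI_mono hN1 le_rfl hρ1
  -- bad primes
  have hbad : ∀ X Y : Finset ℤ, Pair p₀ N X Y →
      ∑ p ∈ P1, wt p * (if Bad (1 / 10 ^ 15) X p then 1 else 0) ≤ 1 := by
    intro X Y hXY
    have := hB X hXY.hA (hne X hXY.cA) (hE X Y hXY) (P1.filter (fun p => Bad (1 / 10 ^ 15) X p))
      ((Finset.filter_subset _ _).trans (hP1Q.trans (hcov N hN2)))
      (fun p hp => (Finset.mem_filter.mp hp).2)
    rw [Finset.sum_filter] at this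
    refine le_trans (le_of_eq ?_) this
    refine Finset.sum_congr rfl fun p _ => ?_
    split_ifs <;> simp
  have hbA := hbad A B hconf.pair
  have hbB := hbad B A hconf.pair.symm
  -- pointwise
  have hpt : ∀ p ∈ P1, wt p * (4 - 1 / 10 ^ 6)
      - 2 * (wt p * (yv A p + yv B p))
      - 4 * (wt p * (if Bad (1 / 10 ^ 15) A p then 1 else 0))
      - 4 * (wt p * (if Bad (1 / 10 ^ 15) B p then 1 else 0))
      - 4 / 99999 * (wt p * (Mv T p - 1))
      - 4 / 100000 * (wt p * (1 / dn A p + yv A p))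
      - 4 / 100000 * (wt p * (1 / dn B p + yv B p)) ≤ wt p / sn l m A B T p := by
    intro p hp
    obtain ⟨ha, hb, hab⟩ := S.dA p (hP1Q hp)
    obtain ⟨hyA, hMA, hyB, hMB⟩ := S.yA p (hP1Q hp)
    obtain ⟨hs, hsa, hsb, hMT⟩ := S.s0 p (hP1P hp)
    have hw := mer_wt_nonneg p
    have hA := S.sA p (hP1P hp)
    have key : (4 - 1 / 10 ^ 6) - 2 * (yv A p + yv B p)
        - 4 * (if Bad (1 / 10 ^ 15) A p then 1 else 0)
        - 4 * (if Bad (1 / 10 ^ 15) B p then 1 else 0)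
        - 4 / 99999 * (Mv T p - 1)
        - 4 / 100000 * (1 / dn A p + yv A p)
        - 4 / 100000 * (1 / dn B p + yv B p) ≤ 1 / sn l m A B T p := by
      have hpos : 0 < 1 / sn l m A B T p := by positivity
      have i1 : (0 : ℝ) ≤ (if Bad (1 / 10 ^ 15) A p then 1 else 0) := by split_ifs <;> norm_num
      have i2 : (0 : ℝ) ≤ (if Bad (1 / 10 ^ 15) B p then 1 else 0) := by split_ifs <;> norm_num
      have i3 : 0 ≤ 1 / dn A p := by positivity
      have i4 : 0 ≤ 1 / dn B p := by positivity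
      by_cases c1 : Bad (1 / 10 ^ 15) A p
      · rw [if_pos c1]; linarith
      by_cases c2 : Bad (1 / 10 ^ 15) B p
      · rw [if_pos c2]; linarith
      by_cases c3 : Mv T p ≤ 100000
      swap
      · have c3' := not_le.mp c3; linarith
      by_cases c4 : Mv A p ≤ 100000
      swap
      · have c4' := not_le.mp c4; linarith
      by_cases c5 : Mv B p ≤ 100000
      swap
      · have c5' := not_le.mp c5; linarith
      have := ABy_gen _ _ _ _ _ (3 * (1 / 10 ^ 15) * 100000) hs ha hb hab hyA hyB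
        (hA c1 c2 c3 c4 c5)
      linarith
    have := mul_le_mul_of_nonneg_left key hw
    rw [mul_one_div] at this
    linarith
  have hpt2 : ∀ p ∈ P2, 2 * wt p ≤ wt p / sn l m A B T p := by
    intro p hp
    obtain ⟨ha, hb, hab⟩ := S.dA p (hPQ (hP2P hp))
    obtain ⟨hs, hsa, hsb, hMT⟩ := S.s0 p (hP2P hp)
    have hw := mer_wt_nonneg p
    rw [le_div_iff₀ hs]
    have : sn l m A B T p ≤ 1 / 2 := by linarith
    nlinarith
  have e1 : ∑ p ∈ prI N (1 / 100000) ρ, wt p / sn l m A B T p =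
      ∑ p ∈ P1, wt p / sn l m A B T p + ∑ p ∈ P2, wt p / sn l m A B T p := by
    rw [hP, Finset.sum_union hdisj]
  have e2 := Finset.sum_le_sum hpt
  have e3 := Finset.sum_le_sum hpt2
  simp only [Finset.sum_sub_distrib, ← Finset.mul_sum, ← Finset.sum_mul] at e2 e3
  -- the sums over Q
  have q0 : ∀ p ∈ Q, 0 ≤ wt p * (yv A p + yv B p) := by
    intro p hp
    obtain ⟨hyA, hMA, hyB, hMB⟩ := S.yA p hp
    exact mul_nonneg (mer_wt_nonneg p) (by linarith)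
  have q1 : ∑ p ∈ P1, wt p * (yv A p + yv B p) ≤ ∑ p ∈ Q, wt p * (yv A p + yv B p) :=
    Finset.sum_le_sum_of_subset_of_nonneg hP1Q fun p hp _ => q0 p hp
  have q2 : ∑ p ∈ Q, wt p * (yv A p + yv B p) + 4 * ∑ p ∈ Q, wt p ≤
      ∑ p ∈ Q, wt p * (1 / dn A p + yv A p) + ∑ p ∈ Q, wt p * (1 / dn B p + yv B p) := by
    rw [Finset.mul_sum, ← Finset.sum_add_distrib, ← Finset.sum_add_distrib]
    refine Finset.sum_le_sum fun p hp => ?_
    obtain ⟨ha, hb, hab⟩ := S.dA p hp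
    have := mul_le_mul_of_nonneg_left (ABy_rec _ _ ha hb hab) (mer_wt_nonneg p)
    nlinarith
  have q3 : ∑ p ∈ P1, wt p * (1 / dn A p + yv A p) ≤ ∑ p ∈ Q, wt p * (1 / dn A p + yv A p) := by
    refine Finset.sum_le_sum_of_subset_of_nonneg hP1Q fun p hp _ => ?_
    obtain ⟨ha, hb, hab⟩ := S.dA p hp
    obtain ⟨hyA, hMA, hyB, hMB⟩ := S.yA p hp
    exact mul_nonneg (mer_wt_nonneg p) (by positivity)
  have q4 : ∑ p ∈ P1, wt p * (1 / dn B p + yv B p) ≤ ∑ p ∈ Q, wt p * (1 / dn B p + yv B p) := by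
    refine Finset.sum_le_sum_of_subset_of_nonneg hP1Q fun p hp _ => ?_
    obtain ⟨ha, hb, hab⟩ := S.dA p hp
    obtain ⟨hyA, hMA, hyB, hMB⟩ := S.yA p hp
    exact mul_nonneg (mer_wt_nonneg p) (by positivity)
  have hSM := S.SM
  rw [← hlim] at hSM
  have hS1 := S.S1
  rw [e1] at hS1
  have hSA := S.SA
  have hSB := S.SB
  have m1 := h1 N hN2
  have m2 := h2 N hN2
  have m3 := h3 N hN2
  have w1 : 0 ≤ ∑ p ∈ P1, wt p := Finset.sum_nonneg fun p _ => mer_wt_nonneg p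
  have hCa := le_abs_self C
  have hCn := abs_nonneg C
  have hco : 1 + 1 / 100 ≤ (4 - 1 / 10 ^ 6) * (lim - 1 / 100000) - 4
      + 8 * (4899 / 10000 - 1 / 100000) - 4 / 99999 * (1 - τ) - 8 / 100000
      + 2 * (ρ - lim) := by
    rcases le_total ρ τ with h | h
    · have : lim = ρ := by rw [hlim]; exact min_eq_left h
      rw [this]; linarith
    · have : lim = τ := by rw [hlim]; exact min_eq_right h
      rw [this]; linarith
  have hco2 := mul_le_mul_of_nonneg_right hco hL0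
  have m1' : (4 - 1 / 10 ^ 6) * ((lim - 1 / 100000) * Real.log N - C1) ≤
      (∑ p ∈ P1, wt p) * (4 - 1 / 10 ^ 6) := by
    rw [mul_comm (∑ p ∈ P1, wt p)]
    exact mul_le_mul_of_nonneg_left m1 (by norm_num)
  nlinarith
end Pool.CSU
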