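import Pool.Agent.Lib.CSU.Defs

/-!
# CSU, module Eng: elementary facts about the energy

`eng_rep`: count the quadruples by the common value `t = l x + m y`; `= ∑_t rep(t)^2`.
`eng_le4`: the filtered set is inside `(A × A) × (A × A)`.
`eng_le_sq_left`: `(x, x', y)` determines `y'` (`m ≠ 0`): `eng ≤ |X|^2 |Y|`;
`eng_le_sq_right`: `(x, y, y')` determines `x'` (`l ≠ 0`): `eng ≤ |X| |Y|^2`.
`eng_union_left`: `rep` for `X₁ ∪ X₂` is at most the sum of the two, `(u+v)^2 ≤ 2u^2 + 2v^2` (via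
`eng_rep`, or with `val`s as index sets replaced by one common finite set containing all);
`eng_union_right` the same in the second variable.
`eng_mono`: monotone in `X` and `Y`.
`eng_cs`: `l a + m b = l c + m d` iff `l (a - c) = m (d - b)`. With `r(x) = rep 1 (-1) A A x` the
left side is `∑_{(x, y) : l x = m y} r(x) r(y) ≤ ∑ (r(x)^2 + r(y)^2)/2 ≤ ∑ r(x)^2`, as `x` determines
`y` and conversely (`l, m ≠ 0`).
-/

set_option autoImplicit false

open Finset

namespace Pool.CSU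

open Pool.Agent.Lib.MP_4b09b1_nt (res pairs)
open Pool.CSE (G rep Bad prI wt dens sv Mv val pop)

private theorem sum_g (l m : ℤ) (X Y : Finset ℤ) (F : ℤ → ℕ) :
    ∑ z ∈ X ×ˢ Y, F (l * z.1 + m * z.2) = ∑ t ∈ val l m X Y, rep l m X Y t * F t := by
  rw [← Finset.sum_fiberwise_of_maps_to (s := X ×ˢ Y) (t := val l m X Y)
    (g := fun z : ℤ × ℤ => l * z.1 + m * z.2)
    (fun z hz => Finset.mem_image_of_mem _ hz)]
  refine Finset.sum_congr rfl fun t _ => ?_
  rw [Finset.sum_congr rfl (g := fun _ => F t) (fun z hz => by rw [(Finset.mem_filter.mp hz).2])]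
  rw [Finset.sum_const, smul_eq_mul]
  rfl

private theorem eng_sum (l m : ℤ) (X Y : Finset ℤ) :
    eng l m X Y = ∑ z ∈ X ×ˢ Y, rep l m X Y (l * z.1 + m * z.2) := by
  unfold eng rep
  rw [Finset.card_filter, Finset.sum_product]
  refine Finset.sum_congr rfl fun z _ => ?_
  rw [Finset.card_filter]
  refine Finset.sum_congr rfl fun w _ => ?_
  exact if_congr eq_comm rfl rfl

private theorem rep_zero (l m : ℤ) (X Y : Finset ℤ) (t : ℤ) (ht : t ∉ val l m X Y) :
    rep l m X Y t = 0 := by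
  unfold rep
  rw [Finset.card_eq_zero, Finset.filter_eq_empty_iff]
  intro z hz h
  exact ht (Finset.mem_image.mpr ⟨z, hz, h⟩)

theorem eng_rep (l m : ℤ) (X Y : Finset ℤ) :
    eng l m X Y = ∑ t ∈ val l m X Y, rep l m X Y t ^ 2 := by
  rw [eng_sum, sum_g]
  exact Finset.sum_congr rfl fun t _ => (sq _).symm

theorem eng_le4 (l m : ℤ) (A : Finset ℤ) : eng l m A A ≤ A.card ^ 4 := by
  unfold eng
  refine (Finset.card_filter_le _ _).trans (le_of_eq ?_)
  simp only [Finset.card_product]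
  ring

theorem eng_le_sq_left (l m : ℤ) (hm : m ≠ 0) (X Y : Finset ℤ) :
    eng l m X Y ≤ X.card ^ 2 * Y.card := by
  unfold eng
  have h : X.card ^ 2 * Y.card = ((X ×ˢ X) ×ˢ Y).card := by
    simp only [Finset.card_product]; ring
  rw [h]
  refine Finset.card_le_card_of_injOn (fun z => ((z.1.1, z.2.1), z.1.2)) ?_ ?_
  · intro z hz
    simp only [Finset.coe_filter, Finset.mem_product, Set.mem_setOf_eq] at hz
    simp only [Finset.coe_product, Set.mem_prod, Finset.mem_coe]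
    exact ⟨⟨hz.1.1.1, hz.1.2.1⟩, hz.1.1.2⟩
  · rintro ⟨⟨a, b⟩, ⟨c, d⟩⟩ hz ⟨⟨a', b'⟩, ⟨c', d'⟩⟩ hw h
    simp only [Finset.coe_filter, Finset.mem_product, Set.mem_setOf_eq] at hz hw
    simp only [Prod.mk.injEq] at h
    obtain ⟨⟨h1, h2⟩, h3⟩ := h
    subst h1; subst h2; subst h3
    have h4 : m * d = m * d' := by linarith [hz.2, hw.2]
    rw [mul_left_cancel₀ hm h4]

theorem eng_le_sq_right (l m : ℤ) (hl : l ≠ 0) (X Y : Finset ℤ) :
    eng l m X Y ≤ X.card * Y.card ^ 2 := by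
  unfold eng
  have h : X.card * Y.card ^ 2 = (X ×ˢ (Y ×ˢ Y)).card := by
    simp only [Finset.card_product]; ring
  rw [h]
  refine Finset.card_le_card_of_injOn (fun z => (z.1.1, (z.1.2, z.2.2))) ?_ ?_
  · intro z hz
    simp only [Finset.coe_filter, Finset.mem_product, Set.mem_setOf_eq] at hz
    simp only [Finset.coe_product, Set.mem_prod, Finset.mem_coe]
    exact ⟨hz.1.1.1, hz.1.1.2, hz.1.2.2⟩
  · rintro ⟨⟨a, b⟩, ⟨c, d⟩⟩ hz ⟨⟨a', b'⟩, ⟨c', d'⟩⟩ hw h
    simp only [Finset.coe_filter, Finset.mem_product, Set.mem_setOf_eq] at hz hw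
    simp only [Prod.mk.injEq] at h
    obtain ⟨h1, h2, h3⟩ := h
    subst h1; subst h2; subst h3
    have h4 : l * c = l * c' := by linarith [hz.2, hw.2]
    rw [mul_left_cancel₀ hl h4]

theorem eng_mono (l m : ℤ) (X Y X' Y' : Finset ℤ) (hX : X ⊆ X') (hY : Y ⊆ Y') :
    eng l m X Y ≤ eng l m X' Y' := by
  unfold eng
  refine Finset.card_le_card (Finset.filter_subset_filter _ ?_)
  exact Finset.product_subset_product (Finset.product_subset_product hX hY)
    (Finset.product_subset_product hX hY)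

private theorem eng_of (l m : ℤ) (X Y : Finset ℤ) (U : Finset ℤ) (hU : val l m X Y ⊆ U) :
    eng l m X Y = ∑ t ∈ U, rep l m X Y t ^ 2 := by
  rw [eng_rep]
  refine Finset.sum_subset hU fun t _ ht => ?_
  rw [rep_zero l m X Y t ht]
  rfl

private theorem sq_add_le (u v : ℕ) : (u + v) ^ 2 ≤ 2 * u ^ 2 + 2 * v ^ 2 := by
  zify
  nlinarith [sq_nonneg ((u : ℤ) - v)]

private theorem union_aux (l m : ℤ) (X Y X₁ Y₁ X₂ Y₂ : Finset ℤ)
    (h1 : X₁ ×ˢ Y₁ ⊆ X ×ˢ Y) (h2 : X₂ ×ˢ Y₂ ⊆ X ×ˢ Y)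
    (h : X ×ˢ Y ⊆ (X₁ ×ˢ Y₁) ∪ (X₂ ×ˢ Y₂)) :
    eng l m X Y ≤ 2 * eng l m X₁ Y₁ + 2 * eng l m X₂ Y₂ := by
  rw [eng_rep l m X Y, eng_of l m X₁ Y₁ (val l m X Y) (Finset.image_subset_image h1),
    eng_of l m X₂ Y₂ (val l m X Y) (Finset.image_subset_image h2), Finset.mul_sum, Finset.mul_sum,
    ← Finset.sum_add_distrib]
  refine Finset.sum_le_sum fun t _ => ?_
  refine le_trans (Nat.pow_le_pow_left ?_ 2) (sq_add_le _ _)
  unfold rep
  refine le_trans (Finset.card_le_card (Finset.filter_subset_filter _ h)) ?_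
  rw [Finset.filter_union]
  exact Finset.card_union_le _ _

theorem eng_union_left (l m : ℤ) (X₁ X₂ Y : Finset ℤ) :
    eng l m (X₁ ∪ X₂) Y ≤ 2 * eng l m X₁ Y + 2 * eng l m X₂ Y := by
  refine union_aux l m _ _ _ _ _ _ ?_ ?_ ?_
  · exact Finset.product_subset_product Finset.subset_union_left (Finset.Subset.refl _)
  · exact Finset.product_subset_product Finset.subset_union_right (Finset.Subset.refl _)
  · rw [Finset.union_product]

theorem eng_union_right (l m : ℤ) (X Y₁ Y₂ : Finset ℤ) :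
    eng l m X (Y₁ ∪ Y₂) ≤ 2 * eng l m X Y₁ + 2 * eng l m X Y₂ := by
  refine union_aux l m _ _ _ _ _ _ ?_ ?_ ?_
  · exact Finset.product_subset_product (Finset.Subset.refl _) Finset.subset_union_left
  · exact Finset.product_subset_product (Finset.Subset.refl _) Finset.subset_union_right
  · rw [Finset.product_union]

private theorem one_le (k n : ℤ) (hn : n ≠ 0) (D : Finset ℤ) (c : ℕ) (x : ℤ) :
    ∑ y ∈ D, (if k * x = n * y then c else 0) ≤ c := by
  rw [← Finset.sum_filter, Finset.sum_const, smul_eq_mul]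
  have h : (D.filter (fun y => k * x = n * y)).card ≤ 1 := by
    rw [Finset.card_le_one]
    intro a ha b hb
    have h1 := (Finset.mem_filter.mp ha).2
    have h2 := (Finset.mem_filter.mp hb).2
    exact mul_left_cancel₀ hn (h1.symm.trans h2)
  calc _ ≤ 1 * c := Nat.mul_le_mul_right c h
    _ = c := one_mul c

private theorem cs_aux (l m : ℤ) (hl : l ≠ 0) (hm : m ≠ 0) (D : Finset ℤ) (r : ℤ → ℕ) :
    ∑ x ∈ D, ∑ y ∈ D, (if l * x = m * y then r x * r y else 0) ≤ ∑ x ∈ D, r x ^ 2 := by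
  have h1 : ∀ x y : ℤ, 2 * (if l * x = m * y then r x * r y else 0) ≤
      (if l * x = m * y then r x ^ 2 else 0) + (if m * y = l * x then r y ^ 2 else 0) := by
    intro x y
    by_cases h : l * x = m * y
    · rw [if_pos h, if_pos h, if_pos h.symm]
      zify
      nlinarith [sq_nonneg ((r x : ℤ) - r y)]
    · rw [if_neg h]
      exact Nat.zero_le _
  have h2 : 2 * ∑ x ∈ D, ∑ y ∈ D, (if l * x = m * y then r x * r y else 0) ≤
      ∑ x ∈ D, r x ^ 2 + ∑ x ∈ D, r x ^ 2 := by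
    rw [Finset.mul_sum]
    calc ∑ x ∈ D, 2 * ∑ y ∈ D, (if l * x = m * y then r x * r y else 0)
        ≤ ∑ x ∈ D, (∑ y ∈ D, (if l * x = m * y then r x ^ 2 else 0) +
            ∑ y ∈ D, (if m * y = l * x then r y ^ 2 else 0)) := by
          refine Finset.sum_le_sum fun x _ => ?_
          rw [Finset.mul_sum, ← Finset.sum_add_distrib]
          exact Finset.sum_le_sum fun y _ => h1 x y
      _ = ∑ x ∈ D, ∑ y ∈ D, (if l * x = m * y then r x ^ 2 else 0) +
            ∑ y ∈ D, ∑ x ∈ D, (if m * y = l * x then r y ^ 2 else 0) := by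
          rw [Finset.sum_add_distrib]
          congr 1
          exact Finset.sum_comm
      _ ≤ _ := by
          refine Nat.add_le_add ?_ ?_
          · exact Finset.sum_le_sum fun x _ => one_le l m hm D _ x
          · exact Finset.sum_le_sum fun y _ => one_le m l hl D _ y
  omega

private theorem eng_two (l m : ℤ) (A : Finset ℤ) :
    eng l m A A = ∑ x ∈ val 1 (-1) A A, ∑ y ∈ val 1 (-1) A A,
      (if l * x = m * y then rep 1 (-1) A A x * rep 1 (-1) A A y else 0) := by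
  have h1 : eng l m A A = (((A ×ˢ A) ×ˢ (A ×ˢ A)).filter (fun w : (ℤ × ℤ) × (ℤ × ℤ) =>
      l * (1 * w.1.1 + (-1) * w.1.2) = m * (1 * w.2.1 + (-1) * w.2.2))).card := by
    unfold eng
    refine Finset.card_nbij' (fun z => ((z.1.1, z.2.1), (z.2.2, z.1.2)))
      (fun w => ((w.1.1, w.2.2), (w.1.2, w.2.1))) ?_ ?_ ?_ ?_
    · intro z hz
      simp only [Finset.coe_filter, Finset.mem_product, Set.mem_setOf_eq] at hz ⊢
      exact ⟨⟨⟨hz.1.1.1, hz.1.2.1⟩, hz.1.2.2, hz.1.1.2⟩, by linarith [hz.2]⟩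
    · intro z hz
      simp only [Finset.coe_filter, Finset.mem_product, Set.mem_setOf_eq] at hz ⊢
      exact ⟨⟨⟨hz.1.1.1, hz.1.2.2⟩, hz.1.1.2, hz.1.2.1⟩, by linarith [hz.2]⟩
    · intro z _; rfl
    · intro z _; rfl
  rw [h1, Finset.card_filter, Finset.sum_product]
  have h2 : ∀ p : ℤ × ℤ, ∑ q ∈ A ×ˢ A,
      (if l * (1 * p.1 + (-1) * p.2) = m * (1 * q.1 + (-1) * q.2) then 1 else 0) =
      ∑ y ∈ val 1 (-1) A A,
        (if l * (1 * p.1 + (-1) * p.2) = m * y then rep 1 (-1) A A y else 0) := by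
    intro p
    rw [sum_g 1 (-1) A A (fun y => if l * (1 * p.1 + (-1) * p.2) = m * y then 1 else 0)]
    refine Finset.sum_congr rfl fun y _ => ?_
    by_cases h : l * (1 * p.1 + (-1) * p.2) = m * y
    · rw [if_pos h, if_pos h, mul_one]
    · rw [if_neg h, if_neg h, mul_zero]
  rw [Finset.sum_congr rfl fun p _ => h2 p]
  rw [sum_g 1 (-1) A A (fun x => ∑ y ∈ val 1 (-1) A A,
    (if l * x = m * y then rep 1 (-1) A A y else 0))]
  refine Finset.sum_congr rfl fun x _ => ?_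
  rw [Finset.mul_sum]
  refine Finset.sum_congr rfl fun y _ => ?_
  by_cases h : l * x = m * y
  · rw [if_pos h, if_pos h]
  · rw [if_neg h, if_neg h, mul_zero]

theorem eng_cs (l m : ℤ) (hl : l ≠ 0) (hm : m ≠ 0) (A : Finset ℤ) :
    eng l m A A ≤ eng 1 (-1) A A := by
  rw [eng_two, eng_rep 1 (-1)]
  exact cs_aux l m hl hm _ _

end Pool.CSU
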