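import Mathlib

/-!
# CSU, module Pt: elementary inequalities for the pointwise bounds

`titu`: `x²/a + y²/b ≥ (x+y)²/(a+b) ≥ (x+y)²` for `0 < a + b ≤ 1`.
`inv_pert`: `s ≤ q + 1/10^9`. If `q ≥ 1/60`: `1/(q+δ) ≥ 1/q - δ/q² ≥ 1/q - 3600 δ`; if `q < 1/60`:
`1/s ≥ 1/(1/60 + 10^(-9)) ≥ 59`.
`ptN`: `s ≤ a`: `1/s ≥ 1/a`, then `titu` (`x² ≤ 1 + wA`, `y² ≤ wB`).
`ptO`: `titu`.
`ptC`: `inv_pert` with `q = a²`: `1/s ≥ 59` or `≥ 1/a² - 1/100000`, and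
`1/a² ≥ 2/(a₁ a) - 1/a₁²` (a square), then `titu` with `x² ≤ 2/a₁ + wA`.
`ptA`: `inv_pert` with `q = a² z`, `z = 1 + y ≥ 1`: `1/s ≥ 1/(a² z) - 1/100000` or `≥ 59`;
`1/(a² z) + r² z ≥ 2 r/a` (a square), `r² ≤ wA`; so `1/s + wA/a + wA y + wB/b ≥
(2r + wA)/a + wB/b - wA - 1/100000`, then `titu` with `x² ≤ 2 r + wA`.
`ptU`: `1/s ≥ 2/s₀ - s/s₀²`, `s ≤ a² + √(c a(1-a) t)`, `t = M - 1 ≥ 0`, `c = 507/5000`,
`(1/s₀²) √(c a(1-a) t) ≤ wM t + c a(1-a)/(4 wM s₀⁴)` (AM-GM), and `wB/b ≥ wB/(1-a)`.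
-/

set_option autoImplicit false

namespace Pool.CSU

theorem titu (a b x y : ℝ) (ha : 0 < a) (hb : 0 < b) (h : a + b ≤ 1) :
    (x + y) ^ 2 ≤ x ^ 2 / a + y ^ 2 / b := by
  rw [div_add_div _ _ ha.ne' hb.ne', le_div_iff₀ (mul_pos ha hb)]
  nlinarith [sq_nonneg (x * b - a * y),
    mul_nonneg (mul_nonneg (sq_nonneg x) hb.le) (by linarith : 0 ≤ 1 - a - b),
    mul_nonneg (mul_nonneg (sq_nonneg y) ha.le) (by linarith : 0 ≤ 1 - a - b)]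

theorem inv_pert (s q : ℝ) (hs : 0 < s) (hq : 0 < q) (h : s ≤ q + 1 / 10 ^ 9) :
    59 ≤ 1 / s ∨ 1 / q - 1 / 100000 ≤ 1 / s := by
  by_cases h60 : q < 1 / 60
  · left
    rw [le_div_iff₀ hs]
    norm_num at h ⊢
    linarith
  · right
    have h60 : (1 : ℝ) / 60 ≤ q := not_lt.1 h60
    have hd : (0 : ℝ) < 1 / 10 ^ 9 := by norm_num
    have hqd : 0 < q + 1 / 10 ^ 9 := by linarith
    have h1 : 1 / (q + 1 / 10 ^ 9) ≤ 1 / s := one_div_le_one_div_of_le hs h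
    have h2 : 1 / q - 1 / 100000 ≤ 1 / (q + 1 / 10 ^ 9) := by
      rw [div_sub_div _ _ hq.ne' (by norm_num), div_le_div_iff₀ (by positivity) hqd]
      norm_num
      nlinarith
    exact h2.trans h1

theorem ptN (a b s wA wB x y f : ℝ) (ha : 0 < a) (hb : 0 < b) (h : a + b ≤ 1) (hs : 0 < s)
    (hsa : s ≤ a) (hx0 : 0 ≤ x) (hy0 : 0 ≤ y) (hx : x ^ 2 ≤ 1 + wA) (hy : y ^ 2 ≤ wB)
    (hf : f ≤ (x + y) ^ 2) : f ≤ 1 / s + wA / a + wB / b := by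
  have h1 := titu a b x y ha hb h
  have h2 : x ^ 2 / a ≤ (1 + wA) / a := div_le_div_of_nonneg_right hx ha.le
  have h3 : y ^ 2 / b ≤ wB / b := div_le_div_of_nonneg_right hy hb.le
  have h4 : 1 / a ≤ 1 / s := one_div_le_one_div_of_le hs hsa
  rw [add_div] at h2
  linarith

theorem ptO (a b wA wB x y f : ℝ) (ha : 0 < a) (hb : 0 < b) (h : a + b ≤ 1) (hx0 : 0 ≤ x)
    (hy0 : 0 ≤ y) (hx : x ^ 2 ≤ wA) (hy : y ^ 2 ≤ wB) (hf : f ≤ (x + y) ^ 2) :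
    f ≤ wA / a + wB / b := by
  have h1 := titu a b x y ha hb h
  have h2 : x ^ 2 / a ≤ wA / a := div_le_div_of_nonneg_right hx ha.le
  have h3 : y ^ 2 / b ≤ wB / b := div_le_div_of_nonneg_right hy hb.le
  linarith

theorem ptC (a b s wA wB a₁ x y f : ℝ) (ha : 0 < a) (hb : 0 < b) (h : a + b ≤ 1) (hs : 0 < s)
    (hsa : s ≤ a * a + 1 / 10 ^ 9) (hwA : 0 ≤ wA) (hwB : 0 ≤ wB) (ha₁ : 0 < a₁) (hx0 : 0 ≤ x)
    (hy0 : 0 ≤ y) (hx : x ^ 2 ≤ 2 / a₁ + wA) (hy : y ^ 2 ≤ wB)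
    (hf : f ≤ (x + y) ^ 2 - 1 / a₁ ^ 2 - 1 / 100000) (hf1 : f ≤ 59) :
    f ≤ 1 / s + wA / a + wB / b := by
  have hA0 : 0 ≤ wA / a := div_nonneg hwA ha.le
  have hB0 : 0 ≤ wB / b := div_nonneg hwB hb.le
  rcases inv_pert s (a * a) hs (mul_pos ha ha) hsa with h59 | hq
  · linarith
  · have h1 := titu a b x y ha hb h
    have h2 : x ^ 2 / a ≤ (2 / a₁ + wA) / a := div_le_div_of_nonneg_right hx ha.le
    have h3 : y ^ 2 / b ≤ wB / b := div_le_div_of_nonneg_right hy hb.le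
    rw [add_div] at h2
    have h4 : 2 / a₁ / a ≤ 1 / (a * a) + 1 / a₁ ^ 2 := by
      have h5 : 0 ≤ (1 / a - 1 / a₁) ^ 2 := sq_nonneg _
      have h6 : (1 / a - 1 / a₁) ^ 2 = 1 / (a * a) + 1 / a₁ ^ 2 - 2 / a₁ / a := by
        field_simp
        ring
      linarith
    linarith

theorem ptA (a b s Y wA wB r x y f : ℝ) (ha : 0 < a) (hb : 0 < b) (h : a + b ≤ 1) (hs : 0 < s)
    (hY : 0 ≤ Y) (hsa : s ≤ a * a * (1 + Y) + 1 / 10 ^ 9) (hwA : 0 ≤ wA) (hwB : 0 ≤ wB)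
    (hr0 : 0 ≤ r) (hx0 : 0 ≤ x) (hy0 : 0 ≤ y) (hr : r ^ 2 ≤ wA) (hx : x ^ 2 ≤ 2 * r + wA)
    (hy : y ^ 2 ≤ wB) (hf : f ≤ (x + y) ^ 2 - wA - 1 / 100000) (hf1 : f ≤ 59) :
    f ≤ 1 / s + wA * (1 / a + Y) + wB / b := by
  have hz : 0 < 1 + Y := by linarith
  have hB0 : 0 ≤ wB / b := div_nonneg hwB hb.le
  have hA0 : 0 ≤ wA * (1 / a + Y) := by positivity
  rcases inv_pert s (a * a * (1 + Y)) hs (by positivity) hsa with h59 | hq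
  · linarith
  · have h1 := titu a b x y ha hb h
    have h2 : x ^ 2 / a ≤ (2 * r + wA) / a := div_le_div_of_nonneg_right hx ha.le
    have h3 : y ^ 2 / b ≤ wB / b := div_le_div_of_nonneg_right hy hb.le
    rw [add_div] at h2
    have h4 : 2 * r / a ≤ 1 / (a * a * (1 + Y)) + r ^ 2 * (1 + Y) := by
      have h5 : 1 / (a * a * (1 + Y)) + r ^ 2 * (1 + Y) - 2 * r / a
          = (1 - r * a * (1 + Y)) ^ 2 / (a * a * (1 + Y)) := by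
        field_simp
        ring
      have h6 : 0 ≤ (1 - r * a * (1 + Y)) ^ 2 / (a * a * (1 + Y)) := by positivity
      linarith
    have h7 : r ^ 2 * (1 + Y) ≤ wA * (1 + Y) := mul_le_mul_of_nonneg_right hr hz.le
    have h8 : wA * (1 / a + Y) = wA / a + wA * (1 + Y) - wA := by ring
    rw [h8]
    linarith

theorem ptU (a b s M wA wB wM s₀ : ℝ) (ha : 0 < a) (hb : 0 < b) (h : a + b ≤ 1) (hs : 0 < s)
    (hM : 1 ≤ M) (hsa : s ≤ a * a + √(507 / 5000 * (a * (1 - a)) * (M - 1))) (hwB : 0 ≤ wB)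
    (hwM : 0 < wM) (hs₀ : 0 < s₀) :
    2 / s₀ - a * a / s₀ ^ 2 - 507 / 5000 * (a * (1 - a)) / (4 * wM * s₀ ^ 4) + wA / a +
      wB / (1 - a) ≤ 1 / s + wA / a + wB / b + wM * (M - 1) := by
  have h1a : 0 < 1 - a := by linarith
  have hbB : wB / (1 - a) ≤ wB / b := div_le_div_of_nonneg_left hwB hb (by linarith)
  have hinv : 2 / s₀ - s / s₀ ^ 2 ≤ 1 / s := by
    have h5 : 1 / s - (2 / s₀ - s / s₀ ^ 2) = (s₀ - s) ^ 2 / (s * s₀ ^ 2) := by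
      field_simp
      ring
    have h6 : 0 ≤ (s₀ - s) ^ 2 / (s * s₀ ^ 2) := by positivity
    linarith
  set R := √(507 / 5000 * (a * (1 - a)) * (M - 1)) with hR
  have hRR : R ^ 2 = 507 / 5000 * (a * (1 - a)) * (M - 1) :=
    Real.sq_sqrt (by have : 0 ≤ M - 1 := by linarith
                     positivity)
  have hs2 : s / s₀ ^ 2 ≤ a * a / s₀ ^ 2 + R / s₀ ^ 2 := by
    rw [← add_div]
    exact div_le_div_of_nonneg_right hsa (by positivity)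
  have hM1 : 0 ≤ M - 1 := by linarith
  have hAM : R / s₀ ^ 2 ≤ wM * (M - 1) + 507 / 5000 * (a * (1 - a)) / (4 * wM * s₀ ^ 4) := by
    have hnn : 0 ≤ wM * (M - 1) + 507 / 5000 * (a * (1 - a)) / (4 * wM * s₀ ^ 4) := by positivity
    apply le_of_sq_le_sq _ hnn
    have h7 : (R / s₀ ^ 2) ^ 2
        = 4 * (wM * (M - 1)) * (507 / 5000 * (a * (1 - a)) / (4 * wM * s₀ ^ 4)) := by
      rw [div_pow, hRR]
      field_simp
    rw [h7]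
    nlinarith [sq_nonneg (wM * (M - 1) - 507 / 5000 * (a * (1 - a)) / (4 * wM * s₀ ^ 4))]
  linarith

end Pool.CSU
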