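import Pool.Agent.Lib.CSU.Box
import Pool.Agent.Lib.CSU.Pt
import Pool.Agent.Lib.CSU.Eng

/-!
# CSU, module B1: `4137/10000 ≤ ρ ≤ 435/1000`, `|T| ≥ N^(1393/1000 - 2ρ)`

`box` with `τ = κT = 1393/1000 - 2ρ ∈ [523/1000, 5656/10000]` (`≤ 4/7`; `min ρ τ = ρ`), `κA = 0`,
`nA = 0`, `nT = 11/6 (2τ-1) - 5/100000` (`covA`), `wA = 43/100`, `wB = 169/100`, `wM = 35/100`,
`fU = fA = 701/100`, `fC = 771/100`, `fN = 6`, `fO = 382/100`.
`pU`: `ptU` with `s₀ = 44/100` and the one variable inequality `b1_poly` (minimum `7.0107` at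
`a = 0.5045`; clear denominators, `nlinarith [sq_nonneg (a - 1009/2000), ...]`).
`pC`: `ptC` with `a₁ = 6/10`, `x = 19399/10000`, `y = 13/10`. `pN`: `ptN` with `x = 1195/1000`,
`y = 13/10`. `pO`: `ptO` with `x = 6557/10000`, `y = 13/10`.
`num`: linear in `ρ`; reserve `0.03` at `ρ = 435/1000`.
Finally `eng ≤ |A|^4 = |A|^4 N^(-0)` (`eng_le4`), so there is no `Conf` at all.
-/

set_option autoImplicit false

open Finset Filter

namespace Pool.CSU

theorem b1_poly (a : ℝ) (ha : 0 < a) (ha1 : a < 1) :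
    701 / 100 ≤ 2 / (44 / 100) - a * a / (44 / 100) ^ 2 -
      507 / 5000 * (a * (1 - a)) / (4 * (35 / 100) * (44 / 100) ^ 4) + 43 / 100 / a +
      169 / 100 / (1 - a) := by
  have h1 : 0 < 1 - a := by linarith
  have hkey : 0 ≤ a * (1 - a) * (2 / (44 / 100) - a * a / (44 / 100) ^ 2 -
      507 / 5000 * (a * (1 - a)) / (4 * (35 / 100) * (44 / 100) ^ 4) - 701 / 100) +
      43 / 100 * (1 - a) + 169 / 100 * a := by
    have h2 : 0 ≤ (a - 1009 / 2000) ^ 2 := sq_nonneg _
    have h3 : 0 ≤ a * (a - 1009 / 2000) ^ 2 := mul_nonneg ha.le h2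
    have h4 : 0 ≤ (a * (a - 1009 / 2000)) ^ 2 := sq_nonneg _
    norm_num at *
    nlinarith [h2, h3, h4, ha, h1]
  have h5 : 2 / (44 / 100) - a * a / (44 / 100) ^ 2 -
      507 / 5000 * (a * (1 - a)) / (4 * (35 / 100) * (44 / 100) ^ 4) + 43 / 100 / a +
      169 / 100 / (1 - a) - 701 / 100 = (a * (1 - a) * (2 / (44 / 100) - a * a / (44 / 100) ^ 2 -
      507 / 5000 * (a * (1 - a)) / (4 * (35 / 100) * (44 / 100) ^ 4) - 701 / 100) +
      43 / 100 * (1 - a) + 169 / 100 * a) / (a * (1 - a)) := by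
    field_simp
    ring
  have h6 : 0 ≤ (a * (1 - a) * (2 / (44 / 100) - a * a / (44 / 100) ^ 2 -
      507 / 5000 * (a * (1 - a)) / (4 * (35 / 100) * (44 / 100) ^ 4) - 701 / 100) +
      43 / 100 * (1 - a) + 169 / 100 * a) / (a * (1 - a)) :=
    div_nonneg hkey (mul_pos ha h1).le
  linarith

theorem b1 (p₀ : ℕ) (ρ : ℝ) (hρ : 4137 / 10000 ≤ ρ) (hρ1 : ρ ≤ 435 / 1000) :
    ∀ᶠ N : ℕ in atTop, ∀ A B T : Finset ℤ,
      ¬ Conf p₀ N 1 (-1) ρ (1393 / 1000 - 2 * ρ) A B A A T := by
  have hmin : min ρ (1393 / 1000 - 2 * ρ) = ρ := min_eq_left (by linarith)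
  have hbox := box p₀ ρ (1393 / 1000 - 2 * ρ) 0 (1393 / 1000 - 2 * ρ) 0
    (11 / 6 * (2 * (1393 / 1000 - 2 * ρ) - 1) - 5 / 100000)
    (43 / 100) (169 / 100) (35 / 100) (701 / 100) (701 / 100) (771 / 100) 6 (382 / 100)
    (by linarith) (by linarith) (by linarith) (by linarith) (by norm_num) le_rfl
    (by norm_num) (by norm_num) (by norm_num) (by norm_num) (by norm_num) (by norm_num)
    (by norm_num) (by norm_num) (by norm_num) le_rfl (by linarith)
    (covZ _ _ _ _)
    (by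
      rw [hmin]
      exact covA _ _ _ _ _ (by norm_num) (by norm_num) (by norm_num) (by linarith) (by linarith)
        (by linarith) (by linarith) (by linarith))
    (by
      intro a b s M ha hb hab hs hsa hM hsq
      have h1 := ptU a b s M (43 / 100) (169 / 100) (35 / 100) (44 / 100) ha hb hab hs hM hsq
        (by norm_num) (by norm_num) (by norm_num)
      have h2 := b1_poly a ha (by linarith)
      linarith)
    (Or.inl rfl)
    (by
      intro a b s ha hb hab hs hsa hsq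
      exact ptC a b s (43 / 100) (169 / 100) (6 / 10) (19399 / 10000) (13 / 10) (771 / 100)
        ha hb hab hs hsq (by norm_num) (by norm_num) (by norm_num) (by norm_num) (by norm_num)
        (by norm_num) (by norm_num) (by norm_num) (by norm_num))
    (by
      intro a b s ha hb hab hs hsa
      exact ptN a b s (43 / 100) (169 / 100) (1195 / 1000) (13 / 10) 6
        ha hb hab hs hsa (by norm_num) (by norm_num) (by norm_num) (by norm_num) (by norm_num))
    (by
      intro a b ha hb hab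
      exact ptO a b (43 / 100) (169 / 100) (6557 / 10000) (13 / 10) (382 / 100)
        ha hb hab (by norm_num) (by norm_num) (by norm_num) (by norm_num) (by norm_num))
    (by
      rw [hmin]
      nlinarith)
  filter_upwards [hbox] with N hN A B T hConf
  refine hN A B T hConf ?_
  have h1 : ((eng 1 (-1) A A : ℕ) : ℝ) ≤ ((A.card ^ 4 : ℕ) : ℝ) := by
    exact_mod_cast eng_le4 1 (-1) A
  rw [neg_zero, Real.rpow_zero, mul_one]
  exact_mod_cast h1

end Pool.CSU
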