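import Pool.Agent.Lib.CSU.Box
import Pool.Agent.Lib.CSU.Pt
import Pool.Agent.Lib.CSU.Eng

/-!
# CSU, module B2: `435/1000 ≤ ρ ≤ 4899/10000`, `|T| ≥ N^(1393/1000 - 2ρ)`

`box` with `τ = 1393/1000 - 2ρ ∈ [4132/10000, 523/1000]`, `κA = 0`, `nA = 0`, `wA = 24/100`,
`wB = 14/10`, `wM = 39/100`, `fU = fA = 6093/1000`, `fC = 667/100`, `fN = 527/100`,
`fO = 2799/1000`.
`ρ ≤ 4464/10000`: `κT = τ`, `nT = 11/6 (2τ-1) - 5/100000 ≥ 0` (`covA`), `min ρ τ = ρ`.
`ρ ≥ 4464/10000`: `nT = 0` (`covZ`, `κT = τ`), `min ρ τ = ρ` up to `ρ = 0.46433`, then `τ`.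
`pU`: `ptU` with `s₀ = 44/100` and `b2_poly` (minimum `6.0938` at `a = 0.5251`).
`pC`: `ptC` with `a₁ = 6127/10000`, `x = 187196/100000`, `y = 118321/100000`. `pN`: `ptN` with
`x = 11135/10000`, `y = 11832/10000`. `pO`: `ptO` with `x = 48989/100000`, `y = 118321/100000`.
`num`: piecewise linear in `ρ`; reserve `> 0.005` (smallest at `ρ = 0.4464`).
Finally `eng ≤ |A|^4 = |A|^4 N^(-0)` (`eng_le4`), so there is no `Conf` at all.
-/

set_option autoImplicit false

open Finset Filter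

namespace Pool.CSU

theorem b2_poly (a : ℝ) (ha : 0 < a) (ha1 : a < 1) :
    6093 / 1000 ≤ 2 / (44 / 100) - a * a / (44 / 100) ^ 2 -
      507 / 5000 * (a * (1 - a)) / (4 * (39 / 100) * (44 / 100) ^ 4) + 24 / 100 / a +
      14 / 10 / (1 - a) := by
  have h1 : 0 < 1 - a := by linarith
  have key : 0 ≤ (2 / (44 / 100 : ℝ) - 6093 / 1000) * (a * (1 - a)) -
      a * a / (44 / 100) ^ 2 * (a * (1 - a)) -
      507 / 5000 * (a * (1 - a)) / (4 * (39 / 100) * (44 / 100) ^ 4) * (a * (1 - a)) +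
      24 / 100 * (1 - a) + 14 / 10 * a := by
    have e0 : (2 / (44 / 100 : ℝ) - 6093 / 1000) * (a * (1 - a)) -
        a * a / (44 / 100) ^ 2 * (a * (1 - a)) -
        507 / 5000 * (a * (1 - a)) / (4 * (39 / 100) * (44 / 100) ^ 4) * (a * (1 - a)) +
        24 / 100 * (1 - a) + 14 / 10 * a =
        (a - 5251 / 10000) ^ 2 * ((1481245779 / 1703680000) + (1786393 / 937024) * a + (401875 / 117128) * a ^ 2) +
          ((45928654387221 / 170368000000000000) + (-(5958867287 / 46851200000000)) * a) := by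
      ring
    rw [e0]
    have h3 : (0 : ℝ) ≤ (45928654387221 / 170368000000000000) + (-(5958867287 / 46851200000000)) * a := by nlinarith
    have h4 : 0 ≤ (a - 5251 / 10000) ^ 2 * ((1481245779 / 1703680000) + (1786393 / 937024) * a + (401875 / 117128) * a ^ 2) := by positivity
    linarith
  have e : 2 / (44 / 100) - a * a / (44 / 100) ^ 2 -
      507 / 5000 * (a * (1 - a)) / (4 * (39 / 100) * (44 / 100) ^ 4) + 24 / 100 / a +
      14 / 10 / (1 - a) - 6093 / 1000 = ((2 / (44 / 100 : ℝ) - 6093 / 1000) * (a * (1 - a)) -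
      a * a / (44 / 100) ^ 2 * (a * (1 - a)) -
      507 / 5000 * (a * (1 - a)) / (4 * (39 / 100) * (44 / 100) ^ 4) * (a * (1 - a)) +
      24 / 100 * (1 - a) + 14 / 10 * a) / (a * (1 - a)) := by
    have ha' := ha.ne'
    have h1' := h1.ne'
    field_simp
    ring
  have : 0 ≤ 2 / (44 / 100) - a * a / (44 / 100) ^ 2 -
      507 / 5000 * (a * (1 - a)) / (4 * (39 / 100) * (44 / 100) ^ 4) + 24 / 100 / a +
      14 / 10 / (1 - a) - 6093 / 1000 := by
    rw [e]
    exact div_nonneg key (mul_pos ha h1).le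
  linarith

theorem b2 (p₀ : ℕ) (ρ : ℝ) (hρ : 435 / 1000 ≤ ρ) (hρ1 : ρ ≤ 4899 / 10000) :
    ∀ᶠ N : ℕ in atTop, ∀ A B T : Finset ℤ,
      ¬ Conf p₀ N 1 (-1) ρ (1393 / 1000 - 2 * ρ) A B A A T := by
  have hU : ∀ a b s M : ℝ, 0 < a → 0 < b → a + b ≤ 1 → 0 < s → s ≤ a → 1 ≤ M →
      s ≤ a * a + √(507 / 5000 * (a * (1 - a)) * (M - 1)) →
      (6093 / 1000 : ℝ) ≤ 1 / s + 24 / 100 / a + 14 / 10 / b + 39 / 100 * (M - 1) := by
    intro a b s M ha hb hab hs hsa hM hss
    have h1 := ptU a b s M (24 / 100) (14 / 10) (39 / 100) (44 / 100) ha hb hab hs hM hss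
      (by norm_num) (by norm_num) (by norm_num)
    have h2 := b2_poly a ha (by linarith)
    linarith
  have hCC : ∀ a b s : ℝ, 0 < a → 0 < b → a + b ≤ 1 → 0 < s → s ≤ a →
      s ≤ a * a + 1 / 10 ^ 9 → (667 / 100 : ℝ) ≤ 1 / s + 24 / 100 / a + 14 / 10 / b := by
    intro a b s ha hb hab hs _ hss
    exact ptC a b s (24 / 100) (14 / 10) (6127 / 10000) (187196 / 100000) (118321 / 100000)
      (667 / 100) ha hb hab hs hss (by norm_num) (by norm_num) (by norm_num) (by norm_num)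
      (by norm_num) (by norm_num) (by norm_num) (by norm_num) (by norm_num)
  have hNN : ∀ a b s : ℝ, 0 < a → 0 < b → a + b ≤ 1 → 0 < s → s ≤ a →
      (527 / 100 : ℝ) ≤ 1 / s + 24 / 100 / a + 14 / 10 / b := by
    intro a b s ha hb hab hs hsa
    exact ptN a b s (24 / 100) (14 / 10) (11135 / 10000) (11832 / 10000) (527 / 100)
      ha hb hab hs hsa (by norm_num) (by norm_num) (by norm_num) (by norm_num) (by norm_num)
  have hOO : ∀ a b : ℝ, 0 < a → 0 < b → a + b ≤ 1 →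
      (2799 / 1000 : ℝ) ≤ 24 / 100 / a + 14 / 10 / b := by
    intro a b ha hb hab
    exact ptO a b (24 / 100) (14 / 10) (48989 / 100000) (118321 / 100000) (2799 / 1000)
      ha hb hab (by norm_num) (by norm_num) (by norm_num) (by norm_num) (by norm_num)
  have fin : ∀ nT : ℝ, 0 ≤ nT →
      CovN (1 / 100000) (1 / 100000) (1393 / 1000 - 2 * ρ) (min ρ (1393 / 1000 - 2 * ρ)) nT →
      1 + 24 / 100 + 14 / 10 + 39 / 100 * (1 - (1393 / 1000 - 2 * ρ)) + 1 / 1000 ≤
        6093 / 1000 * min ρ (1393 / 1000 - 2 * ρ) + (6093 / 1000 - 6093 / 1000) * 0 +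
        (667 / 100 - 6093 / 1000) * nT + 527 / 100 * (ρ - min ρ (1393 / 1000 - 2 * ρ)) +
        2799 / 1000 * (4899 / 10000 - ρ) →
      ∀ᶠ N : ℕ in atTop, ∀ A B T : Finset ℤ,
      ¬ Conf p₀ N 1 (-1) ρ (1393 / 1000 - 2 * ρ) A B A A T := by
    intro nT hnT hcov hnum
    have hb := box p₀ ρ (1393 / 1000 - 2 * ρ) 0 (1393 / 1000 - 2 * ρ) 0 nT (24 / 100) (14 / 10)
      (39 / 100) (6093 / 1000) (6093 / 1000) (667 / 100) (527 / 100) (2799 / 1000)
      (by linarith) hρ1 (by linarith) (by linarith) (by norm_num) le_rfl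
      (by norm_num) (by norm_num) (by norm_num) (by norm_num) (by norm_num) (by norm_num) le_rfl
      (by norm_num) (by norm_num) le_rfl hnT (covZ _ _ _ _) hcov hU (Or.inl rfl) hCC hNN hOO hnum
    filter_upwards [hb] with N h A B T hc
    refine h A B T hc ?_
    rw [neg_zero, Real.rpow_zero, mul_one]
    exact_mod_cast eng_le4 1 (-1) A
  rcases le_total ρ (4464 / 10000) with h | h
  · refine fin (11 / 6 * (2 * (1393 / 1000 - 2 * ρ) - 1) - 5 / 100000) (by linarith) ?_ ?_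
    · have hmin : min ρ (1393 / 1000 - 2 * ρ) = ρ := min_eq_left (by linarith)
      rw [hmin]
      exact covA _ _ _ _ _ (by norm_num) (by norm_num) (by norm_num) (by linarith) (by linarith)
        (by linarith) (by linarith) (by linarith)
    · have hmin : min ρ (1393 / 1000 - 2 * ρ) = ρ := min_eq_left (by linarith)
      rw [hmin]
      linarith
  · refine fin 0 le_rfl (covZ _ _ _ _) ?_
    rcases le_total ρ (1393 / 1000 - 2 * ρ) with h' | h'
    · rw [min_eq_left h']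
      linarith
    · rw [min_eq_right h']
      linarith

end Pool.CSU
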