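import Pool.Agent.Lib.CSU.Box
import Pool.Agent.Lib.CSU.Pt
import Pool.Agent.Lib.CSU.Eng

/-!
# CSU, module B3: `3127/10000 ≤ ρ ≤ 3625/10000`, `|T| ≥ N^(1292/1000 - 2ρ)`

`box` with `τ = 1292/1000 - 2ρ ∈ [567/1000, 6666/10000]` (`min ρ τ = ρ`), `κA = 0`, `nA = 0`,
`wA = 1575/1000`, `wB = 336/100`, `wM = 0`, `fU = fA = fN = 11817/1000`, `fC = 13634/1000`,
`fO = 9535/1000`. Six ranges (`κT ≤ τ` in each; `ε = c = 1/100000`):
`ρ ∈ [.3127, .33]`: `κT = 632/1000`, `nT = 3127/10000 - 1/100000` (`covC` with `x = .3127`,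
`covMono`); `ρ ∈ [.33, .3455]`: `κT = 601/1000`, `nT = 3/10 - 1/100000` (`covC`, `x = .3`,
`covMono`); `ρ ∈ [.3455, .3535]`: `κT = 585/1000`, `nT = 28/100 - 5/100000` (`covB`);
`ρ ∈ [.3535, .36]`: `κT = 572/1000`, `nT = 4/3 κT - 1/2 - 5/100000` (`covB`);
`ρ ∈ [.36, .361]`: `κT = 57/100`, `nT = 11/6 (2κT-1) - 5/100000` (`covA`);
`ρ ∈ [.361, .3625]`: `κT = 567/1000`, `nT = 11/6 (2κT-1) - 5/100000` (`covA`).
`pU`, `pN`: `ptN` with `x = 16046/10000`, `y = 18330/10000`. `pC`: `ptC` with `a₁ = 554/1000`,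
`x = 227708/100000`, `y = 183303/100000`. `pO`: `ptO` with `x = 12549/10000`, `y = 18330/10000`.
`num`: linear in `ρ`; the smallest reserve is `0.005` (at `ρ = .361`, last range).
-/

set_option autoImplicit false

open Finset Filter

namespace Pool.CSU

private theorem b3_aux (p₀ : ℕ) (ρ κT nT : ℝ) (hρ : 3127 / 10000 ≤ ρ) (hρ1 : ρ ≤ 3625 / 10000)
    (hκ : κT ≤ 1292 / 1000 - 2 * ρ) (hn : 0 ≤ nT)
    (cT : CovN (1 / 100000) (1 / 100000) κT ρ nT)
    (num : 5936 / 1000 ≤ 11817 / 1000 * ρ + 1817 / 1000 * nT +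
      9535 / 1000 * (4899 / 10000 - ρ)) :
    ∀ᶠ N : ℕ in atTop, ∀ A B T : Finset ℤ,
      ¬ Conf p₀ N 1 (-1) ρ (1292 / 1000 - 2 * ρ) A B A A T := by
  have hmin : min ρ (1292 / 1000 - 2 * ρ) = ρ := min_eq_left (by linarith)
  have h := box p₀ ρ (1292 / 1000 - 2 * ρ) 0 κT 0 nT (1575 / 1000) (336 / 100) 0
    (11817 / 1000) (11817 / 1000) (13634 / 1000) (11817 / 1000) (9535 / 1000)
    (by linarith) (by linarith) (by linarith) (by linarith) (by norm_num) hκ
    (by norm_num) (by norm_num) le_rfl (by norm_num) (by norm_num) (by norm_num) le_rfl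
    (by norm_num) (by norm_num) le_rfl hn (covZ _ _ _ _) (by rw [hmin]; exact cT)
    (fun a b s M ha hb hab hs hsa _ _ => by
      rw [zero_mul, add_zero]
      exact ptN a b s (1575 / 1000) (336 / 100) (16046 / 10000) (18330 / 10000) (11817 / 1000)
        ha hb hab hs hsa (by norm_num) (by norm_num) (by norm_num) (by norm_num) (by norm_num))
    (Or.inl rfl)
    (fun a b s ha hb hab hs _ hsq =>
      ptC a b s (1575 / 1000) (336 / 100) (554 / 1000) (227708 / 100000) (183303 / 100000)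
        (13634 / 1000) ha hb hab hs hsq (by norm_num) (by norm_num) (by norm_num) (by norm_num)
        (by norm_num) (by norm_num) (by norm_num) (by norm_num) (by norm_num))
    (fun a b s ha hb hab hs hsa =>
      ptN a b s (1575 / 1000) (336 / 100) (16046 / 10000) (18330 / 10000) (11817 / 1000)
        ha hb hab hs hsa (by norm_num) (by norm_num) (by norm_num) (by norm_num) (by norm_num))
    (fun a b ha hb hab =>
      ptO a b (1575 / 1000) (336 / 100) (12549 / 10000) (18330 / 10000) (9535 / 1000) ha hb hab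
        (by norm_num) (by norm_num) (by norm_num) (by norm_num) (by norm_num))
    (by rw [hmin]; linarith)
  filter_upwards [h] with N hN A B T hC
  refine hN A B T hC ?_
  rw [neg_zero, Real.rpow_zero, mul_one]
  exact_mod_cast eng_le4 1 (-1) A

theorem b3 (p₀ : ℕ) (ρ : ℝ) (hρ : 3127 / 10000 ≤ ρ) (hρ1 : ρ ≤ 3625 / 10000) :
    ∀ᶠ N : ℕ in atTop, ∀ A B T : Finset ℤ,
      ¬ Conf p₀ N 1 (-1) ρ (1292 / 1000 - 2 * ρ) A B A A T := by
  rcases le_total ρ (33 / 100) with h1 | h1
  · exact b3_aux p₀ ρ (632 / 1000) (3127 / 10000 - 1 / 100000) hρ hρ1 (by linarith) (by norm_num)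
      (covMono _ _ _ (3127 / 10000) ρ _ hρ
        (covC _ _ _ _ _ (by norm_num) (by norm_num) (by norm_num) (by norm_num) (by norm_num)
          (by norm_num) (by norm_num))) (by linarith)
  rcases le_total ρ (3455 / 10000) with h2 | h2
  · exact b3_aux p₀ ρ (601 / 1000) (3 / 10 - 1 / 100000) hρ hρ1 (by linarith) (by norm_num)
      (covMono _ _ _ (3 / 10) ρ _ (by linarith)
        (covC _ _ _ _ _ (by norm_num) (by norm_num) (by norm_num) (by norm_num) (by norm_num)
          (by norm_num) (by norm_num))) (by linarith)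
  rcases le_total ρ (3535 / 10000) with h3 | h3
  · exact b3_aux p₀ ρ (585 / 1000) (28 / 100 - 5 / 100000) hρ hρ1 (by linarith) (by norm_num)
      (covB _ _ _ _ _ (by norm_num) (by norm_num) (by norm_num) (by norm_num) (by norm_num)
        (by linarith) (by linarith) (by norm_num)) (by linarith)
  rcases le_total ρ (36 / 100) with h4 | h4
  · exact b3_aux p₀ ρ (572 / 1000) (4 / 3 * (572 / 1000) - 1 / 2 - 5 / 100000) hρ hρ1
      (by linarith) (by norm_num)
      (covB _ _ _ _ _ (by norm_num) (by norm_num) (by norm_num) (by norm_num) (by norm_num)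
        (by linarith) (by linarith) (by norm_num)) (by linarith)
  rcases le_total ρ (361 / 1000) with h5 | h5
  · exact b3_aux p₀ ρ (57 / 100) (11 / 6 * (2 * (57 / 100) - 1) - 5 / 100000) hρ hρ1
      (by linarith) (by norm_num)
      (covA _ _ _ _ _ (by norm_num) (by norm_num) (by norm_num) (by norm_num) (by linarith)
        (by linarith) (by linarith) (by norm_num)) (by linarith)
  · exact b3_aux p₀ ρ (567 / 1000) (11 / 6 * (2 * (567 / 1000) - 1) - 5 / 100000) hρ hρ1
      (by linarith) (by norm_num)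
      (covA _ _ _ _ _ (by norm_num) (by norm_num) (by norm_num) (by norm_num) (by linarith)
        (by linarith) (by linarith) (by norm_num)) (by linarith)

end Pool.CSU
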