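import Pool.Agent.Lib.CSU.Box
import Pool.Agent.Lib.CSU.Pt

/-!
# CSU, module B4: `3625/10000 ≤ ρ ≤ 38/100`, `|T| ≥ N^(1292/1000 - 2ρ)`, `A` with small energy

`box` with `τ = 1292/1000 - 2ρ ∈ [532/1000, 567/1000]` (`min ρ τ = ρ`), `κA = 566/1000`,
`nA = 242/1000 - 5/100000` (`covA`: `11/6 (2κA - 1) = 0.242`), `κT = min τ (566/1000)`,
`nT = 11/6 (2κT-1) - 5/100000` (`covA`), `wA = 16/10`, `wB = 309/100`, `wM = 0`,
`fU = fN = 11358/1000`, `fA = 12763/1000`, `fC = 13067/1000`, `fO = 9136/1000`.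
`pU`, `pN`: `ptN` with `x = 16124/10000`, `y = 17578/10000`. `pA`: `ptA` with `r = 12649/10000`,
`x = 20321/10000`, `y = 17578/10000`. `pC`: `ptC` with `a₁ = 5635/10000`, `x = 226919/100000`,
`y = 1757839/1000000`. `pO`: `ptO` with `x = 12649/10000`, `y = 17578/10000`.
`num`: linear in `ρ` for `ρ ≤ 363/1000` (`κT = 566/1000`) and for `ρ ≥ 363/1000` (`κT = τ`); the
smallest reserve is `0.0036` at `ρ = 3625/10000`.
-/

set_option autoImplicit false

open Finset Filter

namespace Pool.CSU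

private theorem b4_aux (p₀ : ℕ) (ρ κT nT : ℝ) (hρ : 3625 / 10000 ≤ ρ) (hρ1 : ρ ≤ 38 / 100)
    (hκT : κT ≤ 1292 / 1000 - 2 * ρ) (_hκT1 : κT ≤ 566 / 1000)
    (hnT0 : 0 ≤ nT) (hnT : nT = 11 / 6 * (2 * κT - 1) - 5 / 100000)
    (num : 5691 / 1000 ≤ 11358 / 1000 * ρ + 1405 / 1000 * (242 / 1000 - 5 / 100000) +
      304 / 1000 * nT + 9136 / 1000 * (4899 / 10000 - ρ)) :
    ∀ᶠ N : ℕ in atTop, ∀ A B T : Finset ℤ,
      Conf p₀ N 1 (-1) ρ (1292 / 1000 - 2 * ρ) A B A A T →
      ¬ ((eng 1 (-1) A A : ℝ) ≤ (A.card : ℝ) ^ 4 * (N : ℝ) ^ (-(566 / 1000) : ℝ)) := by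
  have hmin : min ρ (1292 / 1000 - 2 * ρ) = ρ := min_eq_left (by linarith)
  refine box p₀ ρ (1292 / 1000 - 2 * ρ) (566 / 1000) κT (242 / 1000 - 5 / 100000) nT
    (16 / 10) (309 / 100) 0 (11358 / 1000) (12763 / 1000) (13067 / 1000) (11358 / 1000)
    (9136 / 1000) (by linarith) (by linarith) (by linarith) (by linarith) (by norm_num) hκT
    (by norm_num) (by norm_num) le_rfl (by norm_num) (by norm_num) (by norm_num) (by norm_num)
    (by norm_num) (by norm_num) (by norm_num) hnT0 ?_ ?_ ?_ ?_ ?_ ?_ ?_ ?_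
  · rw [hmin]
    exact covA _ _ _ _ _ (by norm_num) (by norm_num) (by norm_num) (by norm_num)
      (by linarith) (by linarith) (by linarith) (by norm_num)
  · rw [hmin]
    refine covA _ _ _ _ _ (by norm_num) (by norm_num) (by norm_num) (by linarith)
      (by linarith) (by linarith) (by linarith) (by rw [hnT]; linarith)
  · intro a b s M ha hb hab hs hsa _ _
    rw [zero_mul, add_zero]
    exact ptN a b s _ _ (16124 / 10000) (17578 / 10000) _ ha hb hab hs hsa (by norm_num)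
      (by norm_num) (by norm_num) (by norm_num) (by norm_num)
  · right
    intro a b s y ha hb hab hs _ hy hsy
    exact ptA a b s y _ _ (12649 / 10000) (20321 / 10000) (17578 / 10000) _ ha hb hab hs hy hsy
      (by norm_num) (by norm_num) (by norm_num) (by norm_num) (by norm_num) (by norm_num)
      (by norm_num) (by norm_num) (by norm_num) (by norm_num)
  · intro a b s ha hb hab hs _ hsy
    exact ptC a b s _ _ (5635 / 10000) (226919 / 100000) (1757839 / 1000000) _ ha hb hab hs hsy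
      (by norm_num) (by norm_num) (by norm_num) (by norm_num) (by norm_num) (by norm_num)
      (by norm_num) (by norm_num) (by norm_num)
  · intro a b s ha hb hab hs hsa
    exact ptN a b s _ _ (16124 / 10000) (17578 / 10000) _ ha hb hab hs hsa (by norm_num)
      (by norm_num) (by norm_num) (by norm_num) (by norm_num)
  · intro a b ha hb hab
    exact ptO a b _ _ (12649 / 10000) (17578 / 10000) _ ha hb hab (by norm_num) (by norm_num)
      (by norm_num) (by norm_num) (by norm_num)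
  · rw [hmin]
    linarith

theorem b4 (p₀ : ℕ) (ρ : ℝ) (hρ : 3625 / 10000 ≤ ρ) (hρ1 : ρ ≤ 38 / 100) :
    ∀ᶠ N : ℕ in atTop, ∀ A B T : Finset ℤ,
      Conf p₀ N 1 (-1) ρ (1292 / 1000 - 2 * ρ) A B A A T →
      ¬ ((eng 1 (-1) A A : ℝ) ≤ (A.card : ℝ) ^ 4 * (N : ℝ) ^ (-(566 / 1000) : ℝ)) := by
  rcases le_total ρ (363 / 1000) with h | h
  · exact b4_aux p₀ ρ (566 / 1000) (11 / 6 * (2 * (566 / 1000) - 1) - 5 / 100000) hρ hρ1
      (by linarith) le_rfl (by norm_num) rfl (by linarith)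
  · exact b4_aux p₀ ρ (1292 / 1000 - 2 * ρ)
      (11 / 6 * (2 * (1292 / 1000 - 2 * ρ) - 1) - 5 / 100000) hρ hρ1
      le_rfl (by linarith) (by linarith) rfl (by linarith)

end Pool.CSU
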