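import Pool.Agent.Lib.CSU.Box
import Pool.Agent.Lib.CSU.Pt

/-!
# CSU, module B5: `38/100 ≤ ρ ≤ 4899/10000`, `|T| ≥ N^(1292/1000 - 2ρ)`, `A` with small energy

`box` with `τ = 1292/1000 - 2ρ ∈ [3122/10000, 532/1000]`, `κA = 566/1000`,
`nA = 242/1000 - 5/100000` (`covA`: `κA/2 = 0.283 ≤ min ρ τ`), `κT = τ`, `nT = 0` (`covZ`),
`wA = 272/100`, `wB = 416/100`, `wM = 0`, `fU = fN = 15747/1000`, `fA = fC = 17465/1000`,
`fO = 13607/1000`.
`pU`, `pN`: `ptN` with `x = 19287/10000`, `y = 20396/10000`. `pA`: `ptA` with `r = 16492/10000`,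
`x = 24532/10000`, `y = 20396/10000`. `pC`: `ptC` with `a₁ = 5525/10000`, `x = 25179/10000`,
`y = 20396/10000`. `pO`: `ptO` with `x = 16492/10000`, `y = 20396/10000`.
`num`: `fU min ρ τ + fN (ρ - min ρ τ) = fU ρ`; linear in `ρ`; the smallest reserve is `0.013` at
`ρ = 38/100`.
-/

set_option autoImplicit false

open Finset Filter

namespace Pool.CSU

theorem b5 (p₀ : ℕ) (ρ : ℝ) (hρ : 38 / 100 ≤ ρ) (hρ1 : ρ ≤ 4899 / 10000) :
    ∀ᶠ N : ℕ in atTop, ∀ A B T : Finset ℤ,
      Conf p₀ N 1 (-1) ρ (1292 / 1000 - 2 * ρ) A B A A T →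
      ¬ ((eng 1 (-1) A A : ℝ) ≤ (A.card : ℝ) ^ 4 * (N : ℝ) ^ (-(566 / 1000) : ℝ)) := by
  have hmin : 283 / 1000 ≤ min ρ (1292 / 1000 - 2 * ρ) := le_min (by linarith) (by linarith)
  have hmin1 : min ρ (1292 / 1000 - 2 * ρ) ≤ 1 := (min_le_left _ _).trans (by linarith)
  refine box p₀ ρ (1292 / 1000 - 2 * ρ) (566 / 1000) (1292 / 1000 - 2 * ρ)
    (242 / 1000 - 5 / 100000) 0
    (272 / 100) (416 / 100) 0 (15747 / 1000) (17465 / 1000) (17465 / 1000) (15747 / 1000)
    (13607 / 1000) (by linarith) (by linarith) (by linarith) (by linarith) (by norm_num) le_rfl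
    (by norm_num) (by norm_num) le_rfl (by norm_num) (by norm_num) (by norm_num) (by norm_num)
    (by norm_num) (by norm_num) (by norm_num) le_rfl ?_ ?_ ?_ ?_ ?_ ?_ ?_ ?_
  · exact covA _ _ _ _ _ (by norm_num) (by norm_num) (by norm_num) (by norm_num)
      (by linarith) (by linarith) hmin1 (by norm_num)
  · exact covZ _ _ _ _
  · intro a b s M ha hb hab hs hsa _ _
    rw [zero_mul, add_zero]
    exact ptN a b s _ _ (19287 / 10000) (20396 / 10000) _ ha hb hab hs hsa (by norm_num)
      (by norm_num) (by norm_num) (by norm_num) (by norm_num)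
  · right
    intro a b s y ha hb hab hs _ hy hsy
    exact ptA a b s y _ _ (16492 / 10000) (24532 / 10000) (20396 / 10000) _ ha hb hab hs hy hsy
      (by norm_num) (by norm_num) (by norm_num) (by norm_num) (by norm_num) (by norm_num)
      (by norm_num) (by norm_num) (by norm_num) (by norm_num)
  · intro a b s ha hb hab hs _ hsy
    exact ptC a b s _ _ (5525 / 10000) (25179 / 10000) (20396 / 10000) _ ha hb hab hs hsy
      (by norm_num) (by norm_num) (by norm_num) (by norm_num) (by norm_num) (by norm_num)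
      (by norm_num) (by norm_num) (by norm_num)
  · intro a b s ha hb hab hs hsa
    exact ptN a b s _ _ (19287 / 10000) (20396 / 10000) _ ha hb hab hs hsa (by norm_num)
      (by norm_num) (by norm_num) (by norm_num) (by norm_num)
  · intro a b ha hb hab
    exact ptO a b _ _ (16492 / 10000) (20396 / 10000) _ ha hb hab (by norm_num) (by norm_num)
      (by norm_num) (by norm_num) (by norm_num)
  · nlinarith

end Pool.CSU
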