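import Pool.Agent.Lib.CSU.Skel
import Pool.Agent.Lib.CSU.BadA
import Pool.Agent.Lib.CSU.CovS

/-!
# CSU, module Box: the linear programming step

`L = log N`, `ε = c = 1/100000`, `η = 1/10^15`, `K = 100000`, `δ = 1/10^9 ≥ 3ηK, η`,
`θ = 4899/10000`, `lim = min ρ τ`. A box is the choice of the weights `wA, wB, wM` and lower bounds
`fU ≤ fA ≤ fC` (primes up to `N^lim`), `fN` (`N^lim < p ≤ N^ρ`), `fO` (`N^ρ < p ≤ N^θ`) of
`g_p = 1/s + wA (1/a + y) + wB/b + wM (M - 1)` (`a = dn A p`, `b = dn B p`, `s = sn`, `y = yv A p`,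
`M = Mv T p`; without `wM (M-1)` for `p > N^lim` and without `1/s` for `p > N^ρ`).

`box`. Proof. From `skel` (`X = Y = A`, `l = 1`, `m = -1`):
`∑_{prI ε θ} wt g ≤ (1 + wA + wB + wM (1-τ)) L + C` (`S1`, `SA`, `SB`, `SM`).
Let `D₁ = prI ε lim`, `D₂ = prI lim ρ`, `D₃ = prI ρ θ` (disjoint, union `prI ε θ`: `prI_split`,
`prI_disj`), `CA = D₁ ∩ covK κA` (empty if `nA = 0`), `CT = D₁ ∩ covK κT` with the `m0`s of `cA`,
`cT`. Exceptional primes: `RA = {p ∈ CA : Bad η A p}` (`∑ wt ≤ 1`, `badA`, `κA`),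
`RT = {p ∈ CT : Bad η T p}` (`∑ wt ≤ 1`, `badT` with `H = 2`, as `N^κT ≤ N^τ ≤ |T|`),
`RK = {p ∈ D₁ : Mv T p > K or Mv A p > K}`: `∑_{RK} wt ≤ ∑_{D₁} wt (M_T - 1)/(K-1) +
∑_{D₁} wt (1/a + y)/K ≤ (L + C)/(K-1) + (L + C)/K` (`yA` field, `SM`, `SA`).
Pointwise on `D₁`: `g ≥ fU + (fA - fU) 1[p ∈ CA \ (RA ∪ RK)] + (fC - fA) 1[p ∈ CT \ RT]`
(`pU` always, as `s ≤ a` and `sU` (here `sU` reads `s ≤ a·a + √(c (a(1-a)) (M-1))`);
`pA` with `sA` (`√(y·y) = y`, `dn A·dn A·(1 + y) + 3ηK`); `pC` with `sC` and `y ≥ 0`; if only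
`p ∈ CT \ RT`: `fU + (fC - fA) ≤ fC`). On `D₂`: `g ≥ fN` (`pN`, `y ≥ 0`); on `D₃`: `g ≥ fO`.
Sum: `∑ wt g ≥ fU (lim - ε) L + (fA - fU)(nA L - ∑_{RA} - ∑_{RK}) + (fC - fA)(nT L - ∑_{RT}) +
fN (ρ - lim) L + fO (θ - ρ) L - C` (`mer`, `cA`, `cT`; `fU, fN, fO ≥ 0`). The losses are at most
`20 ε + 20 (1/(K-1) + 1/K) < 7/10000` per `L`, and `num` has the reserve `1/1000`: contradiction
for `N` large.
-/

set_option autoImplicit false

open Finset Filter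

namespace Pool.CSU

open Pool.Agent.Lib.MP_4b09b1_nt (res pairs)
open Pool.CSE (G rep Bad prI wt dens sv Mv val pop)

private theorem Box_core (D E₁ E₂ : Finset ℕ) (h1 : E₁ ⊆ D) (h2 : E₂ ⊆ D) (w g : ℕ → ℝ)
    (hw : ∀ p, 0 ≤ w p) (fU fA fC : ℝ) (hUA : fU ≤ fA)
    (gU : ∀ p ∈ D, fU ≤ g p) (gA : ∀ p ∈ E₁, fA ≤ g p) (gC : ∀ p ∈ E₂, fC ≤ g p) :
    fU * ∑ p ∈ D, w p + (fA - fU) * ∑ p ∈ E₁, w p + (fC - fA) * ∑ p ∈ E₂, w p ≤
      ∑ p ∈ D, w p * g p := by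
  classical
  have e1 : ∑ p ∈ E₁, w p = ∑ p ∈ D, if p ∈ E₁ then w p else 0 := by
    rw [Finset.sum_ite_mem, Finset.inter_eq_right.2 h1]
  have e2 : ∑ p ∈ E₂, w p = ∑ p ∈ D, if p ∈ E₂ then w p else 0 := by
    rw [Finset.sum_ite_mem, Finset.inter_eq_right.2 h2]
  rw [e1, e2, Finset.mul_sum, Finset.mul_sum, Finset.mul_sum, ← Finset.sum_add_distrib,
    ← Finset.sum_add_distrib]
  refine Finset.sum_le_sum fun p hp => ?_
  have hwp := hw p
  have hg := gU p hp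
  by_cases c1 : p ∈ E₁
  · by_cases c2 : p ∈ E₂
    · rw [if_pos c1, if_pos c2]
      have := mul_le_mul_of_nonneg_left (gC p c2) hwp
      nlinarith
    · rw [if_pos c1, if_neg c2]
      have := mul_le_mul_of_nonneg_left (gA p c1) hwp
      nlinarith
  · by_cases c2 : p ∈ E₂
    · rw [if_neg c1, if_pos c2]
      have := mul_le_mul_of_nonneg_left (gC p c2) hwp
      have h3 := mul_nonneg hwp (sub_nonneg.2 hUA)
      nlinarith
    · rw [if_neg c1, if_neg c2]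
      have := mul_le_mul_of_nonneg_left hg hwp
      nlinarith

/-- the weight of a set without two exceptional sets -/
private theorem Box_sdiff (E R S : Finset ℕ) (w : ℕ → ℝ) (hw : ∀ p, 0 ≤ w p) :
    ∑ p ∈ E, w p ≤ ∑ p ∈ E \ (R ∪ S), w p + ∑ p ∈ R, w p + ∑ p ∈ S, w p := by
  classical
  have h1 : ∑ p ∈ E, w p ≤ ∑ p ∈ (E \ (R ∪ S)) ∪ (R ∪ S), w p :=
    Finset.sum_le_sum_of_subset_of_nonneg (by
      intro p hp
      rw [Finset.mem_union, Finset.mem_sdiff]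
      by_cases h : p ∈ R ∪ S
      · exact Or.inr h
      · exact Or.inl ⟨hp, h⟩) fun p _ _ => hw p
  have h2 : ∑ p ∈ (E \ (R ∪ S)) ∪ (R ∪ S), w p =
      ∑ p ∈ E \ (R ∪ S), w p + ∑ p ∈ R ∪ S, w p :=
    Finset.sum_union Finset.sdiff_disjoint
  have h3 : ∑ p ∈ R ∪ S, w p ≤ ∑ p ∈ R, w p + ∑ p ∈ S, w p := by
    have := Finset.sum_union_inter (s₁ := R) (s₂ := S) (f := w)
    have h0 : 0 ≤ ∑ p ∈ R ∩ S, w p := Finset.sum_nonneg fun p _ => hw p
    linarith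
  linarith

/-- primes with a large collision weight are rare -/
private theorem Box_rare (D : Finset ℕ) (w M Y : ℕ → ℝ) (hw : ∀ p, 0 ≤ w p)
    (hM : ∀ p ∈ D, 1 ≤ M p) (hY : ∀ p ∈ D, 0 ≤ Y p) (R : Finset ℕ) (hR : R ⊆ D)
    (hRR : ∀ p ∈ R, 100000 < M p ∨ 100000 < Y p) :
    ∑ p ∈ R, w p ≤ (∑ p ∈ D, w p * (M p - 1)) / 99999 + (∑ p ∈ D, w p * Y p) / 100000 := by
  classical
  rw [Finset.sum_div, Finset.sum_div, ← Finset.sum_add_distrib]
  have h0 : ∀ p ∈ D, 0 ≤ w p * (M p - 1) / 99999 + w p * Y p / 100000 := by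
    intro p hp
    have h1 := mul_nonneg (hw p) (sub_nonneg.2 (hM p hp))
    have h2 := mul_nonneg (hw p) (hY p hp)
    positivity
  refine le_trans (Finset.sum_le_sum fun p hp => ?_)
    (Finset.sum_le_sum_of_subset_of_nonneg hR fun p hp _ => h0 p hp)
  have hD := hR hp
  have h1 := mul_nonneg (hw p) (sub_nonneg.2 (hM p hD))
  have h2 := mul_nonneg (hw p) (hY p hD)
  rcases hRR p hp with h | h
  · have h3 : w p * 99999 ≤ w p * (M p - 1) :=
      mul_le_mul_of_nonneg_left (by linarith) (hw p)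
    have h4 : 0 ≤ w p * Y p / 100000 := by positivity
    have h5 : w p ≤ w p * (M p - 1) / 99999 := by
      rw [le_div_iff₀ (by norm_num)]; exact h3
    linarith
  · have h3 : w p * 100000 ≤ w p * Y p :=
      mul_le_mul_of_nonneg_left h.le (hw p)
    have h4 : 0 ≤ w p * (M p - 1) / 99999 := by positivity
    have h5 : w p ≤ w p * Y p / 100000 := by
      rw [le_div_iff₀ (by norm_num)]; exact h3
    linarith

theorem box (p₀ : ℕ) (ρ τ κA κT nA nT wA wB wM fU fA fC fN fO : ℝ)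
    (hρ : 1 / 4 ≤ ρ) (hρ1 : ρ ≤ 4899 / 10000) (hτ : 1 / 4 ≤ τ) (hτ1 : τ ≤ 1)
    (hκA : κA ≤ 1) (hκT : κT ≤ τ)
    (hwA : 0 ≤ wA) (hwB : 0 ≤ wB) (hwM : 0 ≤ wM)
    (hO : 0 ≤ fO) (hN : 0 ≤ fN) (hU : 0 ≤ fU) (hUA : fU ≤ fA) (hAC : fA ≤ fC) (hC : fC ≤ 20)
    (hnA : 0 ≤ nA) (hnT : 0 ≤ nT)
    (cA : CovN (1 / 100000) (1 / 100000) κA (min ρ τ) nA)
    (cT : CovN (1 / 100000) (1 / 100000) κT (min ρ τ) nT)
    (pU : ∀ a b s M : ℝ, 0 < a → 0 < b → a + b ≤ 1 → 0 < s → s ≤ a → 1 ≤ M →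
      s ≤ a * a + √(507 / 5000 * (a * (1 - a)) * (M - 1)) →
      fU ≤ 1 / s + wA / a + wB / b + wM * (M - 1))
    (pA : nA = 0 ∨ ∀ a b s y : ℝ, 0 < a → 0 < b → a + b ≤ 1 → 0 < s → s ≤ a → 0 ≤ y →
      s ≤ a * a * (1 + y) + 1 / 10 ^ 9 → fA ≤ 1 / s + wA * (1 / a + y) + wB / b)
    (pC : ∀ a b s : ℝ, 0 < a → 0 < b → a + b ≤ 1 → 0 < s → s ≤ a → s ≤ a * a + 1 / 10 ^ 9 →
      fC ≤ 1 / s + wA / a + wB / b)
    (pN : ∀ a b s : ℝ, 0 < a → 0 < b → a + b ≤ 1 → 0 < s → s ≤ a →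
      fN ≤ 1 / s + wA / a + wB / b)
    (pO : ∀ a b : ℝ, 0 < a → 0 < b → a + b ≤ 1 → fO ≤ wA / a + wB / b)
    (num : 1 + wA + wB + wM * (1 - τ) + 1 / 1000 ≤
      fU * min ρ τ + (fA - fU) * nA + (fC - fA) * nT + fN * (ρ - min ρ τ) +
        fO * (4899 / 10000 - ρ)) :
    ∀ᶠ N : ℕ in atTop, ∀ A B T : Finset ℤ, Conf p₀ N 1 (-1) ρ τ A B A A T →
      ¬ ((eng 1 (-1) A A : ℝ) ≤ (A.card : ℝ) ^ 4 * (N : ℝ) ^ (-κA)) := by
  classical
  obtain ⟨lim, hlim⟩ : ∃ lim : ℝ, lim = min ρ τ := ⟨_, rfl⟩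
  rw [← hlim] at cA cT num
  have hl1 : 1 / 4 ≤ lim := by rw [hlim]; exact le_min hρ hτ
  have hl2 : lim ≤ ρ := by rw [hlim]; exact min_le_left _ _
  obtain ⟨C1, hsk⟩ := skel p₀ 1 (-1) one_ne_zero (by norm_num) ρ τ (1 / 100000) (1 / 10 ^ 15)
    100000 hρ hρ1 (by linarith) hτ1 (by norm_num) (by norm_num) (by norm_num) (by norm_num)
    (by norm_num)
  obtain ⟨mA, hmA, CA, hCA⟩ := cA
  obtain ⟨mT, hmT, CT, hCT⟩ := cT
  obtain ⟨M1, hM1, hm1⟩ := Pool.CSE.mer (1 / 100000) lim (by norm_num) (by linarith)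
  obtain ⟨M2, hM2, hm2⟩ := Pool.CSE.mer lim ρ (by linarith) (by linarith)
  obtain ⟨M3, hM3, hm3⟩ := Pool.CSE.mer ρ (4899 / 10000) (by linarith) (by norm_num)
  have hbT := badT 2 mT (1 / 10 ^ 15) κT (1 / 100000) (1 / 100000) (by norm_num) (by norm_num)
    (by linarith) (by norm_num) (by norm_num) hmT
  have hbA := badA mA (1 / 10 ^ 15) κA (1 / 100000) (1 / 100000) (by norm_num) (by norm_num)
    hκA (by norm_num) (by norm_num) hmA
  have hlog : Tendsto (fun N : ℕ => Real.log N) atTop atTop :=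
    Real.tendsto_log_atTop.comp tendsto_natCast_atTop_atTop
  filter_upwards [hsk, hbT, hbA, eventually_ge_atTop 2, hlog.eventually_gt_atTop
    ((20 * (|CA| + 1 + 2 * |C1|) + 20 * (|CT| + 1) + fU * M1 + fN * M2 + fO * M3 +
      (1 + wA + wB + wM) * |C1|) * 10000), hlog.eventually_gt_atTop 0]
    with N h1 h2 h3 h4 h5 h6 A B T hconf hE
  have S := h1 A B A A T hconf
  have hN1 : 1 ≤ N := by omega
  have hN0 : (0 : ℝ) < N := by exact_mod_cast (by omega : 0 < N)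
  have hw : ∀ p, 0 ≤ wt p := fun p => Pool.CSE.mer_wt_nonneg p
  obtain ⟨D₁, hD₁⟩ : ∃ D : Finset ℕ, D = prI N (1 / 100000) lim := ⟨_, rfl⟩
  obtain ⟨D₂, hD₂⟩ : ∃ D : Finset ℕ, D = prI N lim ρ := ⟨_, rfl⟩
  obtain ⟨D₃, hD₃⟩ : ∃ D : Finset ℕ, D = prI N ρ (4899 / 10000) := ⟨_, rfl⟩
  have i12 : prI N (1 / 100000) ρ = D₁ ∪ D₂ := by
    rw [hD₁, hD₂]; exact Pool.CSE.prI_split hN1 (by linarith) hl2
  have i123 : prI N (1 / 100000) (4899 / 10000) = (D₁ ∪ D₂) ∪ D₃ := by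
    rw [← i12, hD₃]; exact Pool.CSE.prI_split hN1 (by linarith) hρ1
  have d12 : Disjoint D₁ D₂ := by
    rw [hD₁, hD₂]; exact Pool.CSE.prI_disj hN1 le_rfl
  have d123 : Disjoint (D₁ ∪ D₂) D₃ := by
    rw [← i12, hD₃]; exact Pool.CSE.prI_disj hN1 le_rfl
  have m1 : ∀ p ∈ D₁, p ∈ prI N (1 / 100000) ρ := fun p hp => by
    rw [i12]; exact Finset.mem_union_left _ hp
  have m2 : ∀ p ∈ D₂, p ∈ prI N (1 / 100000) ρ := fun p hp => by
    rw [i12]; exact Finset.mem_union_right _ hp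
  have m0 : ∀ p ∈ prI N (1 / 100000) ρ, p ∈ prI N (1 / 100000) (4899 / 10000) := fun p hp => by
    rw [i123, ← i12]; exact Finset.mem_union_left _ hp
  have m3 : ∀ p ∈ D₃, p ∈ prI N (1 / 100000) (4899 / 10000) := fun p hp => by
    rw [i123]; exact Finset.mem_union_right _ hp
  -- the summands
  obtain ⟨s, hs⟩ : ∃ s : ℕ → ℝ, s = fun p => sn 1 (-1) A A T p := ⟨_, rfl⟩
  obtain ⟨a, ha⟩ : ∃ a : ℕ → ℝ, a = fun p => dn A p := ⟨_, rfl⟩
  obtain ⟨b, hb⟩ : ∃ b : ℕ → ℝ, b = fun p => dn B p := ⟨_, rfl⟩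
  obtain ⟨y, hy⟩ : ∃ y : ℕ → ℝ, y = fun p => yv A p := ⟨_, rfl⟩
  obtain ⟨z, hz⟩ : ∃ z : ℕ → ℝ, z = fun p => yv B p := ⟨_, rfl⟩
  obtain ⟨M, hM⟩ : ∃ M : ℕ → ℝ, M = fun p => Mv T p := ⟨_, rfl⟩
  have a0 : ∀ p ∈ prI N (1 / 100000) (4899 / 10000), 0 < a p ∧ 0 < b p ∧ a p + b p ≤ 1 ∧
      0 ≤ y p ∧ 0 ≤ z p ∧ Mv A p ≤ 1 / a p + y p := by
    intro p hp
    obtain ⟨q1, q2, q3⟩ := S.dA p hp
    obtain ⟨q4, q5, q6, q7⟩ := S.yA p hp
    rw [ha, hb, hy, hz]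
    exact ⟨q1, q2, q3, q4, q6, q5⟩
  have s0 : ∀ p ∈ prI N (1 / 100000) ρ, 0 < s p ∧ s p ≤ a p ∧ 1 ≤ M p := by
    intro p hp
    obtain ⟨q1, q2, q3, q4⟩ := S.s0 p hp
    rw [hs, ha, hM]
    exact ⟨q1, q2, q4⟩
  have sU : ∀ p ∈ prI N (1 / 100000) ρ,
      s p ≤ a p * a p + √(507 / 5000 * (a p * (1 - a p)) * (M p - 1)) := by
    intro p hp
    rw [hs, ha, hM]
    exact S.sU p hp
  have sC : ∀ p ∈ prI N (1 / 100000) ρ, ¬ Bad (1 / 10 ^ 15) T p →
      s p ≤ a p * a p + 1 / 10 ^ 9 := by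
    intro p hp hbad
    rw [hs, ha]
    refine (S.sC p hp hbad).trans ?_
    norm_num
  have sA : ∀ p ∈ prI N (1 / 100000) ρ, ¬ Bad (1 / 10 ^ 15) A p → M p ≤ 100000 →
      Mv A p ≤ 100000 → s p ≤ a p * a p * (1 + y p) + 1 / 10 ^ 9 := by
    intro p hp hbad hM1 hM2
    have q := S.sA p hp hbad hbad (by rw [hM] at hM1; exact hM1) hM2 hM2
    have hy0 : 0 ≤ yv A p := (S.yA p (m0 p hp)).1
    rw [Real.sqrt_mul_self hy0] at q
    rw [hs, ha, hy]
    refine q.trans ?_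
    norm_num
  -- the sums
  have S1 : ∑ p ∈ D₁, wt p * (1 / s p) + ∑ p ∈ D₂, wt p * (1 / s p) ≤ Real.log N + C1 := by
    have q := S.S1
    rw [i12, Finset.sum_union d12] at q
    have e : ∀ D : Finset ℕ, ∑ p ∈ D, wt p * (1 / s p) =
        ∑ p ∈ D, wt p / sn 1 (-1) A A T p := by
      intro D
      refine Finset.sum_congr rfl fun p _ => ?_
      rw [hs, mul_one_div]
    rw [e, e]
    exact q
  have SA : ∑ p ∈ D₁, wt p * (1 / a p + y p) + ∑ p ∈ D₂, wt p * (1 / a p + y p) +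
      ∑ p ∈ D₃, wt p * (1 / a p + y p) ≤ Real.log N + C1 := by
    have q := S.SA
    rw [i123, Finset.sum_union d123, Finset.sum_union d12] at q
    rw [ha, hy]
    exact q
  have SB : ∑ p ∈ D₁, wt p * (1 / b p + z p) + ∑ p ∈ D₂, wt p * (1 / b p + z p) +
      ∑ p ∈ D₃, wt p * (1 / b p + z p) ≤ Real.log N + C1 := by
    have q := S.SB
    rw [i123, Finset.sum_union d123, Finset.sum_union d12] at q
    rw [hb, hz]
    exact q
  have SM : ∑ p ∈ D₁, wt p * (M p - 1) ≤ (1 - τ) * Real.log N + C1 := by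
    have q := S.SM
    rw [← hlim, ← hD₁] at q
    rw [hM]
    exact q
  -- exceptional primes
  have hAne : A.Nonempty := by
    rw [← Finset.card_pos]
    have : (0 : ℝ) < A.card := lt_of_lt_of_le (Real.rpow_pos_of_pos hN0 _) hconf.pair.cA
    exact_mod_cast this
  obtain ⟨RA, hRA⟩ : ∃ R : Finset ℕ, R = (D₁ ∩ covK N (1 / 100000) (1 / 100000) κA mA).filter
    (fun p => Bad (1 / 10 ^ 15) A p) := ⟨_, rfl⟩
  obtain ⟨RT, hRT⟩ : ∃ R : Finset ℕ, R = (D₁ ∩ covK N (1 / 100000) (1 / 100000) κT mT).filter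
    (fun p => Bad (1 / 10 ^ 15) T p) := ⟨_, rfl⟩
  obtain ⟨RK, hRK⟩ : ∃ R : Finset ℕ, R = D₁.filter
    (fun p => 100000 < M p ∨ 100000 < Mv A p) := ⟨_, rfl⟩
  have wRA : ∑ p ∈ RA, wt p ≤ 1 := by
    refine h3 A hconf.pair.hA hAne hE RA ?_ ?_
    · intro p hp
      rw [hRA, Finset.mem_filter, Finset.mem_inter] at hp
      exact hp.1.2
    · intro p hp
      rw [hRA, Finset.mem_filter] at hp
      exact hp.2
  have wRT : ∑ p ∈ RT, wt p ≤ 1 := by
    refine h2 T ?_ ?_ RT ?_ ?_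
    · intro t ht
      have q := hconf.hT t ht
      norm_num at q
      exact_mod_cast q
    · refine le_trans (Real.rpow_le_rpow_of_exponent_le ?_ hκT) hconf.cT
      exact_mod_cast hN1
    · intro p hp
      rw [hRT, Finset.mem_filter, Finset.mem_inter] at hp
      exact hp.1.2
    · intro p hp
      rw [hRT, Finset.mem_filter] at hp
      exact hp.2
  have wA2 : ∑ p ∈ D₁, wt p * (1 / a p + y p) ≤ Real.log N + C1 := by
    have q2 : 0 ≤ ∑ p ∈ D₂, wt p * (1 / a p + y p) := Finset.sum_nonneg fun p hp => by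
      obtain ⟨q1, -, -, q4, -, -⟩ := a0 p (m0 p (m2 p hp))
      have := hw p
      positivity
    have q3 : 0 ≤ ∑ p ∈ D₃, wt p * (1 / a p + y p) := Finset.sum_nonneg fun p hp => by
      obtain ⟨q1, -, -, q4, -, -⟩ := a0 p (m3 p hp)
      have := hw p
      positivity
    linarith
  have wRK : ∑ p ∈ RK, wt p ≤ ((1 - τ) * Real.log N + C1) / 99999 +
      (Real.log N + C1) / 100000 := by
    have q := Box_rare D₁ wt M (fun p => 1 / a p + y p) hw
      (fun p hp => (s0 p (m1 p hp)).2.2)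
      (fun p hp => by
        obtain ⟨q1, -, -, q4, -, -⟩ := a0 p (m0 p (m1 p hp))
        positivity) RK
      (by rw [hRK]; exact Finset.filter_subset _ _)
      (by
        intro p hp
        rw [hRK, Finset.mem_filter] at hp
        obtain ⟨-, -, -, -, -, q6⟩ := a0 p (m0 p (m1 p hp.1))
        rcases hp.2 with h | h
        · exact Or.inl h
        · exact Or.inr (lt_of_lt_of_le h q6))
    refine q.trans ?_
    have e1 : (∑ p ∈ D₁, wt p * (M p - 1)) / 99999 ≤ ((1 - τ) * Real.log N + C1) / 99999 :=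
      div_le_div_of_nonneg_right SM (by norm_num)
    have e2 : (∑ p ∈ D₁, wt p * (1 / a p + y p)) / 100000 ≤ (Real.log N + C1) / 100000 :=
      div_le_div_of_nonneg_right wA2 (by norm_num)
    linarith
  -- the two good sets
  have hcT : nT * Real.log N - CT - 1 ≤
      ∑ p ∈ (D₁ ∩ covK N (1 / 100000) (1 / 100000) κT mT) \ (RT ∪ ∅), wt p := by
    have q1 := Box_sdiff (D₁ ∩ covK N (1 / 100000) (1 / 100000) κT mT) RT ∅ wt hw
    have q2 := hCT N h4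
    rw [← hD₁] at q2
    rw [Finset.sum_empty] at q1
    linarith
  obtain ⟨EA, hEA1, hEA2, hEA3⟩ : ∃ EA : Finset ℕ, EA ⊆ D₁ ∧
      (∀ p ∈ EA, fA ≤ 1 / s p + wA * (1 / a p + y p) + wB / b p) ∧
      nA * Real.log N - |CA| - 1 - (((1 - τ) * Real.log N + C1) / 99999 +
        (Real.log N + C1) / 100000) ≤ ∑ p ∈ EA, wt p := by
    rcases pA with h0 | hpA
    · refine ⟨∅, Finset.empty_subset _, ?_, ?_⟩
      · intro p hp
        exact absurd hp (Finset.notMem_empty p)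
      · rw [Finset.sum_empty, h0]
        have q0 : 0 ≤ ∑ p ∈ RK, wt p := Finset.sum_nonneg fun p _ => hw p
        have := abs_nonneg CA
        linarith
    · refine ⟨(D₁ ∩ covK N (1 / 100000) (1 / 100000) κA mA) \ (RA ∪ RK), ?_, ?_, ?_⟩
      · exact Finset.sdiff_subset.trans Finset.inter_subset_left
      · intro p hp
        rw [Finset.mem_sdiff, Finset.mem_union, not_or] at hp
        obtain ⟨hp1, hp2, hp3⟩ := hp
        have hpD := Finset.mem_of_mem_inter_left hp1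
        rw [hRA, Finset.mem_filter, not_and] at hp2
        rw [hRK, Finset.mem_filter, not_and, not_or, not_lt, not_lt] at hp3
        obtain ⟨r1, r2⟩ := hp3 hpD
        obtain ⟨q1, q2, q3, q4, -, -⟩ := a0 p (m0 p (m1 p hpD))
        obtain ⟨t1, t2, t3⟩ := s0 p (m1 p hpD)
        exact hpA _ _ _ _ q1 q2 q3 t1 t2 q4 (sA p (m1 p hpD) (hp2 hp1) r1 r2)
      · have q1 := Box_sdiff (D₁ ∩ covK N (1 / 100000) (1 / 100000) κA mA) RA RK wt hw
        have q2 := hCA N h4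
        rw [← hD₁] at q2
        have := le_abs_self CA
        linarith
  -- lower bounds
  have L1 := Box_core D₁ EA ((D₁ ∩ covK N (1 / 100000) (1 / 100000) κT mT) \ (RT ∪ ∅)) hEA1
    (Finset.sdiff_subset.trans Finset.inter_subset_left) wt
    (fun p => 1 / s p + wA * (1 / a p + y p) + wB / b p + wM * (M p - 1)) hw fU fA fC hUA
    (by
      intro p hp
      obtain ⟨q1, q2, q3, q4, -, -⟩ := a0 p (m0 p (m1 p hp))
      obtain ⟨t1, t2, t3⟩ := s0 p (m1 p hp)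
      have q := pU _ _ _ _ q1 q2 q3 t1 t2 t3 (sU p (m1 p hp))
      have q5 : wA * (1 / a p + y p) = wA / a p + wA * y p := by ring
      have q6 := mul_nonneg hwA q4
      show fU ≤ 1 / s p + wA * (1 / a p + y p) + wB / b p + wM * (M p - 1)
      linarith)
    (by
      intro p hp
      have q := hEA2 p hp
      obtain ⟨t1, t2, t3⟩ := s0 p (m1 p (hEA1 hp))
      have q6 := mul_nonneg hwM (sub_nonneg.2 t3)
      show fA ≤ 1 / s p + wA * (1 / a p + y p) + wB / b p + wM * (M p - 1)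
      linarith)
    (by
      intro p hp
      rw [Finset.union_empty, Finset.mem_sdiff] at hp
      obtain ⟨hp1, hp2⟩ := hp
      have hpD := Finset.mem_of_mem_inter_left hp1
      rw [hRT, Finset.mem_filter, not_and] at hp2
      obtain ⟨q1, q2, q3, q4, -, -⟩ := a0 p (m0 p (m1 p hpD))
      obtain ⟨t1, t2, t3⟩ := s0 p (m1 p hpD)
      have q := pC _ _ _ q1 q2 q3 t1 t2 (sC p (m1 p hpD) (hp2 hp1))
      have q5 : wA * (1 / a p + y p) = wA / a p + wA * y p := by ring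
      have q6 := mul_nonneg hwM (sub_nonneg.2 t3)
      have q7 := mul_nonneg hwA q4
      show fC ≤ 1 / s p + wA * (1 / a p + y p) + wB / b p + wM * (M p - 1)
      linarith)
  have L2 : fN * ∑ p ∈ D₂, wt p ≤
      ∑ p ∈ D₂, wt p * (1 / s p + wA * (1 / a p + y p) + wB / b p) := by
    rw [Finset.mul_sum]
    refine Finset.sum_le_sum fun p hp => ?_
    obtain ⟨q1, q2, q3, q4, -, -⟩ := a0 p (m0 p (m2 p hp))
    obtain ⟨t1, t2, t3⟩ := s0 p (m2 p hp)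
    have q := pN _ _ _ q1 q2 q3 t1 t2
    have q5 : wA * (1 / a p + y p) = wA / a p + wA * y p := by ring
    have q7 := mul_nonneg hwA q4
    rw [mul_comm]
    exact mul_le_mul_of_nonneg_left (by linarith) (hw p)
  have L3 : fO * ∑ p ∈ D₃, wt p ≤
      ∑ p ∈ D₃, wt p * (wA * (1 / a p + y p) + wB / b p) := by
    rw [Finset.mul_sum]
    refine Finset.sum_le_sum fun p hp => ?_
    obtain ⟨q1, q2, q3, q4, -, -⟩ := a0 p (m3 p hp)
    have q := pO _ _ q1 q2 q3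
    have q5 : wA * (1 / a p + y p) = wA / a p + wA * y p := by ring
    have q7 := mul_nonneg hwA q4
    rw [mul_comm]
    exact mul_le_mul_of_nonneg_left (by linarith) (hw p)
  -- upper bounds
  have U1 : ∑ p ∈ D₁, wt p * (1 / s p + wA * (1 / a p + y p) + wB / b p + wM * (M p - 1)) ≤
      ∑ p ∈ D₁, wt p * (1 / s p) + wA * ∑ p ∈ D₁, wt p * (1 / a p + y p) +
        wB * ∑ p ∈ D₁, wt p * (1 / b p + z p) + wM * ∑ p ∈ D₁, wt p * (M p - 1) := by
    rw [Finset.mul_sum, Finset.mul_sum, Finset.mul_sum, ← Finset.sum_add_distrib,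
      ← Finset.sum_add_distrib, ← Finset.sum_add_distrib]
    refine Finset.sum_le_sum fun p hp => ?_
    obtain ⟨-, q2, -, -, q5, -⟩ := a0 p (m0 p (m1 p hp))
    have := mul_nonneg (mul_nonneg hwB (hw p)) q5
    have e : wB * (wt p * (1 / b p + z p)) = wt p * (wB / b p) + wB * wt p * z p := by ring
    rw [e]
    nlinarith
  have U2 : ∑ p ∈ D₂, wt p * (1 / s p + wA * (1 / a p + y p) + wB / b p) ≤
      ∑ p ∈ D₂, wt p * (1 / s p) + wA * ∑ p ∈ D₂, wt p * (1 / a p + y p) +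
        wB * ∑ p ∈ D₂, wt p * (1 / b p + z p) := by
    rw [Finset.mul_sum, Finset.mul_sum, ← Finset.sum_add_distrib,
      ← Finset.sum_add_distrib]
    refine Finset.sum_le_sum fun p hp => ?_
    obtain ⟨-, q2, -, -, q5, -⟩ := a0 p (m0 p (m2 p hp))
    have := mul_nonneg (mul_nonneg hwB (hw p)) q5
    have e : wB * (wt p * (1 / b p + z p)) = wt p * (wB / b p) + wB * wt p * z p := by ring
    rw [e]
    nlinarith
  have U3 : ∑ p ∈ D₃, wt p * (wA * (1 / a p + y p) + wB / b p) ≤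
      wA * ∑ p ∈ D₃, wt p * (1 / a p + y p) + wB * ∑ p ∈ D₃, wt p * (1 / b p + z p) := by
    rw [Finset.mul_sum, Finset.mul_sum, ← Finset.sum_add_distrib]
    refine Finset.sum_le_sum fun p hp => ?_
    obtain ⟨-, q2, -, -, q5, -⟩ := a0 p (m3 p hp)
    have := mul_nonneg (mul_nonneg hwB (hw p)) q5
    have e : wB * (wt p * (1 / b p + z p)) = wt p * (wB / b p) + wB * wt p * z p := by ring
    rw [e]
    nlinarith
  -- weights
  have w1 := mul_le_mul_of_nonneg_left (hm1 N h4) hU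
  have w2 := mul_le_mul_of_nonneg_left (hm2 N h4) hN
  have w3 := mul_le_mul_of_nonneg_left (hm3 N h4) hO
  rw [← hD₁] at w1
  rw [← hD₂] at w2
  rw [← hD₃] at w3
  have w4 := mul_le_mul_of_nonneg_left hEA3 (sub_nonneg.2 hUA)
  have w5 := mul_le_mul_of_nonneg_left hcT (sub_nonneg.2 hAC)
  have k1 := mul_le_mul_of_nonneg_left SA hwA
  have k2 := mul_le_mul_of_nonneg_left SB hwB
  have k3 := mul_le_mul_of_nonneg_left SM hwM
  have hnum := mul_le_mul_of_nonneg_right num h6.le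
  have hC1 : C1 ≤ |C1| := le_abs_self C1
  have hC1' : 0 ≤ |C1| := abs_nonneg C1
  have hCT1 : CT ≤ |CT| := le_abs_self CT
  have hCT' : 0 ≤ |CT| := abs_nonneg CT
  have hCA' : 0 ≤ |CA| := abs_nonneg CA
  -- losses
  obtain ⟨Lo, hLo⟩ : ∃ Lo : ℝ, Lo = ((1 - τ) * Real.log N + C1) / 99999 +
    (Real.log N + C1) / 100000 := ⟨_, rfl⟩
  rw [← hLo] at w4
  have l1 : Lo ≤ 21 / 1000000 * Real.log N + |C1| := by
    rw [hLo]
    have q := mul_nonneg (by linarith : (0 : ℝ) ≤ τ) h6.le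
    have e : (1 - τ) * Real.log N = Real.log N - τ * Real.log N := by ring
    rw [e]
    linarith
  have l1' : 0 ≤ 21 / 1000000 * Real.log N + |C1| := by positivity
  have l2 : (fA - fU) * (|CA| + 1 + Lo) ≤
      20 * (|CA| + 1 + |C1| + 21 / 1000000 * Real.log N) := by
    have q1 : (fA - fU) * (|CA| + 1 + Lo) ≤
        (fA - fU) * (|CA| + 1 + |C1| + 21 / 1000000 * Real.log N) :=
      mul_le_mul_of_nonneg_left (by linarith) (sub_nonneg.2 hUA)
    refine q1.trans (mul_le_mul_of_nonneg_right (by linarith) (by linarith))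
  have l3 : (fC - fA) * (CT + 1) ≤ 20 * (|CT| + 1) := by
    have q1 : (fC - fA) * (CT + 1) ≤ (fC - fA) * (|CT| + 1) :=
      mul_le_mul_of_nonneg_left (by linarith) (sub_nonneg.2 hAC)
    refine q1.trans (mul_le_mul_of_nonneg_right (by linarith) (by linarith))
  have l4 : fU * (1 / 100000 * Real.log N) ≤ 20 * (1 / 100000 * Real.log N) :=
    mul_le_mul_of_nonneg_right (by linarith) (by positivity)
  have l5 : (1 + wA + wB + wM) * C1 ≤ (1 + wA + wB + wM) * |C1| :=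
    mul_le_mul_of_nonneg_left hC1 (by linarith)
  linarith [L1, L2, L3, U1, U2, U3, w1, w2, w3, w4, w5, k1, k2, k3, hnum, l2, l3, l4, l5, S1,
    h5]

end Pool.CSU
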