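import Pool.Agent.Lib.CSU.Eng

/-!
# CSU, module Lev: a large energy gives a level of popular values

`lev`. `θ = 4899/10000`. Choose `δ > 0` with `4δ ≤ 4899/5000 + e - E`, `δ ≤ e - ρ₀`, and
`J = {min θ (ρ₀ + j δ) : j = 0..n}`, `n = ⌈(θ - ρ₀)/δ⌉₊` (the last one is `θ`). Suppose that
`|pop ρ| < N^(E-2ρ)` for all `ρ ∈ J`. `eng = ∑_t r(t)^2` (`eng_rep`). Every `t ∈ val`:
(1) `r(t) < N^ρ₀`: these contribute at most `N^ρ₀ ∑ r = N^ρ₀ |X||Y|` (`CSE.sum_rep`);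
(2) `N^(ρ_j) ≤ r(t) < N^(ρ_(j+1))`, `ρ_(j+1) ≤ ρ_j + δ`: at most `N^(E-2ρ_j) N^(2ρ_j+2δ) = N^(E+2δ)
≤ N^(4899/5000 + e - 2δ) ≤ N^(e-2δ) |X||Y|`;
(3) `r(t) ≥ N^θ`: `r(t) ≤ |X|`, `r(t) ≤ |Y|`, so `r(t)^2 ≤ |X||Y|`, and `|pop θ| < N^(E-2θ) ≤
N^(e-4δ)`. Together `eng ≤ (n+2) N^(e-δ) |X||Y| ≤ N^e |X||Y|` for `N` large.
`conf_of`: as `Main_conf` in `CSE/Main.lean`.
-/

set_option autoImplicit false

open Finset Filter

namespace Pool.CSU

open Pool.Agent.Lib.MP_4b09b1_nt (res pairs)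
open Pool.CSE (G rep Bad prI wt dens sv Mv val pop)

private theorem Lev_step (f : ℕ → ℝ) (r : ℝ) (h0 : f 0 ≤ r) (n : ℕ) :
    f n ≤ r ∨ ∃ j < n, f j ≤ r ∧ r < f (j + 1) := by
  induction n with
  | zero => exact Or.inl h0
  | succ n ih =>
    rcases ih with h | ⟨j, hj, h1, h2⟩
    · by_cases h3 : f (n + 1) ≤ r
      · exact Or.inl h3
      · exact Or.inr ⟨n, Nat.lt_succ_self n, h, not_le.1 h3⟩
    · exact Or.inr ⟨j, Nat.lt_succ_of_lt hj, h1, h2⟩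

private theorem Lev_rep_right (l m : ℤ) (hl : l ≠ 0) (X Y : Finset ℤ) (t : ℤ) :
    rep l m X Y t ≤ Y.card := by
  refine Finset.card_le_card_of_injOn (fun z : ℤ × ℤ => z.2) ?_ ?_
  · intro z hz
    rw [Finset.mem_coe, Finset.mem_filter, Finset.mem_product] at hz
    exact hz.1.2
  · intro z hz w hw h
    rw [Finset.mem_coe, Finset.mem_filter] at hz hw
    have h1 : z.2 = w.2 := h
    have h2 : l * z.1 = l * w.1 := by
      have := hz.2.trans hw.2.symm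
      rw [h1] at this
      exact add_right_cancel this
    exact Prod.ext (mul_left_cancel₀ hl h2) h1

theorem lev (l m : ℤ) (hl : l ≠ 0) (hm : m ≠ 0) (ρ₀ E e : ℝ) (h0 : 1 / 4 ≤ ρ₀)
    (h01 : ρ₀ ≤ 4899 / 10000) (h1 : ρ₀ < e) (hE : E < 4899 / 5000 + e) :
    ∃ J : Finset ℝ, (∀ ρ ∈ J, ρ₀ ≤ ρ ∧ ρ ≤ 4899 / 10000) ∧
      ∀ᶠ N : ℕ in atTop, ∀ X Y : Finset ℤ, (N : ℝ) ^ (4899 / 10000 : ℝ) ≤ X.card →
        (N : ℝ) ^ (4899 / 10000 : ℝ) ≤ Y.card →
        (N : ℝ) ^ e * ((X.card : ℝ) * Y.card) < (eng l m X Y : ℝ) →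
        ∃ ρ ∈ J, (N : ℝ) ^ (E - 2 * ρ) ≤ (pop l m X Y N ρ).card := by
  classical
  obtain ⟨δ, hδ0, hδ1, hδ2⟩ : ∃ δ : ℝ, 0 < δ ∧ 4 * δ ≤ 4899 / 5000 + e - E ∧ δ ≤ e - ρ₀ := by
    refine ⟨min ((4899 / 5000 + e - E) / 4) (e - ρ₀), lt_min (by linarith) (by linarith), ?_,
      min_le_right _ _⟩
    have := min_le_left ((4899 / 5000 + e - E) / 4) (e - ρ₀)
    linarith
  obtain ⟨n, hn⟩ : ∃ n : ℕ, (4899 / 10000 - ρ₀) / δ ≤ n := ⟨_, Nat.le_ceil _⟩
  have hn' : (4899 / 10000 : ℝ) ≤ ρ₀ + n * δ := by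
    rw [div_le_iff₀ hδ0] at hn
    linarith
  obtain ⟨r, hr⟩ : ∃ r : ℕ → ℝ, r = fun j : ℕ => min (4899 / 10000 : ℝ) (ρ₀ + (j : ℝ) * δ) :=
    ⟨_, rfl⟩
  have hr0 : r 0 = ρ₀ := by
    rw [hr]
    show min (4899 / 10000 : ℝ) (ρ₀ + (0 : ℕ) * δ) = ρ₀
    rw [Nat.cast_zero, zero_mul, add_zero]
    exact min_eq_right h01
  have hrn : r n = 4899 / 10000 := by
    rw [hr]
    exact min_eq_left hn'
  have hrs : ∀ j, r (j + 1) ≤ r j + δ := by
    intro j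
    rw [hr]
    show min (4899 / 10000 : ℝ) (ρ₀ + ((j + 1 : ℕ) : ℝ) * δ) ≤
      min (4899 / 10000 : ℝ) (ρ₀ + (j : ℝ) * δ) + δ
    rw [← min_add_add_right]
    refine min_le_min (by linarith) ?_
    push_cast
    linarith
  have hrb : ∀ j, ρ₀ ≤ r j ∧ r j ≤ 4899 / 10000 := by
    intro j
    rw [hr]
    refine ⟨le_min h01 ?_, min_le_left _ _⟩
    have : 0 ≤ (j : ℝ) * δ := mul_nonneg (Nat.cast_nonneg j) hδ0.le
    linarith
  refine ⟨(range (n + 1)).image r, ?_, ?_⟩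
  · intro ρ hρ
    obtain ⟨j, -, rfl⟩ := Finset.mem_image.1 hρ
    exact hrb j
  have hlarge : ∀ᶠ N : ℕ in atTop, (n : ℝ) + 2 ≤ (N : ℝ) ^ δ :=
    ((tendsto_rpow_atTop hδ0).comp tendsto_natCast_atTop_atTop).eventually_ge_atTop _
  filter_upwards [hlarge, eventually_ge_atTop 1] with N hN hN1
  intro X Y hX hY hbig
  by_contra hcon
  push Not at hcon
  have hN0 : (0 : ℝ) < (N : ℝ) := by exact_mod_cast hN1
  have hN1' : (1 : ℝ) ≤ (N : ℝ) := by exact_mod_cast hN1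
  have hpos : ∀ x : ℝ, 0 < (N : ℝ) ^ x := fun x => Real.rpow_pos_of_pos hN0 x
  have hmono : ∀ x y : ℝ, x ≤ y → (N : ℝ) ^ x ≤ (N : ℝ) ^ y :=
    fun x y h => Real.rpow_le_rpow_of_exponent_le hN1' h
  set R : ℤ → ℝ := fun t => (rep l m X Y t : ℝ) with hR
  have hRnn : ∀ t, 0 ≤ R t := fun t => Nat.cast_nonneg _
  set XY : ℝ := (X.card : ℝ) * Y.card with hXY
  have hXYnn : 0 ≤ XY := mul_nonneg (Nat.cast_nonneg _) (Nat.cast_nonneg _)
  -- pointwise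
  have hpt : ∀ t ∈ val l m X Y, R t ^ 2 ≤ (N : ℝ) ^ ρ₀ * R t +
      (∑ j ∈ range n, (N : ℝ) ^ (2 * r j + 2 * δ) *
        (if t ∈ pop l m X Y N (r j) then (1 : ℝ) else 0)) +
      XY * (if t ∈ pop l m X Y N (r n) then (1 : ℝ) else 0) := by
    intro t ht
    have hmem : ∀ ρ, t ∈ pop l m X Y N ρ ↔ (N : ℝ) ^ ρ ≤ R t := by
      intro ρ
      unfold pop
      rw [Finset.mem_filter]
      exact ⟨fun h => h.2, fun h => ⟨ht, h⟩⟩
    have hnn1 : ∀ j ∈ range n, 0 ≤ (N : ℝ) ^ (2 * r j + 2 * δ) *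
        (if t ∈ pop l m X Y N (r j) then (1 : ℝ) else 0) := by
      intro j _
      refine mul_nonneg (hpos _).le ?_
      split_ifs <;> norm_num
    have hnn2 : 0 ≤ XY * (if t ∈ pop l m X Y N (r n) then (1 : ℝ) else 0) := by
      refine mul_nonneg hXYnn ?_
      split_ifs <;> norm_num
    have hnn3 : 0 ≤ (N : ℝ) ^ ρ₀ * R t := mul_nonneg (hpos _).le (hRnn t)
    have hnn4 := Finset.sum_nonneg hnn1
    by_cases hsm : (N : ℝ) ^ r 0 ≤ R t
    · rcases Lev_step (fun j => (N : ℝ) ^ r j) (R t) hsm n with h | ⟨j, hj, h2, h3⟩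
      · have h4 : R t ^ 2 ≤ XY := by
          rw [sq, hXY]
          refine mul_le_mul ?_ ?_ (hRnn t) (Nat.cast_nonneg _)
          · exact Nat.cast_le.2 (Pool.CSE.rep_le l m hm X Y t)
          · exact Nat.cast_le.2 (Lev_rep_right l m hl X Y t)
        rw [if_pos ((hmem _).2 h), mul_one]
        linarith
      · have h4 : R t ^ 2 ≤ (N : ℝ) ^ (2 * r j + 2 * δ) := by
          have h5 : R t ≤ (N : ℝ) ^ (r j + δ) := le_trans h3.le (hmono _ _ (hrs j))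
          have h6 : (N : ℝ) ^ (2 * r j + 2 * δ) = ((N : ℝ) ^ (r j + δ)) ^ 2 := by
            rw [← Real.rpow_natCast, ← Real.rpow_mul hN0.le]
            congr 1
            push_cast
            ring
          rw [h6]
          exact pow_le_pow_left₀ (hRnn t) h5 2
        have h7 := Finset.single_le_sum hnn1 (Finset.mem_range.2 hj)
        rw [if_pos ((hmem _).2 h2), mul_one] at h7
        linarith
    · rw [not_le, hr0] at hsm
      have h4 : R t ^ 2 ≤ (N : ℝ) ^ ρ₀ * R t := by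
        rw [sq]
        exact mul_le_mul_of_nonneg_right hsm.le (hRnn t)
      linarith
  have hpopsum : ∀ ρ, ∑ t ∈ val l m X Y, (if t ∈ pop l m X Y N ρ then (1 : ℝ) else 0) =
      ((pop l m X Y N ρ).card : ℝ) := by
    intro ρ
    rw [Finset.sum_ite, Finset.sum_const_zero, add_zero, Finset.sum_const, nsmul_eq_mul, mul_one]
    congr 2
    ext t
    rw [Finset.mem_filter]
    constructor
    · exact fun h => h.2
    · intro h
      refine ⟨?_, h⟩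
      unfold pop at h
      exact (Finset.mem_filter.1 h).1
  have hsum : (eng l m X Y : ℝ) ≤ (N : ℝ) ^ ρ₀ * XY +
      (∑ j ∈ range n, (N : ℝ) ^ (2 * r j + 2 * δ) * ((pop l m X Y N (r j)).card : ℝ)) +
      XY * ((pop l m X Y N (r n)).card : ℝ) := by
    have h2 : (eng l m X Y : ℝ) = ∑ t ∈ val l m X Y, R t ^ 2 := by
      rw [eng_rep]
      push_cast
      rfl
    have h3 : XY = ∑ t ∈ val l m X Y, R t := by
      have h4 := Pool.CSE.sum_rep l m X Y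
      rw [hXY, ← Nat.cast_mul, ← h4]
      push_cast
      rfl
    rw [h2]
    refine (Finset.sum_le_sum hpt).trans (le_of_eq ?_)
    rw [Finset.sum_add_distrib, Finset.sum_add_distrib, ← Finset.mul_sum, ← h3,
      ← Finset.mul_sum, hpopsum, Finset.sum_comm]
    congr 2
    refine Finset.sum_congr rfl fun j _ => ?_
    rw [← Finset.mul_sum, hpopsum]
  have hJ : ∀ j ≤ n, ((pop l m X Y N (r j)).card : ℝ) < (N : ℝ) ^ (E - 2 * r j) := by
    intro j hj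
    exact hcon _ (Finset.mem_image.2 ⟨j, Finset.mem_range.2 (by omega), rfl⟩)
  have hθ : (N : ℝ) ^ (4899 / 5000 : ℝ) ≤ XY := by
    have h2 : (N : ℝ) ^ (4899 / 5000 : ℝ) =
        (N : ℝ) ^ (4899 / 10000 : ℝ) * (N : ℝ) ^ (4899 / 10000 : ℝ) := by
      rw [← Real.rpow_add hN0]
      norm_num
    rw [h2, hXY]
    exact mul_le_mul hX hY (hpos _).le (Nat.cast_nonneg _)
  have hb1 : (N : ℝ) ^ ρ₀ * XY ≤ (N : ℝ) ^ (e - δ) * XY :=
    mul_le_mul_of_nonneg_right (hmono _ _ (by linarith)) hXYnn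
  have hb2 : ∀ j ∈ range n, (N : ℝ) ^ (2 * r j + 2 * δ) * ((pop l m X Y N (r j)).card : ℝ) ≤
      (N : ℝ) ^ (e - δ) * XY := by
    intro j hj
    calc (N : ℝ) ^ (2 * r j + 2 * δ) * ((pop l m X Y N (r j)).card : ℝ)
        ≤ (N : ℝ) ^ (2 * r j + 2 * δ) * (N : ℝ) ^ (E - 2 * r j) :=
          mul_le_mul_of_nonneg_left (hJ j (Finset.mem_range.1 hj).le).le (hpos _).le
      _ = (N : ℝ) ^ (E + 2 * δ) := by
          rw [← Real.rpow_add hN0]
          congr 1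
          ring
      _ ≤ (N : ℝ) ^ ((e - δ) + 4899 / 5000) := hmono _ _ (by linarith)
      _ = (N : ℝ) ^ (e - δ) * (N : ℝ) ^ (4899 / 5000 : ℝ) := Real.rpow_add hN0 _ _
      _ ≤ (N : ℝ) ^ (e - δ) * XY := mul_le_mul_of_nonneg_left hθ (hpos _).le
  have hb3 : XY * ((pop l m X Y N (r n)).card : ℝ) ≤ (N : ℝ) ^ (e - δ) * XY := by
    rw [mul_comm]
    refine mul_le_mul_of_nonneg_right ?_ hXYnn
    refine (hJ n le_rfl).le.trans (hmono _ _ ?_)
    rw [hrn]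
    linarith
  have hb4 : (∑ j ∈ range n, (N : ℝ) ^ (2 * r j + 2 * δ) * ((pop l m X Y N (r j)).card : ℝ)) ≤
      n * ((N : ℝ) ^ (e - δ) * XY) := by
    refine (Finset.sum_le_sum hb2).trans (le_of_eq ?_)
    rw [Finset.sum_const, Finset.card_range, nsmul_eq_mul]
  have hfin : ((n : ℝ) + 2) * ((N : ℝ) ^ (e - δ) * XY) ≤ (N : ℝ) ^ e * XY := by
    have h2 : (N : ℝ) ^ e = (N : ℝ) ^ δ * (N : ℝ) ^ (e - δ) := by
      rw [← Real.rpow_add hN0]
      congr 1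
      ring
    rw [h2, mul_assoc]
    exact mul_le_mul_of_nonneg_right hN (mul_nonneg (hpos _).le hXYnn)
  have : (eng l m X Y : ℝ) ≤ (N : ℝ) ^ e * XY := by
    refine le_trans ?_ hfin
    refine hsum.trans ?_
    have h2 : ((n : ℝ) + 2) * ((N : ℝ) ^ (e - δ) * XY) = (N : ℝ) ^ (e - δ) * XY +
      n * ((N : ℝ) ^ (e - δ) * XY) + (N : ℝ) ^ (e - δ) * XY := by ring
    rw [h2]
    exact add_le_add (add_le_add hb1 hb4) hb3
  exact absurd hbig (not_lt.2 this)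

theorem conf_of (p₀ N : ℕ) (l m : ℤ) (ρ τ : ℝ) (A B X Y : Finset ℤ) (h : Pair p₀ N A B)
    (hX : X = A ∨ X = B) (hY : Y = A ∨ Y = B)
    (cT : (N : ℝ) ^ τ ≤ (pop l m X Y N ρ).card) :
    Conf p₀ N l m ρ τ A B X Y (pop l m X Y N ρ) := by
  classical
  have hXN : ∀ x ∈ X, |x| ≤ (N : ℤ) := by
    intro x hx
    rcases hX with rfl | rfl
    · have := h.hA x hx
      rw [abs_of_nonneg (by omega)]
      exact this.2
    · have := h.hB x hx
      rw [abs_of_nonneg (by omega)]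
      exact this.2
  have hYN : ∀ y ∈ Y, |y| ≤ (N : ℤ) := by
    intro x hx
    rcases hY with rfl | rfl
    · have := h.hA x hx
      rw [abs_of_nonneg (by omega)]
      exact this.2
    · have := h.hB x hx
      rw [abs_of_nonneg (by omega)]
      exact this.2
  refine ⟨h, hX, hY, ?_, cT, ?_⟩
  · intro t ht
    unfold Pool.CSE.pop Pool.CSE.val at ht
    rw [Finset.mem_filter, Finset.mem_image] at ht
    obtain ⟨⟨⟨x, y⟩, hz, rfl⟩, -⟩ := ht
    rw [Finset.mem_product] at hz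
    have h1 := hXN x hz.1
    have h2 := hYN y hz.2
    calc |l * x + m * y| ≤ |l * x| + |m * y| := abs_add_le _ _
      _ = |l| * |x| + |m| * |y| := by rw [abs_mul, abs_mul]
      _ ≤ |l| * N + |m| * N := by
          have := mul_le_mul_of_nonneg_left h1 (abs_nonneg l)
          have := mul_le_mul_of_nonneg_left h2 (abs_nonneg m)
          linarith
      _ = (|l| + |m|) * (N : ℤ) := by ring
  · intro t ht
    unfold pop at ht
    rw [Finset.mem_filter] at ht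
    exact ht.2

end Pool.CSU
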