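import Pool.Agent.Lib.CSU.ABx
import Pool.Agent.Lib.CSU.ABy
import Pool.Agent.Lib.CSU.Lev

/-!
# CSU, module E1: the energy between `A` and `B`

We may assume `ε ≤ 1/10` (monotone in `ε`, `N ≥ 1`). `lev` with `ρ₀ = 1/4 + ε/2`, `e = 1/4 + ε`,
`E = 12298/10000` (`= .9798 + 1/4`), `X = A`, `Y = B`. For each `ρ ∈ J` (`ρ ≥ ρ₀ > 1/4`): `abx` or
`aby`; `conf_of`.
-/

set_option autoImplicit false

open Finset Filter

namespace Pool.CSU

private theorem E1_small (p₀ : ℕ) (l m : ℤ) (hl : l ≠ 0) (hm : m ≠ 0) (ε : ℝ) (hε : 0 < ε)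
    (hε1 : ε ≤ 1 / 10) :
    ∀ᶠ N : ℕ in atTop, ∀ A B : Finset ℤ, Pair p₀ N A B →
      (eng l m A B : ℝ) ≤ (N : ℝ) ^ (1 / 4 + ε) * ((A.card : ℝ) * B.card) := by
  obtain ⟨J, hJ, hlev⟩ := lev l m hl hm (1 / 4 + ε / 2) (12298 / 10000) (1 / 4 + ε)
    (by linarith) (by linarith) (by linarith) (by linarith)
  have hall : ∀ᶠ N : ℕ in atTop, ∀ ρ ∈ J, ∀ A B T : Finset ℤ,
      ¬ Conf p₀ N l m ρ (12298 / 10000 - 2 * ρ) A B A B T := by
    rw [Filter.eventually_all_finset]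
    intro ρ hρ
    obtain ⟨h1, h2⟩ := hJ ρ hρ
    rcases le_total ρ (28 / 100) with h | h
    · exact abx p₀ l m hl hm ρ (by linarith) h
    · exact aby p₀ l m hl hm ρ h h2
  filter_upwards [hlev, hall] with N h1 h2 A B hP
  by_contra hcon
  push Not at hcon
  obtain ⟨ρ, hρ, hc⟩ := h1 A B hP.cA hP.cB hcon
  exact h2 ρ hρ A B _ (conf_of p₀ N l m ρ _ A B A B hP (Or.inl rfl) (Or.inr rfl) hc)

theorem e1 (p₀ : ℕ) (l m : ℤ) (hl : l ≠ 0) (hm : m ≠ 0) (ε : ℝ) (hε : 0 < ε) :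
    ∀ᶠ N : ℕ in atTop, ∀ A B : Finset ℤ, Pair p₀ N A B →
      (eng l m A B : ℝ) ≤ (N : ℝ) ^ (1 / 4 + ε) * ((A.card : ℝ) * B.card) := by
  rcases le_total ε (1 / 10) with h | h
  · exact E1_small p₀ l m hl hm ε hε h
  · filter_upwards [E1_small p₀ l m hl hm (1 / 10) (by norm_num) le_rfl,
      eventually_ge_atTop 1] with N h1 hN A B hP
    refine (h1 A B hP).trans ?_
    have hN1 : (1 : ℝ) ≤ (N : ℝ) := by exact_mod_cast hN
    have hmono : (N : ℝ) ^ ((1 : ℝ) / 4 + 1 / 10) ≤ (N : ℝ) ^ (1 / 4 + ε) :=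
      Real.rpow_le_rpow_of_exponent_le hN1 (by linarith)
    exact mul_le_mul_of_nonneg_right hmono (by positivity)

end Pool.CSU
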