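import Pool.Agent.Lib.CSU.WB

/-!
# CSU, module Few: a set of small energy is unbiased modulo almost all primes of every scale

`few`. Let `c₀ = 1/10000`, `u = log Q / log N ∈ [ε, 1/2]`, `m = ⌈(3332/10000)/u⌉₊`. Then `1 ≤ m`,
`m ≤ 1/ε + 1 =: m0`, and `3332/10000 ≤ m u ≤ 6666/10000` (if `u ≤ 3334/10000`:
`m u < 3332/10000 + u`; else `m = 1`, as `3332/10000 ≤ u`, and `u ≤ 1/2`). Hence
`333/1000 ≤ (1 - 6 c₀) m u` (`.3332 * .9994 = .33300008`) and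
`(1 + 6 c₀) m u ≤ 667/1000` (`.6666 * 1.0006 = .66699996`), that is
`N^(1-κ) ≤ (Q^(1-6c₀))^m` and `Q^(2m) N^(-κ) ≤ (Q^(1-6c₀))^m`, `κ = 667/1000`.
`wbad` with `P` the set in question, `η = (2Q)^(-c₀)` (`p ≤ 2Q`, so `p^(-c₀) ≥ (2Q)^(-c₀)`:
`Bad (p^(-c₀)) A p → Bad η A p`), `2Q` in place of `Q` (`m < Q < p`, as `Q ≥ N^ε` is large):
`(2Q)^(-4 m c₀) |P|^m ≤ C m^m (N + 4^m Q^(2m)) N^(-κ) ≤ C m^m (1 + 4^m) (Q^(1-6c₀))^m`, so
`|P|^m ≤ C m0^m0 (1 + 4^m) 2^(4 m c₀) (Q^(1-2c₀))^m` and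
`|P| ≤ K Q^(1-2c₀) ≤ Q^(1-c₀)`, `K = K(ε)`, as `Q^(c₀) ≥ N^(ε c₀) ≥ K` for `N` large.
-/

set_option autoImplicit false

open Finset Filter

namespace Pool.CSU

open Pool.Agent.Lib.MP_4b09b1_nt (res pairs)
open Pool.CSE (G rep Bad prI wt dens sv Mv val pop)

/-- the choice of `m` -/
private theorem Few_m (ε L l : ℝ) (hε : 0 < ε) (hL : 0 < L) (h1 : ε * L ≤ l)
    (h2 : l ≤ 1 / 2 * L) :
    ∃ m : ℕ, 1 ≤ m ∧ m ≤ ⌈1 / ε⌉₊ + 1 ∧ 3332 / 10000 * L ≤ m * l ∧ m * l ≤ 6666 / 10000 * L := by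
  have hl : 0 < l := lt_of_lt_of_le (by positivity) h1
  refine ⟨⌈3332 / 10000 * L / l⌉₊, ?_, ?_, ?_, ?_⟩
  · exact Nat.one_le_ceil_iff.2 (by positivity)
  · rw [Nat.ceil_le]
    push_cast
    have h3 : 1 / ε ≤ ⌈1 / ε⌉₊ := Nat.le_ceil _
    have h4 : 3332 / 10000 * L / l ≤ 1 / ε := by
      rw [div_le_div_iff₀ hl hε]
      nlinarith
    linarith
  · have h3 : 3332 / 10000 * L / l ≤ ⌈3332 / 10000 * L / l⌉₊ := Nat.le_ceil _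
    rwa [div_le_iff₀ hl] at h3
  · by_cases h5 : l ≤ 3334 / 10000 * L
    · have h3 : (⌈3332 / 10000 * L / l⌉₊ : ℝ) < 3332 / 10000 * L / l + 1 :=
        Nat.ceil_lt_add_one (by positivity)
      have h4 : (⌈3332 / 10000 * L / l⌉₊ : ℝ) * l < (3332 / 10000 * L / l + 1) * l :=
        mul_lt_mul_of_pos_right h3 hl
      have h6 : (3332 / 10000 * L / l + 1) * l = 3332 / 10000 * L + l := by
        field_simp
      linarith
    · have h3 : ⌈3332 / 10000 * L / l⌉₊ ≤ 1 := by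
        rw [Nat.ceil_le, div_le_iff₀ hl]
        push_cast
        push Not at h5
        nlinarith
      have h4 : (⌈3332 / 10000 * L / l⌉₊ : ℝ) ≤ 1 := by exact_mod_cast h3
      nlinarith

theorem few (ε : ℝ) (hε : 0 < ε) :
    ∀ᶠ N : ℕ in atTop, ∀ A : Finset ℤ, (∀ a ∈ A, 1 ≤ a ∧ a ≤ (N : ℤ)) → A.Nonempty →
      (eng 1 (-1) A A : ℝ) ≤ (A.card : ℝ) ^ 4 * (N : ℝ) ^ (-(667 / 1000) : ℝ) →
      ∀ Q : ℕ, (N : ℝ) ^ ε ≤ Q → (Q : ℝ) ≤ (N : ℝ) ^ (1 / 2 : ℝ) →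
      open Classical in
      (((Finset.Ioc Q (2 * Q)).filter (fun p : ℕ => p.Prime ∧
        Bad ((p : ℝ) ^ (-(1 / 10000) : ℝ)) A p)).card : ℝ) ≤ (Q : ℝ) ^ (1 - 1 / 10000 : ℝ) := by
  classical
  obtain ⟨C, hC, hw⟩ := wbad
  set m0 : ℕ := ⌈1 / ε⌉₊ + 1 with hm0
  set K : ℝ := max 1 (C * (m0 : ℝ) ^ m0 * (1 + 4 ^ m0) * 2 ^ m0) with hK
  have hK1 : 1 ≤ K := le_max_left _ _
  have hK2 : C * (m0 : ℝ) ^ m0 * (1 + 4 ^ m0) * 2 ^ m0 ≤ K := le_max_right _ _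
  have h3 := tendsto_natCast_atTop_atTop (R := ℝ)
  have e1 : ∀ᶠ x : ℝ in atTop, K ≤ x ^ (ε * (1 / 10000)) :=
    (tendsto_rpow_atTop (by positivity)).eventually_ge_atTop _
  have e2 : ∀ᶠ x : ℝ in atTop, (m0 : ℝ) ≤ x ^ ε :=
    (tendsto_rpow_atTop hε).eventually_ge_atTop _
  filter_upwards [h3.eventually e1, h3.eventually e2, eventually_ge_atTop 2] with N e1 e2 hN
  intro A hA hAne hen Q hQ1 hQ2
  have hN1 : (1 : ℝ) < N := by exact_mod_cast hN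
  have hN0 : (0 : ℝ) < N := by linarith
  have hL : 0 < Real.log N := Real.log_pos hN1
  have hNe : (1 : ℝ) ≤ (N : ℝ) ^ ε := Real.one_le_rpow hN1.le hε.le
  have hQr : (1 : ℝ) ≤ Q := hNe.trans hQ1
  have hQ0 : (0 : ℝ) < Q := by linarith
  have hlQ1 : ε * Real.log N ≤ Real.log Q := by
    rw [← Real.log_rpow hN0]
    exact Real.log_le_log (by positivity) hQ1
  have hlQ2 : Real.log Q ≤ 1 / 2 * Real.log N := by
    rw [← Real.log_rpow hN0]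
    exact Real.log_le_log hQ0 hQ2
  obtain ⟨m, hm1, hmm, hma, hmb⟩ := Few_m ε _ _ hε hL hlQ1 hlQ2
  set P : Finset ℕ := (Finset.Ioc Q (2 * Q)).filter (fun p : ℕ => p.Prime ∧
        Bad ((p : ℝ) ^ (-(1 / 10000) : ℝ)) A p) with hP
  set c : ℝ := 1 / 10000 with hc
  set η : ℝ := (2 * (Q : ℝ)) ^ (-c) with hη
  have h2Q : (0 : ℝ) < 2 * Q := by positivity
  have hη0 : 0 < η := Real.rpow_pos_of_pos h2Q _
  have hb := hw m P (2 * Q) N A η hm1 hη0 (by omega) hA (by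
    intro p hp
    rw [hP, mem_filter, mem_Ioc] at hp
    obtain ⟨⟨hp1, hp2⟩, hp3, ζ, hζ1, hζ2, hζ3⟩ := hp
    refine ⟨hp3, ?_, hp2, ζ, hζ1, hζ2, le_trans ?_ hζ3⟩
    · have : (m : ℝ) < p := by
        calc (m : ℝ) ≤ m0 := by exact_mod_cast hmm
          _ ≤ (N : ℝ) ^ ε := e2
          _ ≤ Q := hQ1
          _ < p := by exact_mod_cast hp1
      exact_mod_cast this
    · have hpp : (0 : ℝ) < p := by exact_mod_cast hp3.pos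
      have : η ≤ (p : ℝ) ^ (-c) := by
        rw [hη]
        refine Real.rpow_le_rpow_of_nonpos hpp (by exact_mod_cast hp2) (by rw [hc]; norm_num)
      have hcard : (0 : ℝ) ≤ A.card := Nat.cast_nonneg _
      exact mul_le_mul_of_nonneg_right this hcard)
  have hAc : (0 : ℝ) < (A.card : ℝ) ^ 4 := by
    have : 0 < A.card := hAne.card_pos
    positivity
  set X : ℝ := (Q : ℝ) ^ (1 - 6 * c) with hX
  have hX0 : 0 < X := Real.rpow_pos_of_pos hQ0 _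
  have hXm : Real.log (X ^ m) = m * ((1 - 6 * c) * Real.log Q) := by
    rw [Real.log_pow, hX, Real.log_rpow hQ0]
  have hXm0 : 0 < X ^ m := by positivity
  have i1 : (N : ℝ) * (N : ℝ) ^ (-(667 / 1000) : ℝ) ≤ X ^ m := by
    rw [← Real.log_le_log_iff (by positivity) hXm0, hXm,
      Real.log_mul hN0.ne' (by positivity), Real.log_rpow hN0, hc]
    nlinarith
  have i2 : (Q : ℝ) ^ (2 * m) * (N : ℝ) ^ (-(667 / 1000) : ℝ) ≤ X ^ m := by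
    rw [← Real.log_le_log_iff (by positivity) hXm0, hXm,
      Real.log_mul (by positivity) (by positivity), Real.log_rpow hN0, Real.log_pow, hc]
    push_cast
    nlinarith
  have hmm' : (m : ℝ) ≤ m0 := by exact_mod_cast hmm
  have hm0' : (1 : ℝ) ≤ m0 := by exact_mod_cast le_trans hm1 hmm
  have hmp : (m : ℝ) ^ m ≤ (m0 : ℝ) ^ m0 := by
    calc (m : ℝ) ^ m ≤ (m0 : ℝ) ^ m := by gcongr
      _ ≤ (m0 : ℝ) ^ m0 := pow_le_pow_right₀ hm0' hmm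
  have h4 : (4 : ℝ) ^ m ≤ 4 ^ m0 := pow_le_pow_right₀ (by norm_num) hmm
  have h2 : (2 : ℝ) ^ m ≤ 2 ^ m0 := pow_le_pow_right₀ (by norm_num) hmm
  have hnk : (0 : ℝ) < (N : ℝ) ^ (-(667 / 1000) : ℝ) := Real.rpow_pos_of_pos hN0 _
  have hn0 : (0 : ℝ) ≤ (P.card : ℝ) ^ m := by positivity
  -- the bound without the factor `|A|^4`
  have s1 : η ^ (4 * m) * (P.card : ℝ) ^ m ≤
      C * (m0 : ℝ) ^ m0 * (1 + 4 ^ m0) * X ^ m := by
    have t1 : η ^ (4 * m) * (P.card : ℝ) ^ m * (A.card : ℝ) ^ 4 ≤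
        C * (m : ℝ) ^ m * (N + ((2 * Q : ℕ) : ℝ) ^ (2 * m)) *
          ((A.card : ℝ) ^ 4 * (N : ℝ) ^ (-(667 / 1000) : ℝ)) :=
      hb.trans (mul_le_mul_of_nonneg_left hen (by positivity))
    have t2 : C * (m : ℝ) ^ m * (N + ((2 * Q : ℕ) : ℝ) ^ (2 * m)) *
          ((A.card : ℝ) ^ 4 * (N : ℝ) ^ (-(667 / 1000) : ℝ)) =
        C * (m : ℝ) ^ m * ((N : ℝ) * (N : ℝ) ^ (-(667 / 1000) : ℝ) +
          4 ^ m * ((Q : ℝ) ^ (2 * m) * (N : ℝ) ^ (-(667 / 1000) : ℝ))) * (A.card : ℝ) ^ 4 := by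
      push_cast
      rw [mul_pow, pow_mul 2 2 m]
      norm_num
      ring
    rw [t2] at t1
    have t3 := (mul_le_mul_iff_left₀ hAc).1 t1
    refine t3.trans ?_
    calc C * (m : ℝ) ^ m * ((N : ℝ) * (N : ℝ) ^ (-(667 / 1000) : ℝ) +
          4 ^ m * ((Q : ℝ) ^ (2 * m) * (N : ℝ) ^ (-(667 / 1000) : ℝ)))
        ≤ C * (m0 : ℝ) ^ m0 * (X ^ m + 4 ^ m0 * X ^ m) := by gcongr
      _ = _ := by ring
  have hη4 : η ^ (4 * m) * (2 ^ m * ((Q : ℝ) ^ (4 * c)) ^ m) ≥ 1 := by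
    have u1 : (1 : ℝ) ≤ η ^ 4 * (2 * (Q : ℝ) ^ (4 * c)) := by
      have u2 : η ^ 4 = (2 : ℝ) ^ (-(4 * c)) * (Q : ℝ) ^ (-(4 * c)) := by
        rw [hη, ← Real.rpow_natCast, ← Real.rpow_mul h2Q.le,
          ← Real.mul_rpow (by norm_num) hQ0.le]
        congr 1
        push_cast
        ring
      have u3 : (Q : ℝ) ^ (-(4 * c)) * (Q : ℝ) ^ (4 * c) = 1 := by
        rw [← Real.rpow_add hQ0]
        simp
      have u4 : (1 : ℝ) ≤ (2 : ℝ) ^ (-(4 * c)) * 2 := by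
        have : (2 : ℝ) ^ (-(4 * c)) * 2 = (2 : ℝ) ^ (1 - 4 * c) := by
          rw [sub_eq_add_neg, Real.rpow_add (by norm_num), Real.rpow_one, mul_comm]
        rw [this]
        exact Real.one_le_rpow (by norm_num) (by rw [hc]; norm_num)
      rw [u2]
      calc (1 : ℝ) ≤ (2 : ℝ) ^ (-(4 * c)) * 2 := u4
        _ = (2 : ℝ) ^ (-(4 * c)) * 2 * ((Q : ℝ) ^ (-(4 * c)) * (Q : ℝ) ^ (4 * c)) := by
            rw [u3, mul_one]
        _ = _ := by ring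
    have u5 : η ^ (4 * m) * (2 ^ m * ((Q : ℝ) ^ (4 * c)) ^ m) =
        (η ^ 4 * (2 * (Q : ℝ) ^ (4 * c))) ^ m := by
      rw [mul_pow, mul_pow, ← pow_mul]
    rw [u5]
    exact one_le_pow₀ u1
  have s2 : (P.card : ℝ) ^ m ≤ K * ((Q : ℝ) ^ (1 - 2 * c)) ^ m := by
    have v1 : X ^ m * ((Q : ℝ) ^ (4 * c)) ^ m = ((Q : ℝ) ^ (1 - 2 * c)) ^ m := by
      rw [← mul_pow, hX, ← Real.rpow_add hQ0]
      congr 2
      ring
    have v2 : (0 : ℝ) ≤ 2 ^ m * ((Q : ℝ) ^ (4 * c)) ^ m := by positivity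
    calc (P.card : ℝ) ^ m
        ≤ (P.card : ℝ) ^ m * (η ^ (4 * m) * (2 ^ m * ((Q : ℝ) ^ (4 * c)) ^ m)) :=
          le_mul_of_one_le_right hn0 hη4
      _ = η ^ (4 * m) * (P.card : ℝ) ^ m * (2 ^ m * ((Q : ℝ) ^ (4 * c)) ^ m) := by ring
      _ ≤ C * (m0 : ℝ) ^ m0 * (1 + 4 ^ m0) * X ^ m * (2 ^ m * ((Q : ℝ) ^ (4 * c)) ^ m) :=
          mul_le_mul_of_nonneg_right s1 v2
      _ = C * (m0 : ℝ) ^ m0 * (1 + 4 ^ m0) * 2 ^ m * (X ^ m * ((Q : ℝ) ^ (4 * c)) ^ m) := by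
          ring
      _ = C * (m0 : ℝ) ^ m0 * (1 + 4 ^ m0) * 2 ^ m * ((Q : ℝ) ^ (1 - 2 * c)) ^ m := by rw [v1]
      _ ≤ C * (m0 : ℝ) ^ m0 * (1 + 4 ^ m0) * 2 ^ m0 * ((Q : ℝ) ^ (1 - 2 * c)) ^ m := by gcongr
      _ ≤ K * ((Q : ℝ) ^ (1 - 2 * c)) ^ m := by gcongr
  have s3 : (P.card : ℝ) ≤ K * (Q : ℝ) ^ (1 - 2 * c) := by
    have hmne : m ≠ 0 := by omega
    refine (pow_le_pow_iff_left₀ (by positivity) (by positivity) hmne).mp ?_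
    calc (P.card : ℝ) ^ m ≤ K * ((Q : ℝ) ^ (1 - 2 * c)) ^ m := s2
      _ ≤ K ^ m * ((Q : ℝ) ^ (1 - 2 * c)) ^ m := by
          have hKm : K ≤ K ^ m := by
            calc K = K ^ 1 := (pow_one K).symm
              _ ≤ K ^ m := pow_le_pow_right₀ hK1 hm1
          gcongr
      _ = (K * (Q : ℝ) ^ (1 - 2 * c)) ^ m := by rw [mul_pow]
  have s4 : K ≤ (Q : ℝ) ^ c := by
    refine e1.trans ?_
    rw [Real.rpow_mul hN0.le]
    exact Real.rpow_le_rpow (by positivity) hQ1 (by rw [hc]; norm_num)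
  calc (P.card : ℝ) ≤ K * (Q : ℝ) ^ (1 - 2 * c) := s3
    _ ≤ (Q : ℝ) ^ c * (Q : ℝ) ^ (1 - 2 * c) := by gcongr
    _ = (Q : ℝ) ^ (1 - c) := by
        rw [← Real.rpow_add hQ0]
        congr 1
        ring

end Pool.CSU
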