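import Pool.Agent.Lib.CSU.Main
import Pool.Agent.Lib.CSU.Eng

/-!
# CSU, module Fin: passage from sets of integers to sets of natural numbers
-/

set_option autoImplicit false

open Finset Filter

namespace Pool.CSU

open Pool.CSE (rep val)

theorem fin_eng (l m : ℤ) (A B : Finset ℕ) :
    (((A ×ˢ B) ×ˢ (A ×ˢ B)).filter (fun z : (ℕ × ℕ) × (ℕ × ℕ) =>
      l * (z.1.1 : ℤ) + m * (z.1.2 : ℤ) = l * (z.2.1 : ℤ) + m * (z.2.2 : ℤ))).card =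
      eng l m (A.image (fun a : ℕ => (a : ℤ))) (B.image (fun b : ℕ => (b : ℤ))) := by
  unfold eng
  refine Finset.card_bij (fun z _ => (((z.1.1 : ℤ), (z.1.2 : ℤ)), ((z.2.1 : ℤ), (z.2.2 : ℤ))))
    ?_ ?_ ?_
  · rintro ⟨⟨a, b⟩, ⟨a', b'⟩⟩ hz
    simp only [mem_filter, mem_product, mem_image] at hz ⊢
    exact ⟨⟨⟨⟨a, hz.1.1.1, rfl⟩, ⟨b, hz.1.1.2, rfl⟩⟩, ⟨⟨a', hz.1.2.1, rfl⟩, ⟨b', hz.1.2.2, rfl⟩⟩⟩,
      hz.2⟩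
  · rintro ⟨⟨a, b⟩, ⟨a', b'⟩⟩ _ ⟨⟨c, d⟩, ⟨c', d'⟩⟩ _ h
    simp only [Prod.mk.injEq, Nat.cast_inj] at h
    simp only [Prod.mk.injEq]
    exact h
  · rintro ⟨⟨a, b⟩, ⟨a', b'⟩⟩ hz
    simp only [mem_filter, mem_product, mem_image] at hz
    obtain ⟨⟨⟨⟨a, ha, rfl⟩, ⟨b, hb, rfl⟩⟩, ⟨⟨a', ha', rfl⟩, ⟨b', hb', rfl⟩⟩⟩, h⟩ := hz
    refine ⟨((a, b), (a', b')), ?_, rfl⟩
    simp only [mem_filter, mem_product]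
    exact ⟨⟨⟨ha, hb⟩, ⟨ha', hb'⟩⟩, h⟩

theorem fin_val (l m : ℤ) (A B : Finset ℕ) :
    (A ×ˢ B).image (fun z : ℕ × ℕ => l * (z.1 : ℤ) + m * (z.2 : ℤ)) =
      val l m (A.image (fun a : ℕ => (a : ℤ))) (B.image (fun b : ℕ => (b : ℤ))) := by
  unfold Pool.CSE.val
  ext t
  simp only [mem_image, mem_product, Prod.exists]
  constructor
  · rintro ⟨a, b, ⟨ha, hb⟩, rfl⟩
    exact ⟨a, b, ⟨⟨a, ha, rfl⟩, ⟨b, hb, rfl⟩⟩, rfl⟩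
  · rintro ⟨x, y, ⟨⟨a, ha, rfl⟩, ⟨b, hb, rfl⟩⟩, rfl⟩
    exact ⟨a, b, ⟨ha, hb⟩, rfl⟩

theorem fin_card (A : Finset ℕ) : (A.image (fun a : ℕ => (a : ℤ))).card = A.card :=
  Finset.card_image_of_injective _ Nat.cast_injective

theorem fin_cs (l m : ℤ) (X Y : Finset ℤ) :
    ((X.card : ℝ) * Y.card) ^ 2 ≤ (val l m X Y).card * (eng l m X Y : ℝ) := by
  have h1 : ((X.card : ℝ) * Y.card) = ∑ t ∈ val l m X Y, (rep l m X Y t : ℝ) := by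
    rw [← Nat.cast_mul, ← Pool.CSE.sum_rep l m X Y, Nat.cast_sum]
  have h2 : (eng l m X Y : ℝ) = ∑ t ∈ val l m X Y, (rep l m X Y t : ℝ) ^ 2 := by
    rw [eng_rep, Nat.cast_sum]
    exact Finset.sum_congr rfl fun t _ => by push_cast; rfl
  rw [h1, h2]
  exact sq_sum_le_card_mul_sum_sq

/-- the first theorem for sets of natural numbers -/
theorem fin1 (l m : ℤ) (hl : l ≠ 0) (hm : m ≠ 0) (ε : ℝ) (hε : 0 < ε) :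
    ∃ N₀ : ℕ, ∀ N : ℕ, N₀ ≤ N → ∀ A B : Finset ℕ,
      A ⊆ Finset.Icc 1 N → B ⊆ Finset.Icc 1 N →
      (N : ℝ) ^ (0.49 : ℝ) ≤ (A.card : ℝ) → (N : ℝ) ^ (0.49 : ℝ) ≤ (B.card : ℝ) →
      (∃ a ∈ A, ∃ b ∈ B, 1 < a + b ∧ ¬ Nat.Prime (a + b)) ∨
      ((((((A ×ˢ B) ×ˢ (A ×ˢ B)).filter (fun z : (ℕ × ℕ) × (ℕ × ℕ) =>
          l * (z.1.1 : ℤ) + m * (z.1.2 : ℤ) = l * (z.2.1 : ℤ) + m * (z.2.2 : ℤ))).card : ℕ) : ℝ) ≤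
          (N : ℝ) ^ (1 / 4 + ε) * ((A.card : ℝ) * (B.card : ℝ)) ∧
        (A.card : ℝ) * (B.card : ℝ) ≤ (N : ℝ) ^ (1 / 4 + ε) *
          (((A ×ˢ B).image (fun z : ℕ × ℕ => l * (z.1 : ℤ) + m * (z.2 : ℤ))).card : ℝ)) := by
  have h0 := mainE1 l m hl hm ε hε
  rw [Filter.eventually_atTop] at h0
  obtain ⟨N₀, h0⟩ := h0
  have h49 : (0.49 : ℝ) = 49 / 100 := by norm_num
  refine ⟨N₀ + 1, fun N hN A B hA hB hAc hBc => ?_⟩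
  rw [h49] at hAc hBc
  by_cases hc : ∃ a ∈ A, ∃ b ∈ B, 1 < a + b ∧ ¬ Nat.Prime (a + b)
  · exact Or.inl hc
  right
  push Not at hc
  have h1 := h0 N (by omega) A B hA hB hAc hBc (fun a ha b hb h => h.2 (hc a ha b hb h.1))
  rw [fin_eng, fin_val]
  refine ⟨h1, ?_⟩
  have h2 := fin_cs l m (A.image (fun a : ℕ => (a : ℤ))) (B.image (fun b : ℕ => (b : ℤ)))
  rw [fin_card, fin_card] at h2
  set V : ℝ := ((val l m (A.image (fun a : ℕ => (a : ℤ))) (B.image (fun b : ℕ => (b : ℤ)))).card : ℝ)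
  set P : ℝ := (A.card : ℝ) * (B.card : ℝ) with hP
  have hN0 : (0 : ℝ) < N := by
    have : 0 < N := by omega
    exact_mod_cast this
  have hpos : 0 < P := mul_pos (lt_of_lt_of_le (Real.rpow_pos_of_pos hN0 _) hAc)
    (lt_of_lt_of_le (Real.rpow_pos_of_pos hN0 _) hBc)
  have hV : 0 ≤ V := Nat.cast_nonneg _
  have h3 : P ^ 2 ≤ V * ((N : ℝ) ^ (1 / 4 + ε) * P) :=
    h2.trans (mul_le_mul_of_nonneg_left h1 hV)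
  have h4 : P * P ≤ ((N : ℝ) ^ (1 / 4 + ε) * V) * P := by nlinarith
  exact le_of_mul_le_mul_right h4 hpos

/-- the second theorem for sets of natural numbers -/
theorem fin2 (l m : ℤ) (hl : l ≠ 0) (hm : m ≠ 0) :
    ∃ N₀ : ℕ, ∀ N : ℕ, N₀ ≤ N → ∀ A B : Finset ℕ,
      A ⊆ Finset.Icc 1 N → B ⊆ Finset.Icc 1 N →
      (N : ℝ) ^ (0.49 : ℝ) ≤ (A.card : ℝ) → (N : ℝ) ^ (0.49 : ℝ) ≤ (B.card : ℝ) →
      (∃ a ∈ A, ∃ b ∈ B, 1 < a + b ∧ ¬ Nat.Prime (a + b)) ∨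
      ((((((A ×ˢ A) ×ˢ (A ×ˢ A)).filter (fun z : (ℕ × ℕ) × (ℕ × ℕ) =>
          l * (z.1.1 : ℤ) + m * (z.1.2 : ℤ) = l * (z.2.1 : ℤ) + m * (z.2.2 : ℤ))).card : ℕ) : ℝ) ≤
          (N : ℝ) ^ (0.313 : ℝ) * (A.card : ℝ) ^ 2 ∧
        (N : ℝ) ^ (2 / 3 : ℝ) <
          (((A ×ˢ A).image (fun z : ℕ × ℕ => l * (z.1 : ℤ) + m * (z.2 : ℤ))).card : ℝ)) := by
  have h0 := mainE2 l m hl hm
  rw [Filter.eventually_atTop] at h0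
  obtain ⟨N₀, h0⟩ := h0
  have h49 : (0.49 : ℝ) = 49 / 100 := by norm_num
  have h313 : (0.313 : ℝ) = 313 / 1000 := by norm_num
  refine ⟨N₀ + 2, fun N hN A B hA hB hAc hBc => ?_⟩
  rw [h49] at hAc hBc
  by_cases hc : ∃ a ∈ A, ∃ b ∈ B, 1 < a + b ∧ ¬ Nat.Prime (a + b)
  · exact Or.inl hc
  right
  push Not at hc
  have h1 := h0 N (by omega) A B hA hB hAc hBc (fun a ha b hb h => h.2 (hc a ha b hb h.1))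
  rw [fin_eng, fin_val, h313]
  refine ⟨by rw [sq]; exact h1, ?_⟩
  have h2 := fin_cs l m (A.image (fun a : ℕ => (a : ℤ))) (A.image (fun b : ℕ => (b : ℤ)))
  rw [fin_card] at h2
  set V : ℝ := ((val l m (A.image (fun a : ℕ => (a : ℤ))) (A.image (fun b : ℕ => (b : ℤ)))).card : ℝ)
  set P : ℝ := (A.card : ℝ) * (A.card : ℝ) with hP
  have hN1 : (1 : ℝ) < N := by
    have : 1 < N := by omega
    exact_mod_cast this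
  have hN0 : (0 : ℝ) < N := by linarith
  have hx : 0 < (N : ℝ) ^ (49 / 100 : ℝ) := Real.rpow_pos_of_pos hN0 _
  have hA0 : (0 : ℝ) < A.card := lt_of_lt_of_le hx hAc
  have hpos : 0 < P := mul_pos hA0 hA0
  have hV : 0 ≤ V := Nat.cast_nonneg _
  have h3 : P ^ 2 ≤ V * ((N : ℝ) ^ (313 / 1000 : ℝ) * P) :=
    h2.trans (mul_le_mul_of_nonneg_left h1 hV)
  have h4 : P * P ≤ ((N : ℝ) ^ (313 / 1000 : ℝ) * V) * P := by nlinarith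
  have h5 : P ≤ (N : ℝ) ^ (313 / 1000 : ℝ) * V := le_of_mul_le_mul_right h4 hpos
  have h6 : (N : ℝ) ^ (98 / 100 : ℝ) ≤ P := by
    have : (N : ℝ) ^ (98 / 100 : ℝ) = (N : ℝ) ^ (49 / 100 : ℝ) * (N : ℝ) ^ (49 / 100 : ℝ) := by
      rw [← Real.rpow_add hN0]; norm_num
    rw [this]
    exact mul_le_mul hAc hAc hx.le hA0.le
  have h7 : (N : ℝ) ^ (313 / 1000 : ℝ) * (N : ℝ) ^ (2 / 3 : ℝ) < (N : ℝ) ^ (98 / 100 : ℝ) := by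
    rw [← Real.rpow_add hN0]
    exact Real.rpow_lt_rpow_of_exponent_lt hN1 (by norm_num)
  have hy : 0 < (N : ℝ) ^ (313 / 1000 : ℝ) := Real.rpow_pos_of_pos hN0 _
  have h8 : (N : ℝ) ^ (313 / 1000 : ℝ) * (N : ℝ) ^ (2 / 3 : ℝ) <
      (N : ℝ) ^ (313 / 1000 : ℝ) * V := by linarith
  exact lt_of_mul_lt_mul_left h8 hy.le

/-- the third theorem for sets of natural numbers -/
theorem fin3 (ε : ℝ) (hε : 0 < ε) :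
    ∃ N₀ : ℕ, ∀ N : ℕ, N₀ ≤ N → ∀ A B : Finset ℕ,
      A ⊆ Finset.Icc 1 N → B ⊆ Finset.Icc 1 N →
      (N : ℝ) ^ (0.49 : ℝ) ≤ (A.card : ℝ) → (N : ℝ) ^ (0.49 : ℝ) ≤ (B.card : ℝ) →
      (∃ a ∈ A, ∃ b ∈ B, 1 < a + b ∧ ¬ Nat.Prime (a + b)) ∨
      ∀ Q : ℕ, (N : ℝ) ^ ε ≤ (Q : ℝ) → (Q : ℝ) ≤ (N : ℝ) ^ (1 / 2 : ℝ) → ∀ P : Finset ℕ,
        (∀ p ∈ P, p.Prime ∧ Q < p ∧ p ≤ 2 * Q ∧ ∃ ζ : ℂ, ζ ^ p = 1 ∧ ζ ≠ 1 ∧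
          (p : ℝ) ^ (-(1 / 20000) : ℝ) * (A.card : ℝ) ≤ ‖∑ a ∈ A, ζ ^ a‖) →
        (P.card : ℝ) ≤ (Q : ℝ) ^ (1 - 1 / 20000 : ℝ) := by
  have h0 := mainP ε hε
  rw [Filter.eventually_atTop] at h0
  obtain ⟨N₀, h0⟩ := h0
  have h49 : (0.49 : ℝ) = 49 / 100 := by norm_num
  refine ⟨N₀, fun N hN A B hA hB hAc hBc => ?_⟩
  rw [h49] at hAc hBc
  by_cases hc : ∃ a ∈ A, ∃ b ∈ B, 1 < a + b ∧ ¬ Nat.Prime (a + b)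
  · exact Or.inl hc
  right
  push Not at hc
  intro Q hQ1 hQ2 P hP
  have h1 := h0 N hN A B hA hB hAc hBc (fun a ha b hb h => h.2 (hc a ha b hb h.1)) Q hQ1 hQ2
  refine le_trans ?_ h1
  refine Nat.cast_le.mpr (Finset.card_le_card ?_)
  intro p hp
  obtain ⟨a1, a2, a3, a4⟩ := hP p hp
  classical
  exact Finset.mem_filter.2 ⟨mem_Ioc.mpr ⟨a2, a3⟩, a1, a4⟩

end Pool.CSU
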