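import Pool.Agent.Lib.CSE.FouA
import Pool.Agent.Lib.CSU.Defs

/-!
# CSU, module FouC: the largest Fourier coefficient of a set of residues is at most `p / π + 2`

`cos_sum`: `h(x) = max (cos x) 0` is `1`-Lipschitz and `2π`-periodic with integral `2` over a period
(`∫_{-π/2}^{π/2} cos = 2`; `Function.Periodic.intervalIntegral_add_eq`). For
`j = 0, …, p-1`: on `[2πj/p, 2π(j+1)/p]` one has `h(x - φ) ≥ h(2πj/p - φ) - 2π/p`; integrate and sum:
`(2π/p) ∑_j h(2πj/p - φ) ≤ 2 + 2π · 2π/p`, so `∑_j h ≤ p/π + 2π`.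

`hat_max`: let `k ≠ 0` and `φ = arg (hat X k)`. `‖hat X k‖ = Re (e^{-iφ} hat X k) =
∑_{x∈X} cos(2π (k x) / p - φ)` (`ZMod.stdAddChar` at `k x` or its conjugate, see the definition of
`hat` in `CSE/FouA.lean`) `≤ ∑_{y : ZMod p} h(± 2π y.val / p - φ)` (`x ↦ k x` is injective; the other
terms are `≥ 0`) `≤ p/π + 2π`. And `(p/π + 2π)^2 ≤ (507/5000) p^2` for `p` large
(`1/π^2 < 0.10133 < 0.1014`; `π > 3.1415`).
-/

set_option autoImplicit false

open Finset

namespace Pool.CSU

open Pool.Agent.Lib.MP_4b09b1_nt (res pairs)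
open Pool.CSE (G rep Bad prI wt dens sv Mv val pop hat hatT)

/-- the positive part of the cosine -/
private noncomputable def fouC_h (x : ℝ) : ℝ := max (Real.cos x) 0

private theorem fouC_cont : Continuous fouC_h :=
  Real.continuous_cos.max continuous_const

private theorem fouC_nonneg (x : ℝ) : 0 ≤ fouC_h x := le_max_right _ _

private theorem fouC_periodic : Function.Periodic fouC_h (2 * Real.pi) := by
  intro x
  unfold fouC_h
  rw [Real.cos_add_two_pi]

private theorem fouC_lip (x y : ℝ) : fouC_h x - |x - y| ≤ fouC_h y := by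
  have h1 : |Real.cos x - Real.cos y| ≤ |x - y| := by
    have h2 := Real.abs_cos_sub_cos_le x y
    exact h2
  have h3 := le_abs_self (Real.cos x - Real.cos y)
  unfold fouC_h
  have h4 := abs_nonneg (x - y)
  rcases le_total (Real.cos x) 0 with h | h
  · rw [max_eq_right h]
    have := le_max_right (Real.cos y) 0
    linarith
  · rw [max_eq_left h]
    have := le_max_left (Real.cos y) 0
    linarith

private theorem fouC_int : ∫ x in (0 : ℝ)..(2 * Real.pi), fouC_h x = 2 := by
  have h1 := fouC_periodic.intervalIntegral_add_eq 0 (-(Real.pi / 2))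
  rw [zero_add] at h1
  rw [h1]
  have h2 : -(Real.pi / 2) + 2 * Real.pi = 3 * Real.pi / 2 := by ring
  rw [h2]
  have hint : ∀ a b : ℝ, IntervalIntegrable fouC_h MeasureTheory.volume a b := fun a b =>
    fouC_cont.intervalIntegrable a b
  rw [← intervalIntegral.integral_add_adjacent_intervals (hint (-(Real.pi / 2)) (Real.pi / 2))
    (hint (Real.pi / 2) (3 * Real.pi / 2))]
  have hpi := Real.pi_pos
  have h3 : ∫ x in (-(Real.pi / 2))..(Real.pi / 2), fouC_h x = 2 := by
    have h4 : ∫ x in (-(Real.pi / 2))..(Real.pi / 2), fouC_h x =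
        ∫ x in (-(Real.pi / 2))..(Real.pi / 2), Real.cos x := by
      refine intervalIntegral.integral_congr fun x hx => ?_
      rw [Set.uIcc_of_le (by linarith)] at hx
      exact max_eq_left (Real.cos_nonneg_of_mem_Icc hx)
    rw [h4, integral_cos, Real.sin_neg, Real.sin_pi_div_two]
    norm_num
  have h5 : ∫ x in (Real.pi / 2)..(3 * Real.pi / 2), fouC_h x = 0 := by
    have h4 : ∫ x in (Real.pi / 2)..(3 * Real.pi / 2), fouC_h x =
        ∫ x in (Real.pi / 2)..(3 * Real.pi / 2), (0 : ℝ) := by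
      refine intervalIntegral.integral_congr fun x hx => ?_
      rw [Set.uIcc_of_le (by linarith)] at hx
      exact max_eq_right (Real.cos_nonpos_of_pi_div_two_le_of_le hx.1 (by linarith [hx.2]))
    rw [h4]
    simp
  rw [h3, h5]
  norm_num

theorem cos_sum (p : ℕ) (hp : 0 < p) (φ : ℝ) :
    ∑ j ∈ range p, max (Real.cos (2 * Real.pi * j / p - φ)) 0 ≤ p / Real.pi + 2 * Real.pi := by
  have hpR : (0 : ℝ) < p := by exact_mod_cast hp
  have hpi := Real.pi_pos
  set a : ℕ → ℝ := fun j => 2 * Real.pi * j / p - φ with ha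
  have hstep : ∀ j : ℕ, a (j + 1) - a j = 2 * Real.pi / p := by
    intro j
    simp only [ha]
    push_cast
    field_simp
    ring
  have hpos : 0 < 2 * Real.pi / p := by positivity
  have hsum : ∑ j ∈ range p, ∫ x in (a j)..(a (j + 1)), fouC_h x = 2 := by
    rw [intervalIntegral.sum_integral_adjacent_intervals
      (fun k _ => fouC_cont.intervalIntegrable _ _)]
    have h0 : a 0 = -φ := by simp [ha]
    have h1 : a p = -φ + 2 * Real.pi := by
      simp only [ha]
      field_simp
      ring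
    rw [h0, h1, fouC_periodic.intervalIntegral_add_eq (-φ) 0, zero_add]
    exact fouC_int
  have hterm : ∀ j : ℕ, (2 * Real.pi / p) * (fouC_h (a j) - 2 * Real.pi / p) ≤
      ∫ x in (a j)..(a (j + 1)), fouC_h x := by
    intro j
    have hle : a j ≤ a (j + 1) := by linarith [hstep j]
    have h1 : ∫ x in (a j)..(a (j + 1)), (fouC_h (a j) - 2 * Real.pi / p) =
        (2 * Real.pi / p) * (fouC_h (a j) - 2 * Real.pi / p) := by
      rw [intervalIntegral.integral_const, hstep, smul_eq_mul]
    rw [← h1]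
    refine intervalIntegral.integral_mono_on hle (by simp)
      (fouC_cont.intervalIntegrable _ _) fun x hx => ?_
    have h2 := fouC_lip (a j) x
    have h3 : |a j - x| ≤ 2 * Real.pi / p := by
      rw [abs_le]
      constructor
      · linarith [hx.2, hstep j]
      · linarith [hx.1]
    linarith
  have h1 : ∑ j ∈ range p, (2 * Real.pi / p) * (fouC_h (a j) - 2 * Real.pi / p) ≤ 2 :=
    (Finset.sum_le_sum fun j _ => hterm j).trans_eq hsum
  rw [← Finset.mul_sum, Finset.sum_sub_distrib, Finset.sum_const, Finset.card_range,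
    nsmul_eq_mul] at h1
  have h2 : (p : ℝ) * (2 * Real.pi / p) = 2 * Real.pi := by field_simp
  rw [h2] at h1
  change ∑ j ∈ range p, fouC_h (a j) ≤ p / Real.pi + 2 * Real.pi
  have h3 : (∑ j ∈ range p, fouC_h (a j)) - 2 * Real.pi ≤ 2 / (2 * Real.pi / p) := by
    rw [le_div_iff₀ hpos]
    linarith
  have h4 : 2 / (2 * Real.pi / p) = p / Real.pi := by field_simp
  rw [h4] at h3
  linarith

private theorem fouC_char (p : ℕ) [NeZero p] (y : ZMod p) (φ : ℝ) :
    (Complex.exp (-φ * Complex.I) * (ZMod.stdAddChar y : ℂ)).re =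
      Real.cos (2 * Real.pi * y.val / p - φ) := by
  rw [ZMod.stdAddChar_apply, ZMod.toCircle_apply, ← Complex.exp_add]
  have h1 : -(φ : ℂ) * Complex.I + 2 * Real.pi * Complex.I * y.val / p =
      ((2 * Real.pi * y.val / p - φ : ℝ) : ℂ) * Complex.I := by
    push_cast
    ring
  rw [h1, Complex.exp_ofReal_mul_I_re]

private theorem fouC_norm (p : ℕ) [Fact p.Prime] (X : Finset (ZMod p)) (k : ZMod p) (hk : k ≠ 0) :
    ‖hat X k‖ ≤ p / Real.pi + 2 * Real.pi := by
  set φ : ℝ := Complex.arg (hat X k) with hφ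
  have h1 : Complex.exp (-φ * Complex.I) * hat X k = (‖hat X k‖ : ℂ) := by
    have h2 := Complex.norm_mul_exp_arg_mul_I (hat X k)
    rw [← hφ] at h2
    calc Complex.exp (-φ * Complex.I) * hat X k
        = Complex.exp (-φ * Complex.I) * (‖hat X k‖ * Complex.exp (φ * Complex.I)) := by rw [h2]
      _ = ‖hat X k‖ * (Complex.exp (-φ * Complex.I) * Complex.exp (φ * Complex.I)) := by ring
      _ = (‖hat X k‖ : ℂ) := by
        rw [← Complex.exp_add]
        have h3 : -(φ : ℂ) * Complex.I + φ * Complex.I = 0 := by ring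
        rw [h3, Complex.exp_zero, mul_one]
  have h2 : ‖hat X k‖ = ∑ x ∈ X, Real.cos (2 * Real.pi * (k * x).val / p - φ) := by
    have h3 : ‖hat X k‖ = (Complex.exp (-φ * Complex.I) * hat X k).re := by
      rw [h1, Complex.ofReal_re]
    rw [h3]
    unfold hat
    rw [Finset.mul_sum, Complex.re_sum]
    exact Finset.sum_congr rfl fun x _ => fouC_char p (k * x) φ
  rw [h2]
  have hp : 0 < p := (Fact.out : p.Prime).pos
  refine le_trans ?_ (cos_sum p hp φ)
  have h4 : ∑ j ∈ range p, max (Real.cos (2 * Real.pi * j / p - φ)) 0 =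
      ∑ y : ZMod p, fouC_h (2 * Real.pi * y.val / p - φ) := by
    symm
    refine Finset.sum_nbij' (i := fun y : ZMod p => y.val) (j := fun j : ℕ => (j : ZMod p))
      ?_ ?_ ?_ ?_ ?_
    · intro y _
      exact Finset.mem_range.2 (ZMod.val_lt y)
    · intro j _
      exact Finset.mem_univ _
    · intro y _
      exact ZMod.natCast_zmod_val y
    · intro j hj
      exact ZMod.val_cast_of_lt (Finset.mem_range.1 hj)
    · intro y _
      rfl
  rw [h4]
  have hinj : Set.InjOn (fun x : ZMod p => k * x) (X : Set (ZMod p)) := by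
    intro x _ y _ hxy
    exact mul_left_cancel₀ hk hxy
  calc ∑ x ∈ X, Real.cos (2 * Real.pi * (k * x).val / p - φ)
      ≤ ∑ x ∈ X, fouC_h (2 * Real.pi * (k * x).val / p - φ) :=
        Finset.sum_le_sum fun x _ => le_max_left _ _
    _ = ∑ y ∈ X.image (fun x : ZMod p => k * x), fouC_h (2 * Real.pi * y.val / p - φ) := by
        rw [Finset.sum_image hinj]
    _ ≤ ∑ y : ZMod p, fouC_h (2 * Real.pi * y.val / p - φ) :=
        Finset.sum_le_sum_of_subset_of_nonneg (Finset.subset_univ _)
          fun y _ _ => fouC_nonneg _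

theorem hat_max : ∃ p₁ : ℕ, ∀ (p : ℕ) [Fact p.Prime], p₁ ≤ p → ∀ (X : Finset (ZMod p))
    (k : ZMod p), k ≠ 0 → ‖hat X k‖ ^ 2 ≤ 507 / 5000 * (p : ℝ) ^ 2 := by
  refine ⟨100000, fun p _ hp X k hk => ?_⟩
  have h1 := fouC_norm p X k hk
  have hpR : (100000 : ℝ) ≤ p := by exact_mod_cast hp
  have h2 : (3.1415 : ℝ) < Real.pi := Real.pi_gt_d4
  have h3 : Real.pi < (3.1416 : ℝ) := Real.pi_lt_d4
  have h4 : (p : ℝ) / Real.pi ≤ p / 3.1415 :=
    div_le_div_of_nonneg_left (by linarith) (by norm_num) h2.le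
  have h5 : (p : ℝ) / 3.1415 + 2 * 3.1416 ≤ 0.3184 * p := by
    rw [div_add' _ _ _ (by norm_num), div_le_iff₀ (by norm_num)]
    linarith
  have h6 : ‖hat X k‖ ≤ 0.3184 * p := by linarith
  have h7 := norm_nonneg (hat X k)
  calc ‖hat X k‖ ^ 2 ≤ (0.3184 * p) ^ 2 := pow_le_pow_left₀ h7 h6 2
    _ ≤ 507 / 5000 * (p : ℝ) ^ 2 := by
      rw [mul_pow]
      refine mul_le_mul_of_nonneg_right (by norm_num) (by positivity)

end Pool.CSU
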