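import Pool.Agent.Lib.CSU.FouC
import Pool.Agent.Lib.CSE.FouB

/-!
# CSU, module FouD: the bound (U) for the average of `G` over `T`

`G_max`: the proof of `CSE.G_l2` (copy it) with `hat_max` in place of `hat_sq_le` and
`∑_{k ≠ 0} ‖hat Y k‖^2 = p|Y| - |Y|^2 = p^2 β (1 - β)`, `β = |Y|/p` (`parseval_ne`), not estimated.
`∑_{k≠0} ‖hat X (kl)‖ ‖hat Y (km)‖ ‖hatT(-k)‖ ≤ √(p pairs - |T|^2) √((507/5000) p^2 · p^2 β(1-β))`
and `p pairs - |T|^2 = |T|^2 (Mv T p - 1)`.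
-/

set_option autoImplicit false

open Finset

namespace Pool.CSU

open Pool.Agent.Lib.MP_4b09b1_nt (res pairs)
open Pool.CSE (G rep Bad prI wt dens sv Mv val pop hat hatT)

theorem G_max : ∃ p₁ : ℕ, ∀ (p : ℕ) [Fact p.Prime], p₁ ≤ p → ∀ (l m : ℤ), (l : ZMod p) ≠ 0 →
    (m : ZMod p) ≠ 0 → ∀ (X Y : Finset (ZMod p)) (T : Finset ℤ), T.Nonempty →
    ∑ t ∈ T, (G p l m X Y (t : ZMod p) : ℝ) ≤
      T.card * (X.card * Y.card / p +
        p * √(507 / 5000 * ((Y.card : ℝ) / p * (1 - (Y.card : ℝ) / p)) * (Mv T p - 1))) := by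
  obtain ⟨p₁, hmax⟩ := hat_max
  refine ⟨p₁, ?_⟩
  intro p hpF hpp l m hl hm X Y T hT
  have hp0 : (0 : ℝ) < p := by
    exact_mod_cast (Fact.out : p.Prime).pos
  have hT0 : (0 : ℝ) < T.card := by
    exact_mod_cast Finset.card_pos.2 hT
  refine (Pool.CSE.fouB_main p l m X Y T).trans ?_
  set W : ℝ := p * Pool.Agent.Lib.MP_4b09b1_nt.pairs T p - (T.card : ℝ) ^ 2 with hW
  have hTn : ∑ k ∈ univ.erase (0 : ZMod p), ‖hatT p T (-k)‖ ^ 2 = W :=
    Pool.CSE.fouB_T_ne p T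
  have hW0 : 0 ≤ W := by
    rw [← hTn]
    exact Finset.sum_nonneg fun _ _ => sq_nonneg _
  have hY0 : (0 : ℝ) ≤ Y.card := Nat.cast_nonneg _
  have hYp : (Y.card : ℝ) ≤ p := by
    have h := Finset.card_le_univ Y
    rw [ZMod.card p] at h
    exact_mod_cast h
  set V : ℝ := 507 / 5000 * ((Y.card : ℝ) / p * (1 - (Y.card : ℝ) / p)) with hV
  have hβ : (Y.card : ℝ) / p ≤ 1 := by
    rw [div_le_one hp0]
    exact hYp
  have hV0 : 0 ≤ V := by
    rw [hV]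
    have h1 : (0 : ℝ) ≤ (Y.card : ℝ) / p := by positivity
    have h2 : (0 : ℝ) ≤ 1 - (Y.card : ℝ) / p := by linarith
    positivity
  have h1 : ∑ k ∈ univ.erase (0 : ZMod p),
        ‖hat X (k * l)‖ * ‖hat Y (k * m)‖ * ‖hatT p T (-k)‖ ≤
      √((p : ℝ) ^ 4 * V) * √W := by
    refine (Pool.CSE.fouB_cs (univ.erase (0 : ZMod p)) (fun k : ZMod p =>
      ‖hat X (k * l)‖ * ‖hat Y (k * m)‖) (fun k : ZMod p => ‖hatT p T (-k)‖)).trans ?_
    rw [hTn]
    refine mul_le_mul_of_nonneg_right (Real.sqrt_le_sqrt ?_) (Real.sqrt_nonneg _)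
    have h2 : ∑ k ∈ univ.erase (0 : ZMod p), (‖hat X (k * l)‖ * ‖hat Y (k * m)‖) ^ 2 ≤
        (507 / 5000 * (p : ℝ) ^ 2) * ∑ k ∈ univ.erase (0 : ZMod p), ‖hat Y (k * m)‖ ^ 2 := by
      rw [Finset.mul_sum]
      refine Finset.sum_le_sum fun k hk => ?_
      rw [mul_pow]
      exact mul_le_mul_of_nonneg_right (hmax p hpp X _
        (mul_ne_zero (Finset.ne_of_mem_erase hk) hl)) (sq_nonneg _)
    rw [Pool.CSE.fouB_shift_ne p m hm (fun k => ‖hat Y k‖ ^ 2), Pool.CSE.parseval_ne] at h2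
    refine h2.trans (le_of_eq ?_)
    rw [hV]
    field_simp
  have h4 : √((p : ℝ) ^ 4 * V) * √W = (p : ℝ) ^ 2 * √(V * W) := by
    rw [← Real.sqrt_mul (by positivity), show (p : ℝ) ^ 4 * V * W =
      ((p : ℝ) ^ 2) ^ 2 * (V * W) by ring, Real.sqrt_mul (by positivity),
      Real.sqrt_sq (by positivity)]
  have h5 : (T.card : ℝ) * √(V * (Mv T p - 1)) = √(V * W) := by
    have h6 : V * W = (T.card : ℝ) ^ 2 * (V * (Mv T p - 1)) := by
      rw [hW]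
      unfold Mv
      field_simp
    rw [h6, Real.sqrt_mul (sq_nonneg (T.card : ℝ)) (V * (Mv T p - 1)), Real.sqrt_sq hT0.le]
  rw [h4] at h1
  calc (1 / p : ℝ) * ((X.card * Y.card * T.card : ℝ) + ∑ k ∈ univ.erase (0 : ZMod p),
        ‖hat X (k * l)‖ * ‖hat Y (k * m)‖ * ‖hatT p T (-k)‖)
      ≤ (1 / p) * ((X.card * Y.card * T.card : ℝ) + (p : ℝ) ^ 2 * √(V * W)) := by
        refine mul_le_mul_of_nonneg_left ?_ (by positivity)
        linarith
    _ = T.card * (X.card * Y.card / p) + p * √(V * W) := by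
        field_simp
    _ = T.card * (X.card * Y.card / p + p * √(V * (Mv T p - 1))) := by
        rw [← h5]
        ring

end Pool.CSU
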