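import Pool.Agent.Lib.CSU.B1
import Pool.Agent.Lib.CSU.B2
import Pool.Agent.Lib.CSU.Lev

/-!
# CSU, module L0: the first energy bound

`lev` with `l = 1`, `m = -1`, `ρ₀ = 4137/10000`, `e = 4138/10000`, `E = 1393/1000`
(`< .9798 + .4138`). For each of the finitely many `ρ ∈ J`: `b1` (`ρ ≤ 435/1000`) or `b2`, for all
large `N` simultaneously (`Filter.eventually_all_finset`). If the energy were larger, `conf_of`
(`X = Y = A`, `T = pop`) would contradict. `l0'`: `|A|^2 ≥ N^(4899/5000)` and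
`.4138 = .9798 - .566`.
-/

set_option autoImplicit false

open Finset Filter

namespace Pool.CSU

theorem l0 (p₀ : ℕ) : ∀ᶠ N : ℕ in atTop, ∀ A B : Finset ℤ, Pair p₀ N A B →
    (eng 1 (-1) A A : ℝ) ≤ (N : ℝ) ^ (4138 / 10000 : ℝ) * ((A.card : ℝ) * A.card) := by
  obtain ⟨J, hJ, hev⟩ := lev 1 (-1) (by norm_num) (by norm_num) (4137 / 10000) (1393 / 1000)
    (4138 / 10000) (by norm_num) (by norm_num) (by norm_num) (by norm_num)
  have hall : ∀ᶠ N : ℕ in atTop, ∀ ρ ∈ J, ∀ A B T : Finset ℤ,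
      ¬ Conf p₀ N 1 (-1) ρ (1393 / 1000 - 2 * ρ) A B A A T := by
    refine (Filter.eventually_all_finset J).mpr (fun ρ hρ => ?_)
    rcases le_total ρ (435 / 1000) with h | h
    · exact b1 p₀ ρ (hJ ρ hρ).1 h
    · exact b2 p₀ ρ h (hJ ρ hρ).2
  filter_upwards [hev, hall] with N h1 h2 A B hP
  by_contra hc
  obtain ⟨ρ, hρ, hc'⟩ := h1 A A hP.cA hP.cA (not_le.mp hc)
  exact h2 ρ hρ A B _ (conf_of p₀ N 1 (-1) ρ (1393 / 1000 - 2 * ρ) A B A A hP (Or.inl rfl)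
    (Or.inl rfl) hc')

theorem l0' (p₀ : ℕ) : ∀ᶠ N : ℕ in atTop, ∀ A B : Finset ℤ, Pair p₀ N A B →
    (eng 1 (-1) A A : ℝ) ≤ (A.card : ℝ) ^ 4 * (N : ℝ) ^ (-(566 / 1000) : ℝ) := by
  filter_upwards [l0 p₀, Filter.eventually_ge_atTop 1] with N h1 hN A B hP
  have hN' : (1 : ℝ) ≤ N := by exact_mod_cast hN
  have hN0 : (0 : ℝ) < N := by linarith
  refine (h1 A B hP).trans ?_
  have h2 : (N : ℝ) ^ (4138 / 10000 : ℝ) =
      (N : ℝ) ^ (4899 / 10000 : ℝ) * (N : ℝ) ^ (4899 / 10000 : ℝ) *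
        (N : ℝ) ^ (-(566 / 1000) : ℝ) := by
    rw [← Real.rpow_add hN0, ← Real.rpow_add hN0]
    norm_num
  have h3 : (0 : ℝ) ≤ (N : ℝ) ^ (4899 / 10000 : ℝ) := by positivity
  have h4 : (0 : ℝ) ≤ (N : ℝ) ^ (-(566 / 1000) : ℝ) := by positivity
  have h5 : (N : ℝ) ^ (4899 / 10000 : ℝ) * (N : ℝ) ^ (4899 / 10000 : ℝ) ≤
      (A.card : ℝ) * A.card := mul_le_mul hP.cA hP.cA h3 (by positivity)
  rw [h2]
  calc (N : ℝ) ^ (4899 / 10000 : ℝ) * (N : ℝ) ^ (4899 / 10000 : ℝ) *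
        (N : ℝ) ^ (-(566 / 1000) : ℝ) * ((A.card : ℝ) * A.card)
      ≤ ((A.card : ℝ) * A.card) * (N : ℝ) ^ (-(566 / 1000) : ℝ) * ((A.card : ℝ) * A.card) := by
        gcongr
    _ = (A.card : ℝ) ^ 4 * (N : ℝ) ^ (-(566 / 1000) : ℝ) := by ring

end Pool.CSU
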