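import Pool.Agent.Lib.CSU.L0
import Pool.Agent.Lib.CSU.B3
import Pool.Agent.Lib.CSU.B4
import Pool.Agent.Lib.CSU.B5

/-!
# CSU, module L1: the second energy bound

`lev` with `l = 1`, `m = -1`, `ρ₀ = 3127/10000`, `e = 3128/10000`, `E = 1292/1000`
(`< .9798 + .3128`). For each of the finitely many `ρ ∈ J`: `b3` (`ρ ≤ 3625/10000`), `b4`
(`ρ ≤ 38/100`) or `b5`, with `l0'`. `l1'`: `|A|^2 ≥ N^(4899/5000)` and `.3128 = .9798 - .667`.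
-/

set_option autoImplicit false

open Finset Filter

namespace Pool.CSU

theorem l1 (p₀ : ℕ) : ∀ᶠ N : ℕ in atTop, ∀ A B : Finset ℤ, Pair p₀ N A B →
    (eng 1 (-1) A A : ℝ) ≤ (N : ℝ) ^ (3128 / 10000 : ℝ) * ((A.card : ℝ) * A.card) := by
  obtain ⟨J, hJ, hev⟩ := lev 1 (-1) one_ne_zero (by norm_num) (3127 / 10000) (1292 / 1000)
    (3128 / 10000) (by norm_num) (by norm_num) (by norm_num) (by norm_num)
  have hb : ∀ ρ ∈ J, ∀ᶠ N : ℕ in atTop, ∀ A B T : Finset ℤ,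
      Conf p₀ N 1 (-1) ρ (1292 / 1000 - 2 * ρ) A B A A T →
      ¬ ((eng 1 (-1) A A : ℝ) ≤ (A.card : ℝ) ^ 4 * (N : ℝ) ^ (-(566 / 1000) : ℝ)) := by
    intro ρ hρ
    obtain ⟨h1, h2⟩ := hJ ρ hρ
    rcases le_total ρ (3625 / 10000) with h3 | h3
    · filter_upwards [b3 p₀ ρ h1 h3] with N hN A B T hc
      exact absurd hc (hN A B T)
    · rcases le_total ρ (38 / 100) with h4 | h4
      · exact b4 p₀ ρ h3 h4
      · exact b5 p₀ ρ h4 h2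
  filter_upwards [hev, l0' p₀, (Filter.eventually_all_finset J).2 hb] with N h1 h2 h3 A B hP
  by_contra hcon
  push Not at hcon
  obtain ⟨ρ, hρ, hc⟩ := h1 A A hP.cA hP.cA hcon
  exact h3 ρ hρ A B _ (conf_of p₀ N 1 (-1) ρ _ A B A A hP (Or.inl rfl) (Or.inl rfl) hc)
    (h2 A B hP)

theorem l1' (p₀ : ℕ) : ∀ᶠ N : ℕ in atTop, ∀ A B : Finset ℤ, Pair p₀ N A B →
    (eng 1 (-1) A A : ℝ) ≤ (A.card : ℝ) ^ 4 * (N : ℝ) ^ (-(667 / 1000) : ℝ) := by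
  filter_upwards [l1 p₀, Filter.eventually_ge_atTop 1] with N h1 hN A B hP
  have hN0 : (0 : ℝ) < N := by exact_mod_cast hN
  have h2 := h1 A B hP
  have h3 : (N : ℝ) ^ (3128 / 10000 : ℝ) ≤
      (A.card : ℝ) ^ 2 * (N : ℝ) ^ (-(667 / 1000) : ℝ) := by
    have h4 : (N : ℝ) ^ (3128 / 10000 : ℝ) =
        ((N : ℝ) ^ (4899 / 10000 : ℝ)) ^ 2 * (N : ℝ) ^ (-(667 / 1000) : ℝ) := by
      rw [← Real.rpow_natCast, ← Real.rpow_mul hN0.le, ← Real.rpow_add hN0]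
      norm_num
    rw [h4]
    exact mul_le_mul_of_nonneg_right (pow_le_pow_left₀ (by positivity) hP.cA 2) (by positivity)
  calc (eng 1 (-1) A A : ℝ) ≤ (N : ℝ) ^ (3128 / 10000 : ℝ) * ((A.card : ℝ) * A.card) := h2
    _ ≤ ((A.card : ℝ) ^ 2 * (N : ℝ) ^ (-(667 / 1000) : ℝ)) * ((A.card : ℝ) * A.card) :=
        mul_le_mul_of_nonneg_right h3 (by positivity)
    _ = (A.card : ℝ) ^ 4 * (N : ℝ) ^ (-(667 / 1000) : ℝ) := by ring

end Pool.CSU
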