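import Pool.Agent.Lib.CSU.Defs
import Pool.Agent.Lib.CSE.Red

/-!
# CSU, module Small: few small elements

`small`. `θ = 4899/10000`, `σ = 31/100`, `ε = 1/10000`. Suppose `|A| > N^σ` (`A ⊆ [1, N^θ]`). With
`a = |A_p|/p`, `b = |B_p|/p`, `a + b ≤ 1` for the primes `p ≤ N^θ`:
`res_sieve` for `A` with `P = prI N ε σ`, `D = N^θ`: `∑ wt/a ≤ θ L + 2`; `res_sieve` for `B` with
`P = prI N ε θ`, `D = N`: `∑ wt/b ≤ L + 2`. `1/a + (1/4)/b ≥ 9/4` on `prI ε σ`, `(1/4)/b ≥ 1/4` on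
`prI σ θ`: `(9/4)(σ - ε) L + (1/4)(θ - σ) L - C ≤ (θ + 1/4) L + C`; but
`(9/4)(.3099) + (1/4)(.1799) = .74225 > .7399`: contradiction for `N` large.

`redc`. `A, B ⊆ [1, N]` with at least `N^(49/100)` elements, `A + B` without composite numbers.
`A₁ = {a ∈ A : a > N^θ}`, `A₂ = {a ∈ A : a ≤ N^θ}` as sets of integers; `B' = {b ∈ B : b > N^θ}`.
`|A₂| ≤ N^θ ≤ N^(49/100)/2`, so `|A₁| ≥ N^θ` for `N` large, and `|B'| ≥ N^θ`. `a + b` is a prime
`> N^θ ≥ p` if `a ∈ A₁` or `b ∈ B'`: for a prime `p ≤ N^θ` the sets `A₁_p` and `-B_p` are disjoint,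
so `|A₁_p| + |B_p| ≤ p ≤ p + 1` (see `CSE.loc_of_prime`), and the same for `A₂`, `B'`; `small` gives
`|A₂| ≤ N^(31/100)`.
-/

set_option autoImplicit false

open Finset Filter

namespace Pool.CSU

open Pool.Agent.Lib.MP_4b09b1_nt (res pairs)
open Pool.CSE (G rep Bad prI wt dens sv Mv val pop)

private theorem Small_mem (X : Finset ℤ) (p : ℕ) (x : ZMod p) :
    x ∈ res X p ↔ ∃ a ∈ X, (a : ZMod p) = x := by
  classical
  unfold res
  simp

private theorem Small_loc (A B : Finset ℤ) (p : ℕ) (hp : p.Prime)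
    (hAB : ∀ a ∈ A, ∀ b ∈ B, Prime (a + b) ∧ (p : ℤ) < a + b) :
    (res A p).card + (res B p).card ≤ p := by
  classical
  have : Fact p.Prime := ⟨hp⟩
  have h1 : (res B p).card = ((res B p).image (fun x => -x)).card :=
    (Finset.card_image_of_injective _ neg_injective).symm
  have hd : Disjoint (res A p) ((res B p).image (fun x => -x)) := by
    rw [Finset.disjoint_left]
    intro x hx hx'
    obtain ⟨a, ha, rfl⟩ := (Small_mem A p x).1 hx
    obtain ⟨y, hy, hxy⟩ := Finset.mem_image.1 hx'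
    obtain ⟨b, hb, rfl⟩ := (Small_mem B p y).1 hy
    have h0 : (((a + b : ℤ)) : ZMod p) = 0 := by
      push_cast
      rw [← hxy]; ring
    have hdvd : (p : ℤ) ∣ a + b := (ZMod.intCast_zmod_eq_zero_iff_dvd (a + b) p).1 h0
    have hass : Associated (p : ℤ) (a + b) :=
      ((Nat.prime_iff_prime_int.1 hp).dvd_prime_iff_associated (hAB a ha b hb).1).1 hdvd
    have hlt := (hAB a ha b hb).2
    rcases (Int.associated_iff.1 hass) with h | h
    · omega
    · have : (0 : ℤ) ≤ (p : ℤ) := by positivity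
      omega
  rw [h1, ← Finset.card_union_of_disjoint hd]
  calc _ ≤ (Finset.univ : Finset (ZMod p)).card := Finset.card_le_card (Finset.subset_univ _)
    _ = p := by rw [Finset.card_univ, ZMod.card]

private theorem Small_res_pos {X : Finset ℤ} (hX : X.Nonempty) (p : ℕ) :
    0 < ((res X p).card : ℝ) := by
  classical
  obtain ⟨x, hx⟩ := hX
  have h : (x : ZMod p) ∈ res X p := (Small_mem X p _).2 ⟨x, hx, rfl⟩
  exact_mod_cast Finset.card_pos.2 ⟨_, h⟩

/-- `1/a + (1/4)/b ≥ (9/4)/p` for `a + b ≤ p` -/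
private theorem Small_titu (a b p : ℝ) (ha : 0 < a) (hb : 0 < b) (hp : 0 < p) (h : a + b ≤ p) :
    9 / 4 / p ≤ 1 / a + 1 / 4 / b := by
  have h1 : 9 / 4 / p ≤ 9 / 4 / (a + b) :=
    div_le_div_of_nonneg_left (by norm_num) (by linarith) h
  have h2 : 9 / 4 / (a + b) ≤ 1 / a + 1 / 4 / b := by
    rw [div_add_div _ _ ha.ne' hb.ne', div_le_div_iff₀ (by linarith) (mul_pos ha hb)]
    nlinarith [sq_nonneg (a - 2 * b), mul_pos ha hb]
  exact h1.trans h2

theorem small : ∀ᶠ N : ℕ in atTop, ∀ A B : Finset ℤ,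
    (∀ a ∈ A, 1 ≤ a ∧ (a : ℝ) ≤ (N : ℝ) ^ (4899 / 10000 : ℝ)) →
    (∀ b ∈ B, 1 ≤ b ∧ b ≤ (N : ℤ)) → (N : ℝ) ^ (4899 / 10000 : ℝ) ≤ B.card →
    (∀ p : ℕ, p.Prime → (p : ℝ) ≤ (N : ℝ) ^ (4899 / 10000 : ℝ) →
      (res A p).card + (res B p).card ≤ p) →
    (A.card : ℝ) ≤ (N : ℝ) ^ (31 / 100 : ℝ) := by
  obtain ⟨C1, hC1, hm1⟩ := Pool.CSE.mer (1 / 10000) (31 / 100) (by norm_num) (by norm_num)
  obtain ⟨C2, hC2, hm2⟩ := Pool.CSE.mer (31 / 100) (4899 / 10000) (by norm_num) (by norm_num)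
  have hlog : ∀ᶠ N : ℕ in atTop, (9 / 4 * C1 + 1 / 4 * C2 + 3) * 1000 ≤ Real.log N :=
    (Real.tendsto_log_atTop.comp tendsto_natCast_atTop_atTop).eventually_ge_atTop _
  filter_upwards [hlog, eventually_ge_atTop 2] with N hL hN A B hA hB cB hloc
  by_contra hcon
  push Not at hcon
  have hN0 : (0 : ℝ) < N := by exact_mod_cast (by omega : 0 < N)
  have hN1 : (1 : ℝ) ≤ N := by exact_mod_cast (by omega : 1 ≤ N)
  have hN1' : 1 ≤ N := by omega
  have hθ1 : (1 : ℝ) ≤ (N : ℝ) ^ (4899 / 10000 : ℝ) := Real.one_le_rpow hN1 (by norm_num)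
  have hσ0 : (0 : ℝ) < (N : ℝ) ^ (31 / 100 : ℝ) := Real.rpow_pos_of_pos hN0 _
  have hAc : (0 : ℝ) < A.card := hσ0.trans hcon
  have hBc : (0 : ℝ) < B.card := by linarith
  have hAne : A.Nonempty := by
    rw [← Finset.card_pos]; exact_mod_cast hAc
  have hBne : B.Nonempty := by
    rw [← Finset.card_pos]; exact_mod_cast hBc
  set P1 : Finset ℕ := prI N (1 / 10000) (31 / 100) with hP1
  set P2 : Finset ℕ := prI N (31 / 100) (4899 / 10000) with hP2
  have hpr1 : ∀ p ∈ P1, p.Prime ∧ (p : ℝ) ≤ (N : ℝ) ^ (31 / 100 : ℝ) := fun p hp =>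
    ⟨(Pool.CSE.mem_prI.1 hp).2.1, (Pool.CSE.mem_prI.1 hp).2.2.2⟩
  have hpr2 : ∀ p ∈ P2, p.Prime ∧ (p : ℝ) ≤ (N : ℝ) ^ (4899 / 10000 : ℝ) := fun p hp =>
    ⟨(Pool.CSE.mem_prI.1 hp).2.1, (Pool.CSE.mem_prI.1 hp).2.2.2⟩
  have hσθ : (N : ℝ) ^ (31 / 100 : ℝ) ≤ (N : ℝ) ^ (4899 / 10000 : ℝ) :=
    Real.rpow_le_rpow_of_exponent_le hN1 (by norm_num)
  -- the sieve for `A`
  have hSA : ∑ p ∈ P1, Real.log p / (res A p).card ≤ 4899 / 10000 * Real.log N + 2 := by
    have h := Pool.CSE.res_sieve A hAne P1 (fun p hp => (hpr1 p hp).1)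
      ((N : ℝ) ^ (4899 / 10000 : ℝ)) hθ1 (by
        intro x hx x' hx'
        have h1 := hA x hx
        have h2 := hA x' hx'
        have h3 : (1 : ℝ) ≤ x := by exact_mod_cast h1.1
        have h4 : (1 : ℝ) ≤ x' := by exact_mod_cast h2.1
        rw [abs_le]
        constructor <;> linarith [h1.2, h2.2])
    have h1 : (∑ p ∈ P1, Real.log p) / A.card ≤ 2 := by
      rw [div_le_iff₀ hAc]
      have h2 := Pool.CSE.cheb_prI N hN (1 / 10000) (31 / 100)
      linarith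
    rw [Real.log_rpow hN0] at h
    linarith
  -- the sieve for `B`
  have hunion : prI N (1 / 10000) (4899 / 10000) = P1 ∪ P2 :=
    Pool.CSE.prI_split hN1' (by norm_num) (by norm_num)
  have hdisj : Disjoint P1 P2 := Pool.CSE.prI_disj hN1' le_rfl
  have hSB : ∑ p ∈ P1, Real.log p / (res B p).card + ∑ p ∈ P2, Real.log p / (res B p).card ≤
      Real.log N + 2 := by
    have h := Pool.CSE.res_sieve B hBne (prI N (1 / 10000) (4899 / 10000))
      (fun p hp => (Pool.CSE.mem_prI.1 hp).2.1) N hN1 (by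
        intro x hx x' hx'
        have h1 := hB x hx
        have h2 := hB x' hx'
        have h3 : |x - x'| ≤ (N : ℤ) := by
          rw [abs_le]
          constructor <;> omega
        exact_mod_cast h3)
    have h1 : (∑ p ∈ prI N (1 / 10000) (4899 / 10000), Real.log p) / B.card ≤ 2 := by
      rw [div_le_iff₀ hBc]
      have h2 := Pool.CSE.cheb_prI N hN (1 / 10000) (4899 / 10000)
      linarith
    rw [← Finset.sum_union hdisj, ← hunion]
    linarith
  -- pointwise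
  have hA1 : ∑ p ∈ P1, 9 / 4 * wt p ≤
      ∑ p ∈ P1, (Real.log p / (res A p).card + 1 / 4 * (Real.log p / (res B p).card)) := by
    refine Finset.sum_le_sum fun p hp => ?_
    have hpp := hpr1 p hp
    have hp0 : (0 : ℝ) < p := by exact_mod_cast hpp.1.pos
    have hlg : 0 ≤ Real.log (p : ℝ) := Real.log_natCast_nonneg p
    have h1 := hloc p hpp.1 (hpp.2.trans hσθ)
    have h2 : ((res A p).card : ℝ) + (res B p).card ≤ p := by exact_mod_cast h1
    have h3 := Small_titu _ _ _ (Small_res_pos hAne p) (Small_res_pos hBne p) hp0 h2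
    have h4 := mul_le_mul_of_nonneg_left h3 hlg
    unfold Pool.CSE.wt
    calc 9 / 4 * (Real.log p / p) = Real.log p * (9 / 4 / p) := by ring
      _ ≤ _ := h4
      _ = _ := by ring
  have hA2 : ∑ p ∈ P2, 1 / 4 * wt p ≤ ∑ p ∈ P2, 1 / 4 * (Real.log p / (res B p).card) := by
    refine Finset.sum_le_sum fun p hp => ?_
    have hpp := hpr2 p hp
    have hp0 : (0 : ℝ) < p := by exact_mod_cast hpp.1.pos
    have hlg : 0 ≤ Real.log (p : ℝ) := Real.log_natCast_nonneg p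
    have h1 := hloc p hpp.1 hpp.2
    have h2 : ((res B p).card : ℝ) ≤ p := by exact_mod_cast (by omega : (res B p).card ≤ p)
    unfold Pool.CSE.wt
    have h3 : Real.log p / p ≤ Real.log p / (res B p).card :=
      div_le_div_of_nonneg_left hlg (Small_res_pos hBne p) h2
    linarith
  rw [← Finset.mul_sum] at hA1 hA2
  rw [Finset.sum_add_distrib, ← Finset.mul_sum] at hA1
  rw [← Finset.mul_sum] at hA2
  have hM1 := hm1 N hN
  have hM2 := hm2 N hN
  rw [← hP1] at hM1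
  rw [← hP2] at hM2
  linarith

theorem redc : ∀ᶠ N : ℕ in atTop, ∀ A B : Finset ℕ, A ⊆ Icc 1 N → B ⊆ Icc 1 N →
    (N : ℝ) ^ (49 / 100 : ℝ) ≤ A.card → (N : ℝ) ^ (49 / 100 : ℝ) ≤ B.card →
    (∀ a ∈ A, ∀ b ∈ B, ¬ (1 < a + b ∧ ¬ (a + b).Prime)) →
    ∃ A₁ A₂ : Finset ℤ, A₁ ∪ A₂ = A.image (fun a : ℕ => (a : ℤ)) ∧ Disjoint A₁ A₂ ∧
      Pair 0 N A₁ (B.image (fun b : ℕ => (b : ℤ))) ∧
      (A₂.card : ℝ) ≤ (N : ℝ) ^ (31 / 100 : ℝ) := by
  classical
  have e1 : ∀ᶠ N : ℕ in atTop, (2 : ℝ) ≤ (N : ℝ) ^ (1 / 10000 : ℝ) :=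
    ((tendsto_rpow_atTop (by norm_num : (0 : ℝ) < 1 / 10000)).comp
      tendsto_natCast_atTop_atTop).eventually_ge_atTop 2
  filter_upwards [e1, small, eventually_ge_atTop 1] with N h1 hsm hN A B hA hB cA cB hAB
  have hN0 : (0 : ℝ) < (N : ℝ) := by exact_mod_cast hN
  set t : ℝ := (N : ℝ) ^ (49 / 100 : ℝ) with ht
  set s : ℝ := (N : ℝ) ^ (4899 / 10000 : ℝ) with hs
  have hs0 : 0 < s := Real.rpow_pos_of_pos hN0 _
  have hst : 2 * s ≤ t := by
    have : t = s * (N : ℝ) ^ (1 / 10000 : ℝ) := by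
      rw [ht, hs, ← Real.rpow_add hN0]; norm_num
    rw [this]
    nlinarith
  have hcast : Function.Injective (fun a : ℕ => (a : ℤ)) := Nat.cast_injective
  -- few elements are small
  have hfew : ∀ X : Finset ℕ, X ⊆ Icc 1 N →
      ((X.filter (fun a : ℕ => ¬ s < (a : ℝ))).card : ℝ) ≤ s := by
    intro X hX
    have hsub : X.filter (fun a : ℕ => ¬ s < (a : ℝ)) ⊆ Finset.Icc 1 ⌊s⌋₊ := by
      intro a ha
      rw [Finset.mem_filter] at ha
      rw [Finset.mem_Icc]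
      exact ⟨(Finset.mem_Icc.1 (hX ha.1)).1, Nat.le_floor (not_lt.1 ha.2)⟩
    have := Finset.card_le_card hsub
    rw [Nat.card_Icc] at this
    calc ((X.filter (fun a : ℕ => ¬ s < (a : ℝ))).card : ℝ) ≤ (⌊s⌋₊ : ℝ) := by exact_mod_cast this
      _ ≤ s := Nat.floor_le hs0.le
  have hmany : ∀ X : Finset ℕ, X ⊆ Icc 1 N → t ≤ X.card →
      s ≤ ((X.filter (fun a : ℕ => s < (a : ℝ))).card : ℝ) := by
    intro X hX hc
    have h2 := hfew X hX
    have h3 : ((X.filter (fun a : ℕ => s < (a : ℝ))).card : ℝ) +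
        ((X.filter (fun a : ℕ => ¬ s < (a : ℝ))).card : ℝ) = X.card := by
      exact_mod_cast Finset.card_filter_add_card_filter_not (s := X) (fun a : ℕ => s < (a : ℝ))
    linarith
  have hprime : ∀ a ∈ A, ∀ b ∈ B, Prime ((a : ℤ) + (b : ℤ)) := by
    intro a ha b hb
    have ha1 := (Finset.mem_Icc.1 (hA ha)).1
    have hb1 := (Finset.mem_Icc.1 (hB hb)).1
    have hpr : (a + b).Prime := by
      by_contra hcon
      exact hAB a ha b hb ⟨by omega, hcon⟩
    have := Nat.prime_iff_prime_int.1 hpr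
    exact_mod_cast this
  have himg : ∀ X : Finset ℕ, ((X.image (fun a : ℕ => (a : ℤ))).card : ℝ) = X.card := by
    intro X
    rw [Finset.card_image_of_injective _ hcast]
  have hrange : ∀ X : Finset ℕ, X ⊆ Icc 1 N → ∀ x ∈ X.image (fun a : ℕ => (a : ℤ)),
      1 ≤ x ∧ x ≤ (N : ℤ) := by
    intro X hX x hx
    obtain ⟨a, ha, rfl⟩ := Finset.mem_image.1 hx
    have := Finset.mem_Icc.1 (hX ha)
    constructor
    · exact_mod_cast this.1
    · exact_mod_cast this.2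
  have hsubA : ∀ q : ℕ → Prop, ∀ [DecidablePred q], A.filter q ⊆ Icc 1 N :=
    fun q _ => (Finset.filter_subset _ _).trans hA
  have hsubB : ∀ q : ℕ → Prop, ∀ [DecidablePred q], B.filter q ⊆ Icc 1 N :=
    fun q _ => (Finset.filter_subset _ _).trans hB
  refine ⟨(A.filter (fun a : ℕ => s < (a : ℝ))).image (fun a : ℕ => (a : ℤ)),
    (A.filter (fun a : ℕ => ¬ s < (a : ℝ))).image (fun a : ℕ => (a : ℤ)), ?_, ?_, ?_, ?_⟩
  · rw [← Finset.image_union, Finset.filter_union_filter_not_eq]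
  · rw [Finset.disjoint_image hcast]
    exact Finset.disjoint_filter_filter_not _ _ _
  · refine ⟨hrange _ (hsubA _), hrange _ hB, ?_, ?_, ?_⟩
    · intro p hp _ hpN
      refine (Small_loc _ _ p hp ?_).trans (Nat.le_succ p)
      intro a ha b hb
      obtain ⟨a', ha', rfl⟩ := Finset.mem_image.1 ha
      obtain ⟨b', hb', rfl⟩ := Finset.mem_image.1 hb
      rw [Finset.mem_filter] at ha'
      refine ⟨hprime a' ha'.1 b' hb', ?_⟩
      have h2 : (p : ℝ) < (a' : ℝ) := lt_of_le_of_lt hpN ha'.2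
      have h3 : p < a' := by exact_mod_cast h2
      have h4 : p < a' + b' := by omega
      exact_mod_cast h4
    · rw [himg]
      exact hmany A hA cA
    · rw [himg]
      linarith
  · have h := hsm ((A.filter (fun a : ℕ => ¬ s < (a : ℝ))).image (fun a : ℕ => (a : ℤ)))
      ((B.filter (fun a : ℕ => s < (a : ℝ))).image (fun a : ℕ => (a : ℤ))) ?_
      (hrange _ (hsubB _)) ?_ ?_
    · exact h
    · intro x hx
      obtain ⟨a, ha, rfl⟩ := Finset.mem_image.1 hx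
      rw [Finset.mem_filter] at ha
      refine ⟨?_, ?_⟩
      · exact_mod_cast (Finset.mem_Icc.1 (hA ha.1)).1
      · have := not_lt.1 ha.2
        simpa using this
    · rw [himg]
      exact hmany B hB cB
    · intro p hp hpN
      refine Small_loc _ _ p hp ?_
      intro a ha b hb
      obtain ⟨a', ha', rfl⟩ := Finset.mem_image.1 ha
      obtain ⟨b', hb', rfl⟩ := Finset.mem_image.1 hb
      rw [Finset.mem_filter] at ha' hb'
      refine ⟨hprime a' ha'.1 b' hb'.1, ?_⟩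
      have h2 : (p : ℝ) < (b' : ℝ) := lt_of_le_of_lt hpN hb'.2
      have h3 : p < b' := by exact_mod_cast h2
      have h4 : p < a' + b' := by omega
      exact_mod_cast h4

end Pool.CSU
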