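import Pool.Agent.Lib.CSU.E1
import Pool.Agent.Lib.CSU.L1
import Pool.Agent.Lib.CSU.Few
import Pool.Agent.Lib.CSU.Small

/-!
# CSU, module Main: the theorems for composite-free sumsets

Write `Z A = A.image (Nat.cast : ℕ → ℤ)` (`|Z A| = |A|`). `redc`: `Z A = A₁ ∪ A₂`,
`Pair 0 N A₁ (Z B)`, `|A₂| ≤ N^(31/100)`.
`mainE1`: `eng l m (Z A) (Z B) ≤ 2 eng A₁ (Z B) + 2 eng A₂ (Z B)` (`eng_union_left`);
`e1` with `ε/2`; `eng A₂ (Z B) ≤ |A₂|^2 |B| ≤ N^(62/100) |B| ≤ N^(1/4) |A||B|` (`|A| ≥ N^(49/100)`);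
`4 N^(1/4+ε/2) ≤ N^(1/4+ε)` for `N` large.
`mainE2`: `eng_cs`; `eng 1 (-1) (Z A) (Z A) ≤ 4 eng A₁ A₁ + 4 eng A₁ A₂ + 2 eng A₂ (Z A)`
(`eng_union_left`, `eng_union_right`) `≤ 4 N^(3128/10000)|A₁|^2 + 4 |A||A₂|^2 + 2|A₂|^2 |A|` (`l1`,
`eng_le_sq_right`, `eng_le_sq_left`), and `6 N^(62/100) |A| ≤ 6 N^(62/100 - 49/100) |A|^2`.
`mainP`: `c = 1/20000`. Let `Bad (p^(-c)) (Z A) p`, `p > Q ≥ N^ε`, `p ≤ 2Q ≤ N`:
`‖∑_{Z A} ζ^a‖ ≥ p^(-c)|A|`, so `‖∑_{A₁} ζ^a‖ ≥ p^(-c)|A| - |A₂| ≥ p^(-c)|A|/2 ≥ p^(-2c)|A₁|` for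
`N` large (`p^(-c)|A| ≥ N^(49/100 - c) ≥ 2 N^(31/100)`; `p^c ≥ N^(εc) ≥ 2`). So
`Bad (p^(-1/10000)) A₁ p`; `few` with `l1'` (`A₁` is nonempty) bounds the number by
`Q^(1-1/10000) ≤ Q^(1-1/20000)`.
-/

set_option autoImplicit false

open Finset Filter

namespace Pool.CSU

open Pool.Agent.Lib.MP_4b09b1_nt (res pairs)
open Pool.CSE (G rep Bad prI wt dens sv Mv val pop)

private theorem Main_card (A : Finset ℕ) :
    (A.image (fun a : ℕ => (a : ℤ))).card = A.card :=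
  Finset.card_image_of_injective _ Nat.cast_injective

/-- the estimate for the small elements -/
private theorem Main_small {N : ℕ} (hN : 1 ≤ N) {a a₂ : ℝ} (h0 : 0 ≤ a₂)
    (ha : (N : ℝ) ^ (49 / 100 : ℝ) ≤ a) (h2 : a₂ ≤ (N : ℝ) ^ (31 / 100 : ℝ)) :
    a₂ ^ 2 ≤ (N : ℝ) ^ (13 / 100 : ℝ) * a := by
  have hN0 : (0 : ℝ) < (N : ℝ) := by exact_mod_cast hN
  calc a₂ ^ 2 ≤ ((N : ℝ) ^ (31 / 100 : ℝ)) ^ 2 := pow_le_pow_left₀ h0 h2 2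
    _ = (N : ℝ) ^ (13 / 100 : ℝ) * (N : ℝ) ^ (49 / 100 : ℝ) := by
        rw [← Real.rpow_natCast, ← Real.rpow_mul hN0.le, ← Real.rpow_add hN0]
        norm_num
    _ ≤ (N : ℝ) ^ (13 / 100 : ℝ) * a := mul_le_mul_of_nonneg_left ha (by positivity)

private theorem Main_large (δ : ℝ) (hδ : 0 < δ) (K : ℝ) :
    ∀ᶠ N : ℕ in atTop, K ≤ (N : ℝ) ^ δ :=
  ((tendsto_rpow_atTop hδ).comp tendsto_natCast_atTop_atTop).eventually_ge_atTop K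

theorem mainE1 (l m : ℤ) (hl : l ≠ 0) (hm : m ≠ 0) (ε : ℝ) (hε : 0 < ε) :
    ∀ᶠ N : ℕ in atTop, ∀ A B : Finset ℕ, A ⊆ Icc 1 N → B ⊆ Icc 1 N →
      (N : ℝ) ^ (49 / 100 : ℝ) ≤ A.card → (N : ℝ) ^ (49 / 100 : ℝ) ≤ B.card →
      (∀ a ∈ A, ∀ b ∈ B, ¬ (1 < a + b ∧ ¬ (a + b).Prime)) →
      (eng l m (A.image (fun a : ℕ => (a : ℤ))) (B.image (fun b : ℕ => (b : ℤ))) : ℝ) ≤
        (N : ℝ) ^ (1 / 4 + ε) * ((A.card : ℝ) * B.card) := by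
  filter_upwards [redc, e1 0 l m hl hm (ε / 2) (by linarith), Main_large (ε / 2) (by linarith) 4,
    eventually_ge_atTop 1] with N hred he h4 hN A B hA hB cA cB hAB
  obtain ⟨A₁, A₂, hU, hD, hP, h2⟩ := hred A B hA hB cA cB hAB
  have hN0 : (0 : ℝ) < (N : ℝ) := by exact_mod_cast hN
  have hN1 : (1 : ℝ) ≤ (N : ℝ) := by exact_mod_cast hN
  have hcA : A₁.card ≤ A.card := by
    rw [← Main_card A, ← hU]; exact Finset.card_le_card Finset.subset_union_left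
  have hcA' : (A₁.card : ℝ) ≤ A.card := by exact_mod_cast hcA
  have e1' := he A₁ _ hP
  rw [Main_card B] at e1'
  have e2 : ((eng l m A₂ (B.image (fun b : ℕ => (b : ℤ))) : ℕ) : ℝ) ≤
      (A₂.card : ℝ) ^ 2 * B.card := by
    have := eng_le_sq_left l m hm A₂ (B.image (fun b : ℕ => (b : ℤ)))
    rw [Main_card B] at this
    exact_mod_cast this
  have e3 : ((eng l m (A.image (fun a : ℕ => (a : ℤ))) (B.image (fun b : ℕ => (b : ℤ))) : ℕ) : ℝ) ≤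
      2 * (eng l m A₁ (B.image (fun b : ℕ => (b : ℤ))) : ℕ) +
      2 * (eng l m A₂ (B.image (fun b : ℕ => (b : ℤ))) : ℕ) := by
    rw [← hU]
    exact_mod_cast eng_union_left l m A₁ A₂ (B.image (fun b : ℕ => (b : ℤ)))
  have e4 := Main_small hN (Nat.cast_nonneg A₂.card) cA h2
  have hAB0 : (0 : ℝ) ≤ (A.card : ℝ) * B.card := by positivity
  have e5 : (N : ℝ) ^ (13 / 100 : ℝ) ≤ (N : ℝ) ^ (1 / 4 + ε / 2) :=
    Real.rpow_le_rpow_of_exponent_le hN1 (by linarith)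
  have e6 : (N : ℝ) ^ (1 / 4 + ε) = (N : ℝ) ^ (1 / 4 + ε / 2) * (N : ℝ) ^ (ε / 2) := by
    rw [← Real.rpow_add hN0]; congr 1; ring
  set M : ℝ := (N : ℝ) ^ (1 / 4 + ε / 2) with hM
  have hM0 : 0 < M := Real.rpow_pos_of_pos hN0 _
  have e7 : (A₂.card : ℝ) ^ 2 * B.card ≤ M * ((A.card : ℝ) * B.card) := by
    calc (A₂.card : ℝ) ^ 2 * B.card ≤ ((N : ℝ) ^ (13 / 100 : ℝ) * A.card) * B.card :=
          mul_le_mul_of_nonneg_right e4 (by positivity)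
      _ ≤ (M * A.card) * B.card :=
          mul_le_mul_of_nonneg_right (mul_le_mul_of_nonneg_right e5 (by positivity))
            (by positivity)
      _ = M * ((A.card : ℝ) * B.card) := by ring
  have e8 : M * ((A₁.card : ℝ) * B.card) ≤ M * ((A.card : ℝ) * B.card) :=
    mul_le_mul_of_nonneg_left (mul_le_mul_of_nonneg_right hcA' (by positivity)) hM0.le
  rw [e6]
  have e9 : 4 * (M * ((A.card : ℝ) * B.card)) ≤ M * (N : ℝ) ^ (ε / 2) * ((A.card : ℝ) * B.card) := by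
    have h5 : 4 * M ≤ M * (N : ℝ) ^ (ε / 2) := by nlinarith
    calc 4 * (M * ((A.card : ℝ) * B.card)) = (4 * M) * ((A.card : ℝ) * B.card) := by ring
      _ ≤ _ := mul_le_mul_of_nonneg_right h5 hAB0
  linarith

theorem mainE2 (l m : ℤ) (hl : l ≠ 0) (hm : m ≠ 0) :
    ∀ᶠ N : ℕ in atTop, ∀ A B : Finset ℕ, A ⊆ Icc 1 N → B ⊆ Icc 1 N →
      (N : ℝ) ^ (49 / 100 : ℝ) ≤ A.card → (N : ℝ) ^ (49 / 100 : ℝ) ≤ B.card →
      (∀ a ∈ A, ∀ b ∈ B, ¬ (1 < a + b ∧ ¬ (a + b).Prime)) →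
      (eng l m (A.image (fun a : ℕ => (a : ℤ))) (A.image (fun a : ℕ => (a : ℤ))) : ℝ) ≤
        (N : ℝ) ^ (313 / 1000 : ℝ) * ((A.card : ℝ) * A.card) := by
  filter_upwards [redc, l1 0, Main_large (1 / 5000) (by norm_num) 10,
    eventually_ge_atTop 1] with N hred he h4 hN A B hA hB cA cB hAB
  obtain ⟨A₁, A₂, hU, hD, hP, h2⟩ := hred A B hA hB cA cB hAB
  have hN0 : (0 : ℝ) < (N : ℝ) := by exact_mod_cast hN
  have hN1 : (1 : ℝ) ≤ (N : ℝ) := by exact_mod_cast hN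
  have hcA : A₁.card ≤ A.card := by
    rw [← Main_card A, ← hU]; exact Finset.card_le_card Finset.subset_union_left
  have hcA' : (A₁.card : ℝ) ≤ A.card := by exact_mod_cast hcA
  have e1' := he A₁ _ hP
  set ZA : Finset ℤ := A.image (fun a : ℕ => (a : ℤ)) with hZA
  have hZc : ZA.card = A.card := Main_card A
  have g0 : ((eng l m ZA ZA : ℕ) : ℝ) ≤ (eng 1 (-1) ZA ZA : ℕ) := by
    exact_mod_cast eng_cs l m hl hm ZA
  have g1 : ((eng 1 (-1) ZA ZA : ℕ) : ℝ) ≤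
      2 * (eng 1 (-1) A₁ ZA : ℕ) + 2 * (eng 1 (-1) A₂ ZA : ℕ) := by
    have := eng_union_left 1 (-1) A₁ A₂ ZA
    rw [hU] at this
    exact_mod_cast this
  have g2 : ((eng 1 (-1) A₁ ZA : ℕ) : ℝ) ≤
      2 * (eng 1 (-1) A₁ A₁ : ℕ) + 2 * (eng 1 (-1) A₁ A₂ : ℕ) := by
    have := eng_union_right 1 (-1) A₁ A₁ A₂
    rw [hU] at this
    exact_mod_cast this
  have g3 : ((eng 1 (-1) A₁ A₂ : ℕ) : ℝ) ≤ (A₁.card : ℝ) * (A₂.card : ℝ) ^ 2 := by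
    exact_mod_cast eng_le_sq_right 1 (-1) one_ne_zero A₁ A₂
  have g4 : ((eng 1 (-1) A₂ ZA : ℕ) : ℝ) ≤ (A₂.card : ℝ) ^ 2 * A.card := by
    have := eng_le_sq_left 1 (-1) (by norm_num) A₂ ZA
    rw [hZc] at this
    exact_mod_cast this
  have e4 := Main_small hN (Nat.cast_nonneg A₂.card) cA h2
  have hA0 : (0 : ℝ) ≤ (A.card : ℝ) := by positivity
  have hA1 : (0 : ℝ) ≤ (A₁.card : ℝ) := by positivity
  have e5 : (N : ℝ) ^ (13 / 100 : ℝ) ≤ (N : ℝ) ^ (3128 / 10000 : ℝ) :=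
    Real.rpow_le_rpow_of_exponent_le hN1 (by norm_num)
  have e6 : (N : ℝ) ^ (313 / 1000 : ℝ) =
      (N : ℝ) ^ (3128 / 10000 : ℝ) * (N : ℝ) ^ (1 / 5000 : ℝ) := by
    rw [← Real.rpow_add hN0]; norm_num
  set M : ℝ := (N : ℝ) ^ (3128 / 10000 : ℝ) with hM
  have hM0 : 0 < M := Real.rpow_pos_of_pos hN0 _
  have h22 : (A₂.card : ℝ) ^ 2 ≤ M * A.card :=
    e4.trans (mul_le_mul_of_nonneg_right e5 hA0)
  have h220 : (0 : ℝ) ≤ (A₂.card : ℝ) ^ 2 := by positivity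
  have f1 : (A₁.card : ℝ) * (A₂.card : ℝ) ^ 2 ≤ M * ((A.card : ℝ) * A.card) := by
    calc (A₁.card : ℝ) * (A₂.card : ℝ) ^ 2 ≤ (A.card : ℝ) * (M * A.card) :=
          mul_le_mul hcA' h22 h220 hA0
      _ = M * ((A.card : ℝ) * A.card) := by ring
  have f2 : (A₂.card : ℝ) ^ 2 * A.card ≤ M * ((A.card : ℝ) * A.card) := by
    calc (A₂.card : ℝ) ^ 2 * A.card ≤ (M * A.card) * A.card :=
          mul_le_mul_of_nonneg_right h22 hA0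
      _ = M * ((A.card : ℝ) * A.card) := by ring
  have f3 : M * ((A₁.card : ℝ) * A₁.card) ≤ M * ((A.card : ℝ) * A.card) :=
    mul_le_mul_of_nonneg_left (mul_le_mul hcA' hcA' hA1 hA0) hM0.le
  rw [e6]
  have e9 : 10 * (M * ((A.card : ℝ) * A.card)) ≤
      M * (N : ℝ) ^ (1 / 5000 : ℝ) * ((A.card : ℝ) * A.card) := by
    have h5 : 10 * M ≤ M * (N : ℝ) ^ (1 / 5000 : ℝ) := by nlinarith
    calc 10 * (M * ((A.card : ℝ) * A.card)) = (10 * M) * ((A.card : ℝ) * A.card) := by ring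
      _ ≤ _ := mul_le_mul_of_nonneg_right h5 (by positivity)
  linarith

/-- a bias of the whole set gives a bias of the large part -/
private theorem Main_bias {N : ℕ} (A : Finset ℕ) (A₁ A₂ : Finset ℤ)
    (hU : A₁ ∪ A₂ = A.image (fun a : ℕ => (a : ℤ))) (hD : Disjoint A₁ A₂)
    (hN : 1 ≤ N) (cA : (N : ℝ) ^ (49 / 100 : ℝ) ≤ A.card)
    (h2 : (A₂.card : ℝ) ≤ (N : ℝ) ^ (31 / 100 : ℝ)) (hbig : (2 : ℝ) ≤ (N : ℝ) ^ (1 / 10 : ℝ))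
    (p : ℕ) (hp : p.Prime) (hpN : p ≤ N) (hp2 : (2 : ℝ) ≤ (p : ℝ) ^ (1 / 20000 : ℝ))
    (h : ∃ ζ : ℂ, ζ ^ p = 1 ∧ ζ ≠ 1 ∧
      (p : ℝ) ^ (-(1 / 20000) : ℝ) * A.card ≤ ‖∑ a ∈ A, ζ ^ a‖) :
    Bad ((p : ℝ) ^ (-(1 / 10000) : ℝ)) A₁ p := by
  obtain ⟨ζ, hζ, hζ1, hb⟩ := h
  refine ⟨ζ, hζ, hζ1, ?_⟩
  have hN0 : (0 : ℝ) < (N : ℝ) := by exact_mod_cast hN
  have hp0 : (0 : ℝ) < (p : ℝ) := by exact_mod_cast hp.pos
  have hnorm : ‖ζ‖ = 1 := by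
    have h1 : ‖ζ‖ ^ p = 1 := by rw [← norm_pow, hζ, norm_one]
    exact (pow_eq_one_iff_of_nonneg (norm_nonneg ζ) hp.ne_zero).1 h1
  have hsum : ∑ a ∈ A, ζ ^ a = ∑ t ∈ A₁, ζ ^ t + ∑ t ∈ A₂, ζ ^ t := by
    rw [← Finset.sum_union hD, hU, Finset.sum_image (fun x _ y _ hxy => by simpa using hxy)]
    exact Finset.sum_congr rfl fun a _ => (zpow_natCast ζ a).symm
  have hA2 : ‖∑ t ∈ A₂, ζ ^ t‖ ≤ A₂.card := by
    calc ‖∑ t ∈ A₂, ζ ^ t‖ ≤ ∑ t ∈ A₂, ‖ζ ^ t‖ := norm_sum_le _ _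
      _ = ∑ t ∈ A₂, (1 : ℝ) := Finset.sum_congr rfl fun t _ => by rw [norm_zpow, hnorm, one_zpow]
      _ = A₂.card := by simp
  have htri : ‖∑ a ∈ A, ζ ^ a‖ ≤ ‖∑ t ∈ A₁, ζ ^ t‖ + A₂.card := by
    rw [hsum]
    exact (norm_add_le _ _).trans (by linarith)
  have hcA : A₁.card ≤ A.card := by
    rw [← Main_card A, ← hU]; exact Finset.card_le_card Finset.subset_union_left
  have hcA' : (A₁.card : ℝ) ≤ A.card := by exact_mod_cast hcA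
  set u : ℝ := (p : ℝ) ^ (-(1 / 20000) : ℝ) with hu
  have hu0 : 0 < u := Real.rpow_pos_of_pos hp0 _
  have huu : (p : ℝ) ^ (-(1 / 10000) : ℝ) = u * u := by
    rw [hu, ← Real.rpow_add hp0]; norm_num
  have hu2 : 2 * u ≤ 1 := by
    have h3 : u * (p : ℝ) ^ (1 / 20000 : ℝ) = 1 := by
      rw [hu, ← Real.rpow_add hp0]; norm_num
    nlinarith
  -- the small part
  have hs : 2 * (A₂.card : ℝ) ≤ u * A.card := by
    have h5 : (N : ℝ) ^ (-(1 / 20000) : ℝ) ≤ u :=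
      Real.rpow_le_rpow_of_nonpos hp0 (by exact_mod_cast hpN) (by norm_num)
    have h6 : (N : ℝ) ^ (-(1 / 20000) : ℝ) * (N : ℝ) ^ (49 / 100 : ℝ) ≤ u * A.card :=
      mul_le_mul h5 cA (by positivity) hu0.le
    have h7 : (2 : ℝ) * (N : ℝ) ^ (31 / 100 : ℝ) ≤
        (N : ℝ) ^ (1 / 10 : ℝ) * (N : ℝ) ^ (31 / 100 : ℝ) :=
      mul_le_mul_of_nonneg_right hbig (by positivity)
    have h8 : (N : ℝ) ^ (1 / 10 : ℝ) * (N : ℝ) ^ (31 / 100 : ℝ) ≤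
        (N : ℝ) ^ (-(1 / 20000) : ℝ) * (N : ℝ) ^ (49 / 100 : ℝ) := by
      rw [← Real.rpow_add hN0, ← Real.rpow_add hN0]
      exact Real.rpow_le_rpow_of_exponent_le (by exact_mod_cast hN) (by norm_num)
    linarith
  rw [huu]
  have h9 : u * u * A₁.card ≤ u * A.card / 2 := by
    have h10 : u * u * A₁.card ≤ u * u * A.card :=
      mul_le_mul_of_nonneg_left hcA' (by positivity)
    have h11 : u * u * A.card ≤ u * A.card / 2 := by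
      have h12 : 0 ≤ u * (A.card : ℝ) := by positivity
      nlinarith
    linarith
  linarith

theorem mainP (ε : ℝ) (hε : 0 < ε) :
    ∀ᶠ N : ℕ in atTop, ∀ A B : Finset ℕ, A ⊆ Icc 1 N → B ⊆ Icc 1 N →
      (N : ℝ) ^ (49 / 100 : ℝ) ≤ A.card → (N : ℝ) ^ (49 / 100 : ℝ) ≤ B.card →
      (∀ a ∈ A, ∀ b ∈ B, ¬ (1 < a + b ∧ ¬ (a + b).Prime)) →
      ∀ Q : ℕ, (N : ℝ) ^ ε ≤ Q → (Q : ℝ) ≤ (N : ℝ) ^ (1 / 2 : ℝ) →
      open Classical in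
      (((Finset.Ioc Q (2 * Q)).filter (fun p : ℕ => p.Prime ∧
        ∃ ζ : ℂ, ζ ^ p = 1 ∧ ζ ≠ 1 ∧
          (p : ℝ) ^ (-(1 / 20000) : ℝ) * A.card ≤ ‖∑ a ∈ A, ζ ^ a‖)).card : ℝ) ≤
        (Q : ℝ) ^ (1 - 1 / 20000 : ℝ) := by
  classical
  filter_upwards [redc, l1' 0, few ε hε, Main_large (ε * (1 / 20000)) (by positivity) 2,
    Main_large (1 / 10) (by norm_num) 2, Main_large (1 / 2) (by norm_num) 2,
    eventually_ge_atTop 1] with N hred hl1 hfew hc hbig h2N hN A B hA hB cA cB hAB Q hQ1 hQ2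
  obtain ⟨A₁, A₂, hU, hD, hP, h2⟩ := hred A B hA hB cA cB hAB
  have hN0 : (0 : ℝ) < (N : ℝ) := by exact_mod_cast hN
  have hN1 : (1 : ℝ) ≤ (N : ℝ) := by exact_mod_cast hN
  have hne : A₁.Nonempty := by
    rw [← Finset.card_pos]
    have h1 : (0 : ℝ) < A₁.card := lt_of_lt_of_le (Real.rpow_pos_of_pos hN0 _) hP.cA
    exact_mod_cast h1
  have hQ1' : (1 : ℝ) ≤ Q := (Real.one_le_rpow hN1 hε.le).trans hQ1
  have hQpos : 0 < Q := by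
    have : (0 : ℝ) < Q := by linarith
    exact_mod_cast this
  have hF := hfew A₁ hP.hA hne (hl1 A₁ _ hP) Q hQ1 hQ2
  have h2Q : 2 * Q ≤ N := by
    have h3 : (2 : ℝ) * Q ≤ N := by
      have h4 : (N : ℝ) ^ (1 / 2 : ℝ) * (N : ℝ) ^ (1 / 2 : ℝ) = N := by
        rw [← Real.rpow_add hN0]; norm_num
      calc (2 : ℝ) * Q ≤ (N : ℝ) ^ (1 / 2 : ℝ) * (N : ℝ) ^ (1 / 2 : ℝ) :=
            mul_le_mul h2N hQ2 (by positivity) (by positivity)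
        _ = N := h4
    exact_mod_cast h3
  have hsub : ((Finset.Ioc Q (2 * Q)).filter (fun p : ℕ => p.Prime ∧
        ∃ ζ : ℂ, ζ ^ p = 1 ∧ ζ ≠ 1 ∧
          (p : ℝ) ^ (-(1 / 20000) : ℝ) * A.card ≤ ‖∑ a ∈ A, ζ ^ a‖)) ⊆
      ((Finset.Ioc Q (2 * Q)).filter (fun p : ℕ => p.Prime ∧
        Bad ((p : ℝ) ^ (-(1 / 10000) : ℝ)) A₁ p)) := by
    intro p hp
    rw [Finset.mem_filter] at hp ⊢
    obtain ⟨hpI, hpp, hb⟩ := hp
    refine ⟨hpI, hpp, ?_⟩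
    rw [Finset.mem_Ioc] at hpI
    refine Main_bias A A₁ A₂ hU hD hN cA h2 hbig p hpp (by omega) ?_ hb
    have h5 : (N : ℝ) ^ ε ≤ p := hQ1.trans (by exact_mod_cast hpI.1.le)
    calc (2 : ℝ) ≤ (N : ℝ) ^ (ε * (1 / 20000)) := hc
      _ = ((N : ℝ) ^ ε) ^ (1 / 20000 : ℝ) := by rw [Real.rpow_mul hN0.le]
      _ ≤ (p : ℝ) ^ (1 / 20000 : ℝ) :=
          Real.rpow_le_rpow (by positivity) h5 (by norm_num)
  have h6 : (((Finset.Ioc Q (2 * Q)).filter (fun p : ℕ => p.Prime ∧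
        ∃ ζ : ℂ, ζ ^ p = 1 ∧ ζ ≠ 1 ∧
          (p : ℝ) ^ (-(1 / 20000) : ℝ) * A.card ≤ ‖∑ a ∈ A, ζ ^ a‖)).card : ℝ) ≤
      ((Finset.Ioc Q (2 * Q)).filter (fun p : ℕ => p.Prime ∧
        Bad ((p : ℝ) ^ (-(1 / 10000) : ℝ)) A₁ p)).card := by
    exact_mod_cast Finset.card_le_card hsub
  have h7 : (Q : ℝ) ^ (1 - 1 / 10000 : ℝ) ≤ (Q : ℝ) ^ (1 - 1 / 20000 : ℝ) :=
    Real.rpow_le_rpow_of_exponent_le hQ1' (by norm_num)
  have h8 := hF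
  convert h6.trans ((by convert h8 using 3) : _ ≤ _) |>.trans h7 using 1

end Pool.CSU
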