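import Pool.Agent.Lib.CSE.Bias
import Pool.Agent.Lib.CSU.Defs

/-!
# CSU, module WB: the weighted form of Lemma B (`CSE.bias`)

`wbias`. Proof: as `CSE.bias` (copy it), with weights. If `P = ∅` or `∑ ν = 0` the left side is `0`.
For `p ∈ P` take a root `u p` with `η ∑ν ≤ ‖∑ ν x (u p)^x‖` and a unimodular `c p` with
`c p * ∑ ν x (u p)^x = ‖..‖`, and `f x = ∑_{p∈P} c p (u p)^x`. Then
`η |P| ∑ν ≤ ∑_x ν x ‖f x‖`. Jensen (`inner_le_nnorm_mul_nnorm` / `Real.inner_le_Lp_mul_Lq` is not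
needed: `Real.pow_arith_mean_le_arith_mean_pow` with the weights `ν x / ∑ν`):
`(∑ ν ‖f‖ / ∑ν)^m ≤ ∑ ν ‖f‖^m / ∑ν`, and Cauchy-Schwarz `(∑ ν ‖f‖^m)^2 ≤ (∑ ν^2) ∑ ‖f^m‖^2`.
The last sum over `x ∈ S ⊆ fr M` is at most `C (M + Q^(2m)) m^m |P|^m` exactly as in `CSE.bias`
(steps (3)-(6) there). So `(η |P| ∑ν)^(2m) ≤ (∑ν)^(2m-2) (∑ ν^2) C (M + Q^(2m)) m^m |P|^m`; divide.

`wbad`: the case `ν = r_{A-A}`: `ν x = rep 1 (-1) A A x`, `S = val 1 (-1) A A`, `∑ν = |A|^2`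
(`CSE.sum_rep`), `∑ν^2 = eng 1 (-1) A A` (count the quadruples by the common value),
`∑ ν x ζ^x = (∑ ζ^a) (∑ ζ^(-a)) = ‖∑ ζ^a‖^2` for `ζ^p = 1`. So a prime `p` with `Bad η A p` is
biased for `ν` with `η^2`. `|a - a'| < M`.
-/

set_option autoImplicit false

open Finset

namespace Pool.CSU

open Pool.Agent.Lib.MP_4b09b1_nt (res pairs)
open Pool.CSE (G rep Bad prI wt dens sv Mv val pop)
open Pool.Agent.NSqP (fr mem_fr)

private theorem wb_unimod (S : ℂ) : ∃ c : ℂ, ‖c‖ = 1 ∧ c * S = (‖S‖ : ℂ) := by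
  refine ⟨Complex.exp (((-S.arg : ℝ) : ℂ) * Complex.I), Complex.norm_exp_ofReal_mul_I _, ?_⟩
  conv_lhs => rw [← Complex.norm_mul_exp_arg_mul_I S]
  rw [mul_left_comm, ← Complex.exp_add]
  have h : ((-(((‖S‖ : ℂ) * Complex.exp (S.arg * Complex.I)).arg) : ℝ) : ℂ) * Complex.I
      + (S.arg : ℂ) * Complex.I = 0 := by
    rw [Complex.norm_mul_exp_arg_mul_I S]
    push_cast
    ring
  rw [h, Complex.exp_zero, mul_one]

private theorem wb_choose (T : Finset ℤ) (ν : ℤ → ℝ) (η : ℝ) (P : Finset ℕ)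
    (hP : ∀ p ∈ P, ∃ ζ : ℂ, ζ ^ p = 1 ∧ ζ ≠ 1 ∧
      η * ∑ x ∈ T, ν x ≤ ‖∑ x ∈ T, (ν x : ℂ) * ζ ^ x‖) :
    ∃ u c : ℕ → ℂ, ∀ p ∈ P, u p ^ p = 1 ∧ u p ≠ 1 ∧ ‖c p‖ = 1 ∧
      η * ∑ x ∈ T, ν x ≤ (c p * ∑ x ∈ T, (ν x : ℂ) * u p ^ x).re := by
  have h1 : ∀ p : ℕ, ∃ z : ℂ × ℂ, p ∈ P → z.1 ^ p = 1 ∧ z.1 ≠ 1 ∧ ‖z.2‖ = 1 ∧
      η * ∑ x ∈ T, ν x ≤ (z.2 * ∑ x ∈ T, (ν x : ℂ) * z.1 ^ x).re := by
    intro p
    by_cases hp : p ∈ P
    · obtain ⟨ζ, h1, h2, h3⟩ := hP p hp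
      obtain ⟨c, hc, hc2⟩ := wb_unimod (∑ x ∈ T, (ν x : ℂ) * ζ ^ x)
      refine ⟨(ζ, c), fun _ => ⟨h1, h2, hc, ?_⟩⟩
      dsimp only
      rw [hc2, Complex.ofReal_re]
      exact h3
    · exact ⟨(0, 0), fun h => absurd h hp⟩
  choose z hz using h1
  exact ⟨fun p => (z p).1, fun p => (z p).2, fun p hp => hz p hp⟩

private theorem wb_pow (m : ℕ) (P : Finset ℕ) (u c : ℕ → ℂ) (x : ℤ) :
    open Classical in
    (∑ p ∈ P, c p * u p ^ x) ^ m =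
      ∑ z ∈ (Fintype.piFinset (fun _ : Fin m => P)).image (fun σ => ∏ i, u (σ i)),
        (∑ σ ∈ (Fintype.piFinset (fun _ : Fin m => P)).filter (fun σ => ∏ i, u (σ i) = z),
          ∏ i, c (σ i)) * z ^ x := by
  classical
  have h1 : (∑ p ∈ P, c p * u p ^ x) ^ m = ∏ _i : Fin m, ∑ p ∈ P, c p * u p ^ x := by
    rw [Finset.prod_const, Finset.card_univ, Fintype.card_fin]
  rw [h1, Finset.prod_univ_sum]
  rw [← Finset.sum_fiberwise_of_maps_to (g := fun σ : Fin m → ℕ => ∏ i, u (σ i))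
    (t := (Fintype.piFinset (fun _ : Fin m => P)).image (fun σ => ∏ i, u (σ i)))
    (fun σ hσ => Finset.mem_image_of_mem _ hσ)]
  refine Finset.sum_congr rfl fun z _ => ?_
  rw [Finset.sum_mul]
  refine Finset.sum_congr rfl fun σ hσ => ?_
  rw [Finset.mem_filter] at hσ
  rw [Finset.prod_mul_distrib, ← hσ.2, Finset.prod_zpow]

/-- the large sieve step (steps (3)-(6) of `CSE.bias`) -/
private theorem wb_sieve : ∃ C : ℝ, 0 < C ∧ ∀ (m : ℕ) (P : Finset ℕ) (Q M : ℕ) (T : Finset ℤ)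
    (u c : ℕ → ℂ), P.Nonempty →
    (∀ p ∈ P, p.Prime ∧ m < p ∧ p ≤ Q ∧ u p ^ p = 1 ∧ u p ≠ 1 ∧ ‖c p‖ = 1) →
    (∀ t ∈ T, |t| < (M : ℤ)) →
    ∑ t ∈ T, ‖(∑ p ∈ P, c p * u p ^ t) ^ m‖ ^ 2 ≤
      C * (M + (Q : ℝ) ^ (2 * m)) * ((m : ℝ) ^ m * (P.card : ℝ) ^ m) := by
  classical
  obtain ⟨C, hC, hLS⟩ := Pool.Agent.NSqP.LS0
  refine ⟨C, hC, ?_⟩
  intro m P Q M T u c hPne huc hTM
  have hQ1 : 1 ≤ Q := by
    obtain ⟨p, hp⟩ := hPne
    exact (huc p hp).1.one_le.trans (huc p hp).2.2.1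
  set f : ℤ → ℂ := fun x => ∑ p ∈ P, c p * u p ^ x with hf
  set S : Finset ℂ := (Fintype.piFinset (fun _ : Fin m => P)).image (fun σ => ∏ i, u (σ i)) with hS
  set F : ℂ → Finset (Fin m → ℕ) := fun z =>
    (Fintype.piFinset (fun _ : Fin m => P)).filter (fun σ => ∏ i, u (σ i) = z) with hF
  set a : ℂ → ℂ := fun z => ∑ σ ∈ F z, ∏ i, c (σ i) with ha
  have s3 : ∑ t ∈ T, ‖(f t) ^ m‖ ^ 2 ≤ ∑ x ∈ fr M, ‖(f x) ^ m‖ ^ 2 := by
    refine Finset.sum_le_sum_of_subset_of_nonneg ?_ fun _ _ _ => by positivity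
    intro t ht
    rw [fr, Finset.mem_Ioo]
    exact abs_lt.1 (hTM t ht)
  have s4 : ∀ x : ℤ, (f x) ^ m = ∑ z ∈ S, a z * z ^ x := by
    intro x
    exact wb_pow m P u c x
  have hroot : ∀ p ∈ P, ‖u p‖ = 1 := fun p hp =>
    Complex.norm_eq_one_of_pow_eq_one (huc p hp).2.2.2.1 (huc p hp).1.ne_zero
  have s5 : ∑ x ∈ fr M, ‖(f x) ^ m‖ ^ 2 ≤ C * (M + (Q : ℝ) ^ (2 * m)) * ∑ z ∈ S, ‖a z‖ ^ 2 := by
    simp_rw [s4]
    refine hLS ℂ S a id ((Q : ℝ) ^ (2 * m)) M ?_ ?_ ?_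
    · exact one_le_pow₀ (by exact_mod_cast hQ1)
    · intro z hz
      rw [hS, Finset.mem_image] at hz
      obtain ⟨σ, hσ, rfl⟩ := hz
      rw [Fintype.mem_piFinset] at hσ
      rw [id, norm_prod]
      exact Finset.prod_eq_one fun i _ => hroot _ (hσ i)
    · intro z hz w hw hzw
      rw [hS, Finset.mem_image] at hz hw
      obtain ⟨σ, hσ, rfl⟩ := hz
      obtain ⟨τ, hτ, rfl⟩ := hw
      rw [Fintype.mem_piFinset] at hσ hτ
      exact Pool.CSE.prod_sep m Q P u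
        (fun p hp => ⟨(huc p hp).1, (huc p hp).2.2.1, (huc p hp).2.2.2.1⟩) σ τ hσ hτ hzw
  have s6 : ∑ z ∈ S, ‖a z‖ ^ 2 ≤ (m : ℝ) ^ m * (P.card : ℝ) ^ m := by
    have h1 : ∀ z ∈ S, ‖a z‖ ^ 2 ≤ (m : ℝ) ^ m * ((F z).card : ℝ) := by
      intro z _
      have h2 : ‖a z‖ ≤ (F z).card := by
        calc ‖a z‖ ≤ ∑ σ ∈ F z, ‖∏ i, c (σ i)‖ := norm_sum_le _ _
          _ ≤ ∑ _σ ∈ F z, (1 : ℝ) := by
            refine Finset.sum_le_sum fun σ hσ => ?_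
            rw [hF, Finset.mem_filter, Fintype.mem_piFinset] at hσ
            rw [norm_prod]
            exact (Finset.prod_eq_one fun i _ => (huc _ (hσ.1 i)).2.2.2.2.2).le
          _ = (F z).card := by rw [Finset.sum_const, nsmul_eq_mul, mul_one]
      have h3 : ((F z).card : ℝ) ≤ (m : ℝ) ^ m := by
        have := Pool.CSE.fiber_card m P u (fun p hp => ⟨(huc p hp).1, (huc p hp).2.1,
          (huc p hp).2.2.2.1, (huc p hp).2.2.2.2.1⟩) z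
        exact_mod_cast this
      rw [sq]
      exact mul_le_mul (h2.trans h3) h2 (norm_nonneg _) (by positivity)
    calc ∑ z ∈ S, ‖a z‖ ^ 2 ≤ ∑ z ∈ S, (m : ℝ) ^ m * ((F z).card : ℝ) := Finset.sum_le_sum h1
      _ = (m : ℝ) ^ m * ((∑ z ∈ S, (F z).card : ℕ) : ℝ) := by
        rw [← Finset.mul_sum]; push_cast; rfl
      _ = (m : ℝ) ^ m * (P.card : ℝ) ^ m := by
        have h4 : ∑ z ∈ S, (F z).card = P.card ^ m := by
          rw [← Finset.card_eq_sum_card_fiberwise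
            (f := fun σ : Fin m → ℕ => ∏ i, u (σ i))
            (s := Fintype.piFinset (fun _ : Fin m => P))
            (t := S) (fun σ hσ => Finset.mem_image_of_mem _ hσ)]
          rw [Fintype.card_piFinset, Finset.prod_const, Finset.card_univ, Fintype.card_fin]
        rw [h4]
        push_cast
        rfl
  refine (s3.trans s5).trans ?_
  exact mul_le_mul_of_nonneg_left s6 (by positivity)

theorem wbias : ∃ C : ℝ, 0 < C ∧ ∀ (m : ℕ) (P : Finset ℕ) (Q M : ℕ) (S : Finset ℤ)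
    (ν : ℤ → ℝ) (η : ℝ), 1 ≤ m → 0 < η → (∀ x ∈ S, 0 ≤ ν x) → (∀ x ∈ S, |x| < (M : ℤ)) →
    (∀ p ∈ P, p.Prime ∧ m < p ∧ p ≤ Q ∧
      ∃ ζ : ℂ, ζ ^ p = 1 ∧ ζ ≠ 1 ∧ η * ∑ x ∈ S, ν x ≤ ‖∑ x ∈ S, (ν x : ℂ) * ζ ^ x‖) →
    η ^ (2 * m) * (P.card : ℝ) ^ m * (∑ x ∈ S, ν x) ^ 2 ≤
      C * (m : ℝ) ^ m * (M + (Q : ℝ) ^ (2 * m)) * ∑ x ∈ S, ν x ^ 2 := by
  classical
  obtain ⟨C, hC, hS⟩ := wb_sieve
  refine ⟨C, hC, ?_⟩
  intro m P Q M T ν η hm hη hν hTM hP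
  have hE : 0 ≤ ∑ x ∈ T, ν x ^ 2 := Finset.sum_nonneg fun _ _ => sq_nonneg _
  have hR : 0 ≤ C * (m : ℝ) ^ m * (M + (Q : ℝ) ^ (2 * m)) * ∑ x ∈ T, ν x ^ 2 := by positivity
  rcases P.eq_empty_or_nonempty with hP0 | hPne
  · rw [hP0, Finset.card_empty, Nat.cast_zero, zero_pow (by omega), mul_zero, zero_mul]
    exact hR
  rcases (Finset.sum_nonneg hν).eq_or_lt with hA0 | hA
  · rw [← hA0, zero_pow (by norm_num), mul_zero]
    exact hR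
  obtain ⟨u, c, huc⟩ := wb_choose T ν η P (fun p hp => (hP p hp).2.2.2)
  have hS1 := hS m P Q M T u c hPne (fun p hp => ⟨(hP p hp).1, (hP p hp).2.1, (hP p hp).2.2.1,
    (huc p hp).1, (huc p hp).2.1, (huc p hp).2.2.1⟩) hTM
  set f : ℤ → ℂ := fun x => ∑ p ∈ P, c p * u p ^ x with hf
  set A : ℝ := ∑ x ∈ T, ν x with hAdef
  have hPc : (0 : ℝ) < P.card := by exact_mod_cast hPne.card_pos
  -- step 1
  have s1 : η * P.card * A ≤ ∑ x ∈ T, ν x * ‖f x‖ := by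
    have h1 : (∑ p ∈ P, c p * ∑ x ∈ T, (ν x : ℂ) * u p ^ x) = ∑ x ∈ T, (ν x : ℂ) * f x := by
      rw [hf]
      simp_rw [Finset.mul_sum]
      rw [Finset.sum_comm]
      refine Finset.sum_congr rfl fun x _ => Finset.sum_congr rfl fun p _ => ?_
      ring
    calc η * P.card * A = ∑ _p ∈ P, η * A := by
          rw [Finset.sum_const, nsmul_eq_mul]; ring
      _ ≤ ∑ p ∈ P, (c p * ∑ x ∈ T, (ν x : ℂ) * u p ^ x).re :=
          Finset.sum_le_sum fun p hp => (huc p hp).2.2.2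
      _ = (∑ p ∈ P, c p * ∑ x ∈ T, (ν x : ℂ) * u p ^ x).re := (Complex.re_sum _ _).symm
      _ = (∑ x ∈ T, (ν x : ℂ) * f x).re := by rw [h1]
      _ ≤ ‖∑ x ∈ T, (ν x : ℂ) * f x‖ := Complex.re_le_norm _
      _ ≤ ∑ x ∈ T, ‖(ν x : ℂ) * f x‖ := norm_sum_le _ _
      _ = ∑ x ∈ T, ν x * ‖f x‖ := by
          refine Finset.sum_congr rfl fun x hx => ?_
          rw [norm_mul, Complex.norm_real, Real.norm_of_nonneg (hν x hx)]
  -- step 2: Jensen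
  have s2 : (∑ x ∈ T, ν x * ‖f x‖) ^ m ≤ A ^ (m - 1) * ∑ x ∈ T, ν x * ‖f x‖ ^ m := by
    have h1 := Real.pow_arith_mean_le_arith_mean_pow T (fun x => ν x / A) (fun x => ‖f x‖)
      (fun x hx => div_nonneg (hν x hx) hA.le)
      (by rw [← Finset.sum_div, ← hAdef, div_self hA.ne']) (fun x _ => norm_nonneg _) m
    have h2 : ∑ x ∈ T, ν x / A * ‖f x‖ = (∑ x ∈ T, ν x * ‖f x‖) / A := by
      rw [Finset.sum_div]
      exact Finset.sum_congr rfl fun x _ => by ring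
    have h3 : ∑ x ∈ T, ν x / A * ‖f x‖ ^ m = (∑ x ∈ T, ν x * ‖f x‖ ^ m) / A := by
      rw [Finset.sum_div]
      exact Finset.sum_congr rfl fun x _ => by ring
    rw [h2, h3, div_pow, div_le_iff₀ (by positivity)] at h1
    refine h1.trans (le_of_eq ?_)
    have h4 : A ^ m = A ^ (m - 1) * A := by
      rw [← pow_succ]
      congr 1
      omega
    rw [h4]
    field_simp
  -- step 3: Cauchy-Schwarz
  have s3 : (∑ x ∈ T, ν x * ‖f x‖ ^ m) ^ 2 ≤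
      (∑ x ∈ T, ν x ^ 2) * ∑ x ∈ T, ‖(f x) ^ m‖ ^ 2 := by
    have h1 := Finset.sum_mul_sq_le_sq_mul_sq T ν (fun x => ‖f x‖ ^ m)
    simp_rw [norm_pow]
    exact h1
  have s0 : 0 ≤ ∑ x ∈ T, ν x * ‖f x‖ ^ m :=
    Finset.sum_nonneg fun x hx => mul_nonneg (hν x hx) (by positivity)
  have s7 : (η * P.card * A) ^ (2 * m) ≤ A ^ (2 * (m - 1)) * ((∑ x ∈ T, ν x ^ 2) *
      (C * (M + (Q : ℝ) ^ (2 * m)) * ((m : ℝ) ^ m * (P.card : ℝ) ^ m))) := by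
    calc (η * P.card * A) ^ (2 * m) = ((η * P.card * A) ^ m) ^ 2 := by
          rw [← pow_mul]; congr 1; ring
      _ ≤ ((∑ x ∈ T, ν x * ‖f x‖) ^ m) ^ 2 := by
          refine pow_le_pow_left₀ (by positivity) ?_ _
          exact pow_le_pow_left₀ (by positivity) s1 _
      _ ≤ (A ^ (m - 1) * ∑ x ∈ T, ν x * ‖f x‖ ^ m) ^ 2 := by
          refine pow_le_pow_left₀ ?_ s2 _
          exact pow_nonneg (Finset.sum_nonneg fun x hx =>
            mul_nonneg (hν x hx) (norm_nonneg _)) _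
      _ = A ^ (2 * (m - 1)) * (∑ x ∈ T, ν x * ‖f x‖ ^ m) ^ 2 := by
          rw [mul_pow, ← pow_mul, mul_comm (m - 1) 2]
      _ ≤ _ := by
          refine mul_le_mul_of_nonneg_left ?_ (by positivity)
          exact s3.trans (mul_le_mul_of_nonneg_left hS1 hE)
  have s8 : (η * P.card * A) ^ (2 * m) =
      (A ^ (2 * (m - 1)) * (P.card : ℝ) ^ m) * (η ^ (2 * m) * (P.card : ℝ) ^ m * A ^ 2) := by
    have h2 : A ^ (2 * m) = A ^ (2 * (m - 1)) * A ^ 2 := by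
      rw [← pow_add]
      congr 1
      omega
    have h3 : (P.card : ℝ) ^ (2 * m) = (P.card : ℝ) ^ m * (P.card : ℝ) ^ m := by
      rw [← pow_add, two_mul]
    rw [mul_pow, mul_pow, h2, h3]
    ring
  have h9 : (0 : ℝ) < A ^ (2 * (m - 1)) * (P.card : ℝ) ^ m := by positivity
  refine le_of_mul_le_mul_left ?_ h9
  rw [← s8]
  refine s7.trans (le_of_eq ?_)
  ring

private theorem wb_rep_sum (A : Finset ℤ) (g : ℤ → ℂ) :
    ∑ x ∈ val 1 (-1) A A, ((rep 1 (-1) A A x : ℕ) : ℂ) * g x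
      = ∑ z ∈ A ×ˢ A, g (1 * z.1 + (-1) * z.2) := by
  rw [← Finset.sum_fiberwise_of_maps_to (g := fun z : ℤ × ℤ => 1 * z.1 + (-1) * z.2)
    (t := val 1 (-1) A A) (fun z hz => Finset.mem_image_of_mem _ hz)]
  refine Finset.sum_congr rfl fun x _ => ?_
  rw [Finset.sum_congr rfl (g := fun _ => g x)
    (fun z hz => by rw [(Finset.mem_filter.1 hz).2]), Finset.sum_const, nsmul_eq_mul]
  rfl

private theorem wb_eng (A : Finset ℤ) :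
    eng 1 (-1) A A = ∑ x ∈ val 1 (-1) A A, rep 1 (-1) A A x ^ 2 := by
  unfold eng
  rw [Finset.card_eq_sum_card_fiberwise
    (f := fun z : (ℤ × ℤ) × (ℤ × ℤ) => 1 * z.1.1 + (-1) * z.1.2) (t := val 1 (-1) A A)]
  · refine Finset.sum_congr rfl fun x _ => ?_
    rw [sq]
    unfold rep
    rw [← Finset.card_product]
    congr 1
    ext z
    simp only [Finset.mem_filter, Finset.mem_product]
    constructor
    · rintro ⟨⟨⟨h1, h2⟩, h3⟩, h4⟩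
      exact ⟨⟨h1, h4⟩, ⟨h2, h3.symm.trans h4⟩⟩
    · rintro ⟨⟨h1, h2⟩, ⟨h3, h4⟩⟩
      exact ⟨⟨⟨h1, h3⟩, h2.trans h4.symm⟩, h2⟩
  · intro z hz
    rw [Finset.mem_coe, Finset.mem_filter, Finset.mem_product] at hz
    exact Finset.mem_image_of_mem _ hz.1.1

theorem wbad : ∃ C : ℝ, 0 < C ∧ ∀ (m : ℕ) (P : Finset ℕ) (Q N : ℕ) (A : Finset ℤ) (η : ℝ),
    1 ≤ m → 0 < η → 1 ≤ N → (∀ a ∈ A, 1 ≤ a ∧ a ≤ (N : ℤ)) →
    (∀ p ∈ P, p.Prime ∧ m < p ∧ p ≤ Q ∧ Bad η A p) →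
    η ^ (4 * m) * (P.card : ℝ) ^ m * (A.card : ℝ) ^ 4 ≤
      C * (m : ℝ) ^ m * (N + (Q : ℝ) ^ (2 * m)) * (eng 1 (-1) A A : ℝ) := by
  obtain ⟨C, hC, hW⟩ := wbias
  refine ⟨C, hC, ?_⟩
  intro m P Q N A η hm hη hN hA hP
  have hsum : ∑ x ∈ val 1 (-1) A A, ((rep 1 (-1) A A x : ℕ) : ℝ) = (A.card : ℝ) ^ 2 := by
    rw [← Nat.cast_sum, Pool.CSE.sum_rep, sq, Nat.cast_mul]
  have h := hW m P Q N (val 1 (-1) A A) (fun x => ((rep 1 (-1) A A x : ℕ) : ℝ)) (η ^ 2) hm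
    (by positivity) (fun _ _ => Nat.cast_nonneg _) ?_ ?_
  · rw [hsum] at h
    have h1 : (η ^ 2) ^ (2 * m) = η ^ (4 * m) := by rw [← pow_mul]; congr 1; ring
    have h2 : ∑ x ∈ val 1 (-1) A A, ((rep 1 (-1) A A x : ℕ) : ℝ) ^ 2
        = (eng 1 (-1) A A : ℝ) := by
      rw [wb_eng]
      push_cast
      rfl
    have h3 : ((A.card : ℝ) ^ 2) ^ 2 = (A.card : ℝ) ^ 4 := by rw [← pow_mul]
    rw [h1, h2, h3] at h
    exact h
  · intro x hx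
    rw [Pool.CSE.val, Finset.mem_image] at hx
    obtain ⟨z, hz, rfl⟩ := hx
    rw [Finset.mem_product] at hz
    have h1 := hA _ hz.1
    have h2 := hA _ hz.2
    rw [abs_lt]
    constructor <;> omega
  · intro p hp
    obtain ⟨h1, h2, h3, ζ, hζ1, hζ2, hζ3⟩ := hP p hp
    refine ⟨h1, h2, h3, ζ, hζ1, hζ2, ?_⟩
    have hn : ‖ζ‖ = 1 := Complex.norm_eq_one_of_pow_eq_one hζ1 h1.ne_zero
    have hζ0 : ζ ≠ 0 := fun hh => by rw [hh, norm_zero] at hn; exact zero_ne_one hn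
    rw [hsum]
    have h4 : ∑ x ∈ val 1 (-1) A A, ((((rep 1 (-1) A A x : ℕ) : ℝ) : ℝ) : ℂ) * ζ ^ x
        = (∑ a ∈ A, ζ ^ a) * (starRingEnd ℂ) (∑ a ∈ A, ζ ^ a) := by
      have h5 := wb_rep_sum A (fun x => ζ ^ x)
      have h6 : ∑ x ∈ val 1 (-1) A A, ((((rep 1 (-1) A A x : ℕ) : ℝ) : ℝ) : ℂ) * ζ ^ x
          = ∑ x ∈ val 1 (-1) A A, ((rep 1 (-1) A A x : ℕ) : ℂ) * ζ ^ x := by
        refine Finset.sum_congr rfl fun x _ => ?_
        push_cast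
        rfl
      rw [h6, h5, Finset.sum_product, map_sum, Finset.sum_mul_sum]
      refine Finset.sum_congr rfl fun a _ => Finset.sum_congr rfl fun b _ => ?_
      have h7 : (starRingEnd ℂ) (ζ ^ b) = ζ ^ (-b) := by
        rw [map_zpow₀, zpow_neg, ← inv_zpow]
        congr 1
        exact (Complex.inv_eq_conj hn).symm
      rw [h7, ← zpow_add₀ hζ0]
      congr 1
      ring
    rw [h4, Complex.mul_conj, Complex.norm_real, Real.norm_of_nonneg (Complex.normSq_nonneg _),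
      Complex.normSq_eq_norm_sq]
    calc η ^ 2 * (A.card : ℝ) ^ 2 = (η * A.card) ^ 2 := by ring
      _ ≤ ‖∑ a ∈ A, ζ ^ a‖ ^ 2 := pow_le_pow_left₀ (by positivity) hζ3 _

end Pool.CSU
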